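import Mathlib

/-!
# LZS.Ana: the recursion forces U(n) = o(n^2)

PROOF. Good γ := ∀ ε > 0, ∃ K ≥ 0, ∀ t, ∃ K', ∀ n ≥ t, S n t ≤ (γ+ε) t n + K n + K'.
(1) Good 1: h0,h1,h2 give S n t ≤ t n.
(2) Good γ ⇒ ∀ ε > 0 ∃ K, ∀ n, U n ≤ (γ+ε) n²/2 + K (n+1): fix t with K/t < ε/4; S n t ≤ (γ+ε/2) t n + K'; U n ≤ U (n-t) + that + U t; induction on n
    in steps of t.
(3) Good γ, γ > 0 ⇒ Good (11γ/12): ε = γ/100, s large, t0 = 3(s-1). For n = s h, h ≥ 5s+5: h5, Good γ for the finitely many a_b = s-1+2b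
    (∑ a_b = 2 s (s-1)) and (2): S (s h) t0 ≤ h [ (γ+ε) 2 s (s-1) + K s + (γ+ε) s²/2 + K(s+1) ] + K''. Since t0 n = 3 (s-1) s h, the ratio of the bracket to
    3 (s-1) s is → (5/6)(γ+ε) < 11γ/12. So S (s h) t0 ≤ (11γ/12) t0 (s h) + K''. General n = s h + r, r < s: h4 r times adds a constant; small n: a
    constant. So S n t0 ≤ (11γ/12) t0 n + K''' for n ≥ t0. General t = q t0 + r: h2 q times (S (n - a) b ≤ bound(n) since the bound is increasing in n) and r ≤ t0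
    single tokens: S n t ≤ (11γ/12) t n + t0 n + q K''' .
(4) iterate: Good ((11/12)^j) for all j, then (2) gives the claim.
-/

open Finset

namespace LZS

/-- asymptotic bound for `S` -/
def GoodA (S : ℕ → ℕ → ℕ) (γ : ℝ) : Prop :=
  ∀ ε : ℝ, 0 < ε → ∃ K : ℝ, 0 ≤ K ∧ ∀ t : ℕ, ∃ K' : ℝ, 0 ≤ K' ∧ ∀ n : ℕ, t ≤ n →
    (S n t : ℝ) ≤ (γ + ε) * t * n + K * n + K'

theorem ana_tokens (S : ℕ → ℕ → ℕ)
    (h0 : ∀ n, S n 0 = 0) (h1 : ∀ n, S n 1 ≤ n)
    (h2 : ∀ n a b, a + b ≤ n → S n (a + b) ≤ S n a + S (n - a) b) :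
    ∀ t n, t ≤ n → S n t ≤ t * n := by
  intro t
  induction t with
  | zero => intro n _; rw [h0]; exact Nat.zero_le _
  | succ t ih =>
    intro n hn
    have a1 := h2 n t 1 hn
    have a2 := ih n (by omega)
    have a3 := h1 (n - t)
    calc S n (t + 1) ≤ S n t + S (n - t) 1 := a1
      _ ≤ t * n + (n - t) := Nat.add_le_add a2 a3
      _ ≤ t * n + n := by omega
      _ = (t + 1) * n := by ring

theorem ana_U (S : ℕ → ℕ → ℕ) (U : ℕ → ℕ)
    (h3 : ∀ n t, t ≤ n → U n ≤ U t + U (n - t) + S n t) {γ : ℝ} (hγ : 0 ≤ γ) (hg : GoodA S γ)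
    (ε : ℝ) (hε : 0 < ε) :
    ∃ K : ℝ, 0 ≤ K ∧ ∀ n : ℕ, (U n : ℝ) ≤ (γ + ε) * (n : ℝ) ^ 2 / 2 + K * (n + 1) := by
  obtain ⟨K₁, hK₁, hK⟩ := hg (ε / 2) (by positivity)
  obtain ⟨t, ht⟩ := exists_nat_gt (4 * K₁ / ε)
  have ht0 : (0 : ℝ) < t := lt_of_le_of_lt (by positivity) ht
  have ht1 : 1 ≤ t := by exact_mod_cast ht0
  have ht1' : (1 : ℝ) ≤ t := by exact_mod_cast ht1
  rw [div_lt_iff₀ hε] at ht
  obtain ⟨K', hK', hS⟩ := hK t
  set K : ℝ := (γ + ε) * (t : ℝ) ^ 2 + U t + K' + ∑ m ∈ range t, (U m : ℝ) with hKdef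
  have hK0 : 0 ≤ K := by
    have : 0 ≤ ∑ m ∈ range t, (U m : ℝ) := Finset.sum_nonneg (fun _ _ => by positivity)
    positivity
  refine ⟨K, hK0, ?_⟩
  intro n
  induction n using Nat.strong_induction_on with
  | _ n ih =>
    by_cases hn : n < t
    · have a1 : (U n : ℝ) ≤ ∑ m ∈ range t, (U m : ℝ) :=
        Finset.single_le_sum (f := fun m => (U m : ℝ)) (fun _ _ => by positivity)
          (Finset.mem_range.2 hn)
      have a2 : (U n : ℝ) ≤ K := by
        have : 0 ≤ (γ + ε) * (t : ℝ) ^ 2 + U t + K' := by positivity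
        linarith
      have a3 : (0 : ℝ) ≤ (γ + ε) * (n : ℝ) ^ 2 / 2 := by positivity
      have a4 : 0 ≤ K * n := by positivity
      nlinarith
    · push Not at hn
      have b1 := ih (n - t) (by omega)
      have b2 : (U n : ℝ) ≤ U t + U (n - t) + S n t := by exact_mod_cast h3 n t hn
      have b3 := hS n hn
      have b4 : ((n - t : ℕ) : ℝ) = n - t := by rw [Nat.cast_sub hn]
      rw [b4] at b1
      have hnt : (t : ℝ) ≤ n := by exact_mod_cast hn
      have b5 : K₁ * n ≤ ε / 4 * t * n := by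
        have : K₁ ≤ ε / 4 * t := by linarith
        exact mul_le_mul_of_nonneg_right this (by positivity)
      have b6 : (γ + ε) * (t : ℝ) ^ 2 + U t + K' ≤ K * t := by
        have c1 : (γ + ε) * (t : ℝ) ^ 2 + U t + K' ≤ K := by
          have : 0 ≤ ∑ m ∈ range t, (U m : ℝ) := Finset.sum_nonneg (fun _ _ => by positivity)
          linarith
        have c2 : K ≤ K * t := by nlinarith
        linarith
      have b7 : 0 ≤ ε / 4 * t * n := by positivity
      have b8 : 0 ≤ (γ + ε) * (t : ℝ) ^ 2 / 2 := by positivity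
      nlinarith

theorem ana_step (S : ℕ → ℕ → ℕ) (U : ℕ → ℕ)
    (h0 : ∀ n, S n 0 = 0) (h1 : ∀ n, S n 1 ≤ n)
    (h2 : ∀ n a b, a + b ≤ n → S n (a + b) ≤ S n a + S (n - a) b)
    (h3 : ∀ n t, t ≤ n → U n ≤ U t + U (n - t) + S n t)
    (h4 : ∀ n t, t ≤ n → S (n + 1) t ≤ S n t + U t + 1)
    (h5 : ∀ s h, 2 ≤ s → 5 * s + 5 ≤ h →
      S (s * h) (3 * (s - 1)) ≤ (∑ b ∈ range s, S h (s - 1 + 2 * b)) + h * U s + 100 * s ^ 5)
    {γ : ℝ} (hγ : 0 < γ) (hg : GoodA S γ) : GoodA S (11 / 12 * γ) := by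
  obtain ⟨K, hK0, hK⟩ := hg (γ / 100) (by positivity)
  obtain ⟨KU, hKU0, hKU⟩ := ana_U S U h3 hγ.le hg (γ / 100) (by positivity)
  choose K' hK'0 hK' using hK
  -- choose s
  obtain ⟨s₀, hs₀⟩ := exists_nat_gt ((K + 2 * KU + γ) / (γ / 5))
  set s : ℕ := s₀ + 2 with hs
  have hs2 : 2 ≤ s := by omega
  have hsR : (2 : ℝ) ≤ s := by exact_mod_cast hs2
  have hsbig : (K + 2 * KU + γ) ≤ γ / 5 * s := by
    rw [div_lt_iff₀ (by positivity)] at hs₀
    have : (s : ℝ) = s₀ + 2 := by rw [hs]; push_cast; ring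
    rw [this]
    nlinarith
  set t₀ : ℕ := 3 * (s - 1) with ht₀
  have ht₀R : (t₀ : ℝ) = 3 * ((s : ℝ) - 1) := by
    rw [ht₀]; push_cast [Nat.cast_sub (by omega : 1 ≤ s)]; ring
  have ht₀pos : 0 < t₀ := by omega
  set C : ℝ := (∑ b ∈ range s, K' (s - 1 + 2 * b)) + 100 * (s : ℝ) ^ 5 with hC
  have hC0 : 0 ≤ C := by
    have : 0 ≤ ∑ b ∈ range s, K' (s - 1 + 2 * b) := Finset.sum_nonneg (fun _ _ => hK'0 _)
    positivity
  -- multiples of s
  have hmain : ∀ h, 5 * s + 5 ≤ h → (S (s * h) t₀ : ℝ) ≤ 11 / 12 * γ * t₀ * (s * h : ℕ) + C := by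
    intro h hh
    have a1 : (S (s * h) t₀ : ℝ) ≤ (∑ b ∈ range s, (S h (s - 1 + 2 * b) : ℝ)) + h * U s +
        100 * (s : ℝ) ^ 5 := by exact_mod_cast h5 s h hs2 hh
    have a2 : ∑ b ∈ range s, (S h (s - 1 + 2 * b) : ℝ) ≤
        ∑ b ∈ range s, ((γ + γ / 100) * ((s - 1 + 2 * b : ℕ) : ℝ) * h + K * h +
          K' (s - 1 + 2 * b)) := by
      refine Finset.sum_le_sum (fun b hb => ?_)
      have hb' := Finset.mem_range.1 hb
      exact hK' (s - 1 + 2 * b) h (by omega)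
    have a3 : ∑ b ∈ range s, ((γ + γ / 100) * ((s - 1 + 2 * b : ℕ) : ℝ) * h + K * h +
          K' (s - 1 + 2 * b)) = (γ + γ / 100) * (2 * s * ((s : ℝ) - 1)) * h + s * (K * h) +
          ∑ b ∈ range s, K' (s - 1 + 2 * b) := by
      rw [Finset.sum_add_distrib, Finset.sum_add_distrib]
      congr 1
      congr 1
      · rw [← Finset.sum_mul, ← Finset.mul_sum]
        congr 2
        have e1 : ∀ b ∈ range s, (((s - 1 + 2 * b : ℕ)) : ℝ) = ((s : ℝ) - 1) + 2 * b := by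
          intro b _
          push_cast [Nat.cast_sub (by omega : 1 ≤ s)]
          ring
        rw [Finset.sum_congr rfl e1, Finset.sum_add_distrib, Finset.sum_const, Finset.card_range,
          nsmul_eq_mul, ← Finset.mul_sum]
        have e2 : ∀ n : ℕ, (∑ b ∈ range n, (b : ℝ)) = (n : ℝ) * (n - 1) / 2 := by
          intro n
          induction n with
          | zero => simp
          | succ n ih => rw [Finset.sum_range_succ, ih]; push_cast; ring
        rw [e2]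
        ring
      · rw [Finset.sum_const, Finset.card_range, nsmul_eq_mul]
    have a4 := hKU s
    have hhR : (0 : ℝ) ≤ h := by positivity
    have a5 : (h : ℝ) * U s ≤ h * ((γ + γ / 100) * (s : ℝ) ^ 2 / 2 + KU * (s + 1)) :=
      mul_le_mul_of_nonneg_left a4 hhR
    have a6 : (γ + γ / 100) * (2 * s * ((s : ℝ) - 1)) + s * K +
        ((γ + γ / 100) * (s : ℝ) ^ 2 / 2 + KU * (s + 1)) ≤ 11 / 12 * γ * (3 * ((s : ℝ) - 1)) * s := by
      have c1 : s * (K + 2 * KU + γ) ≤ s * (γ / 5 * s) :=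
        mul_le_mul_of_nonneg_left hsbig (by positivity)
      have c2 : KU * ((s : ℝ) + 1) ≤ KU * (2 * s) := mul_le_mul_of_nonneg_left (by linarith) hKU0
      have c3 : 0 < γ * s := by positivity
      nlinarith
    have a7 := mul_le_mul_of_nonneg_right a6 hhR
    rw [ht₀R]
    push_cast
    rw [hC]
    linarith
  -- all n
  obtain ⟨C₃, hC₃0, hC₃⟩ : ∃ C₃ : ℝ, 0 ≤ C₃ ∧ ∀ n, t₀ ≤ n →
      (S n t₀ : ℝ) ≤ 11 / 12 * γ * t₀ * n + C₃ := by
    refine ⟨C + s * (U t₀ + 1) + ∑ n ∈ range (s * (5 * s + 5)), (S n t₀ : ℝ), ?_, ?_⟩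
    · have : 0 ≤ ∑ n ∈ range (s * (5 * s + 5)), (S n t₀ : ℝ) :=
        Finset.sum_nonneg (fun _ _ => by positivity)
      positivity
    · intro n hn
      have hsum : 0 ≤ ∑ n ∈ range (s * (5 * s + 5)), (S n t₀ : ℝ) :=
        Finset.sum_nonneg (fun _ _ => by positivity)
      by_cases hsmall : n < s * (5 * s + 5)
      · have a1 : (S n t₀ : ℝ) ≤ ∑ n ∈ range (s * (5 * s + 5)), (S n t₀ : ℝ) :=
          Finset.single_le_sum (f := fun n => (S n t₀ : ℝ)) (fun _ _ => by positivity)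
            (Finset.mem_range.2 hsmall)
        have a2 : (0 : ℝ) ≤ 11 / 12 * γ * t₀ * n := by positivity
        have a3 : (0 : ℝ) ≤ s * (U t₀ + 1) := by positivity
        linarith
      · push Not at hsmall
        have hdiv : 5 * s + 5 ≤ n / s := (Nat.le_div_iff_mul_le (by omega)).2 (by
          rw [mul_comm]; exact hsmall)
        have hstep : ∀ r : ℕ, (S (s * (n / s) + r) t₀ : ℝ) ≤
            S (s * (n / s)) t₀ + r * (U t₀ + 1) := by
          intro r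
          induction r with
          | zero => simp
          | succ r ih =>
            have hle : t₀ ≤ s * (n / s) + r := by
              have : s * (5 * s + 5) ≤ s * (n / s) := Nat.mul_le_mul_left _ hdiv
              have h3s : t₀ ≤ 3 * s := by omega
              nlinarith
            have b1 : (S (s * (n / s) + r + 1) t₀ : ℝ) ≤ S (s * (n / s) + r) t₀ + U t₀ + 1 := by
              exact_mod_cast h4 _ _ hle
            rw [← add_assoc]
            push_cast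
            linarith
        have b2 := hstep (n % s)
        rw [Nat.div_add_mod] at b2
        have b3 := hmain (n / s) hdiv
        have b4 : ((n % s : ℕ) : ℝ) * (U t₀ + 1) ≤ s * (U t₀ + 1) := by
          apply mul_le_mul_of_nonneg_right _ (by positivity)
          exact_mod_cast (Nat.mod_lt n (by omega)).le
        have b5 : ((s * (n / s) : ℕ) : ℝ) ≤ n := by exact_mod_cast Nat.mul_div_le n s
        have b6 : 11 / 12 * γ * t₀ * ((s * (n / s) : ℕ) : ℝ) ≤ 11 / 12 * γ * t₀ * n :=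
          mul_le_mul_of_nonneg_left b5 (by positivity)
        linarith
  -- multiples of t₀
  have hmul : ∀ q n : ℕ, q * t₀ ≤ n →
      (S n (q * t₀) : ℝ) ≤ 11 / 12 * γ * (q * t₀ : ℕ) * n + q * C₃ := by
    intro q
    induction q with
    | zero =>
      intro n _
      rw [zero_mul, h0]
      simp
    | succ q ih =>
      intro n hn
      have e1 : (q + 1) * t₀ = q * t₀ + t₀ := by ring
      rw [e1] at hn ⊢
      have a1 : (S n (q * t₀ + t₀) : ℝ) ≤ S n (q * t₀) + S (n - q * t₀) t₀ := by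
        exact_mod_cast h2 n (q * t₀) t₀ hn
      have a2 := ih n (by omega)
      have a3 := hC₃ (n - q * t₀) (by omega)
      have a4 : ((n - q * t₀ : ℕ) : ℝ) ≤ n := by exact_mod_cast Nat.sub_le _ _
      have a5 : 11 / 12 * γ * t₀ * ((n - q * t₀ : ℕ) : ℝ) ≤ 11 / 12 * γ * t₀ * n :=
        mul_le_mul_of_nonneg_left a4 (by positivity)
      push_cast at a1 a2 ⊢
      linarith
  intro ε hε
  refine ⟨t₀, by positivity, ?_⟩
  intro t
  refine ⟨(t / t₀ : ℕ) * C₃, by positivity, ?_⟩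
  intro n hn
  have hdm : t / t₀ * t₀ + t % t₀ = t := by rw [mul_comm]; exact Nat.div_add_mod t t₀
  have hle1 : t / t₀ * t₀ ≤ n := by omega
  have a1 := hmul (t / t₀) n hle1
  have a2 : (S n t : ℝ) ≤ S n (t / t₀ * t₀) + S (n - t / t₀ * t₀) (t % t₀) := by
    have := h2 n (t / t₀ * t₀) (t % t₀) (by omega)
    rw [hdm] at this
    exact_mod_cast this
  have a3 : S (n - t / t₀ * t₀) (t % t₀) ≤ t₀ * n := by
    refine (ana_tokens S h0 h1 h2 (t % t₀) (n - t / t₀ * t₀) (by omega)).trans ?_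
    exact Nat.mul_le_mul (Nat.mod_lt _ ht₀pos).le (Nat.sub_le _ _)
  have a3' : (S (n - t / t₀ * t₀) (t % t₀) : ℝ) ≤ t₀ * n := by exact_mod_cast a3
  have a4 : ((t / t₀ * t₀ : ℕ) : ℝ) ≤ t := by exact_mod_cast Nat.div_mul_le_self t t₀
  have a5 : 11 / 12 * γ * ((t / t₀ * t₀ : ℕ) : ℝ) * n ≤ 11 / 12 * γ * t * n := by
    apply mul_le_mul_of_nonneg_right _ (by positivity)
    exact mul_le_mul_of_nonneg_left a4 (by positivity)
  have a6 : 0 ≤ ε * t * n := by positivity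
  nlinarith

theorem ana (S : ℕ → ℕ → ℕ) (U : ℕ → ℕ)
    (h0 : ∀ n, S n 0 = 0) (h1 : ∀ n, S n 1 ≤ n)
    (h2 : ∀ n a b, a + b ≤ n → S n (a + b) ≤ S n a + S (n - a) b)
    (h3 : ∀ n t, t ≤ n → U n ≤ U t + U (n - t) + S n t)
    (h4 : ∀ n t, t ≤ n → S (n + 1) t ≤ S n t + U t + 1)
    (h5 : ∀ s h, 2 ≤ s → 5 * s + 5 ≤ h →
      S (s * h) (3 * (s - 1)) ≤ (∑ b ∈ range s, S h (s - 1 + 2 * b)) + h * U s + 100 * s ^ 5) :
    ∀ ε : ℝ, 0 < ε → ∃ N : ℕ, ∀ n, N ≤ n → (U n : ℝ) ≤ ε * (n : ℝ) ^ 2 := by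
  have hg1 : GoodA S 1 := by
    intro ε hε
    refine ⟨0, le_refl _, fun t => ⟨0, le_refl _, fun n hn => ?_⟩⟩
    have a1 : (S n t : ℝ) ≤ t * n := by exact_mod_cast ana_tokens S h0 h1 h2 t n hn
    have a2 : 0 ≤ ε * t * n := by positivity
    nlinarith
  have hgj : ∀ j : ℕ, GoodA S ((11 / 12) ^ j) := by
    intro j
    induction j with
    | zero => simpa using hg1
    | succ j ih =>
      rw [pow_succ, mul_comm]
      exact ana_step S U h0 h1 h2 h3 h4 h5 (by positivity) ih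
  intro ε hε
  obtain ⟨j, hj⟩ := exists_pow_lt_of_lt_one (show (0 : ℝ) < ε / 2 by positivity)
    (show (11 / 12 : ℝ) < 1 by norm_num)
  obtain ⟨K, hK0, hK⟩ := ana_U S U h3 (by positivity) (hgj j) (ε / 2) (by positivity)
  obtain ⟨N, hN⟩ := exists_nat_gt (4 * K / ε)
  refine ⟨N + 1, fun n hn => ?_⟩
  have a1 := hK n
  have hn1 : (N : ℝ) + 1 ≤ n := by exact_mod_cast hn
  have hn0 : (1 : ℝ) ≤ n := by
    have : (0 : ℝ) ≤ N := by positivity
    linarith
  rw [div_lt_iff₀ hε] at hN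
  have a2 : 4 * K ≤ ε * n := by nlinarith
  have a3 : K * (n + 1) ≤ ε * (n : ℝ) ^ 2 / 2 := by
    have c1 : K * (n + 1) ≤ K * (2 * n) := mul_le_mul_of_nonneg_left (by linarith) hK0
    have c2 : 4 * K * n ≤ ε * n * n := mul_le_mul_of_nonneg_right a2 (by linarith)
    nlinarith
  have a4 : ((11 / 12 : ℝ) ^ j + ε / 2) * (n : ℝ) ^ 2 / 2 ≤ ε * (n : ℝ) ^ 2 / 2 := by
    have : 0 ≤ (n : ℝ) ^ 2 := by positivity
    nlinarith
  linarith

end LZS
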