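import Pool.Agent.LZS.Ana

/-!
# LZS.AnaR: the recursion forces U(n) = O(n^2 / (log n)^(1/3))

PROOF. Write w(x) = (log x)^(-1/3), theta = 6/25, s = floor(n^theta), t0 = 3(s-1). By strong induction on n we show, for a large constant C,
(A) S n t ≤ n (C w(n) t + 3 n^theta) for t ≤ n, (B) U n ≤ (C/2) w(n) n^2. For n ≤ N both are trivial if C is large (S n t ≤ t n, U n ≤ C1 n^2).
For n > N and t0 ≤ m ≤ n: S m t0 ≤ (999/1000) C w(n) n t0: trivial if m ≤ n^(1-delta); else h5 with h = m/s, (A) for h and (B) for s give the factor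
(2/3) (1-theta)^(-1/3) + (1/6) theta^(-1/3) + o(1) < 999/1000. Then t = q t0 + r gives (A), and U n ≤ U t + U (n-t) + S n t with t = floor(n/2000)
gives (B).
-/

open Finset Filter

namespace LZS

/-- the weight `(log x)^(-1/3)` -/
noncomputable def wR (x : ℝ) : ℝ := (Real.log x) ^ (-(1 / 3 : ℝ))

theorem wR_pos {x : ℝ} (hx : 1 < x) : 0 < wR x := Real.rpow_pos_of_pos (Real.log_pos hx) _

theorem wR_anti {x y : ℝ} (hx : 1 < x) (hxy : x ≤ y) : wR y ≤ wR x :=
  Real.rpow_le_rpow_of_nonpos (Real.log_pos hx) (Real.log_le_log (by linarith) hxy) (by norm_num)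

/-- comparison of the weights at `x` and at `y ≥ x ^ a` -/
theorem wR_scale {x y a α : ℝ} (hx : 1 < x) (ha : 0 < a) (hα : 0 < α) (h1 : 1 ≤ a * α ^ 3)
    (hy : x ^ a ≤ y) : wR y ≤ α * wR x := by
  have hlx := Real.log_pos hx
  have hxa : 0 < x ^ a := Real.rpow_pos_of_pos (by linarith) _
  have h3 : 0 < α ^ 3 := by positivity
  have h2 : Real.log x / α ^ 3 ≤ Real.log y := by
    have e1 : Real.log (x ^ a) ≤ Real.log y := Real.log_le_log hxa hy
    rw [Real.log_rpow (by linarith)] at e1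
    rw [div_le_iff₀ h3]
    have e2 : Real.log x ≤ a * α ^ 3 * Real.log x := by nlinarith
    have e3 : a * Real.log x * α ^ 3 ≤ Real.log y * α ^ 3 :=
      mul_le_mul_of_nonneg_right e1 h3.le
    nlinarith
  have h4 : 0 < Real.log x / α ^ 3 := by positivity
  calc wR y ≤ (Real.log x / α ^ 3) ^ (-(1 / 3 : ℝ)) :=
        Real.rpow_le_rpow_of_nonpos h4 h2 (by norm_num)
    _ = α * wR x := by
        rw [Real.div_rpow hlx.le h3.le, wR]
        have e5 : (α ^ 3 : ℝ) ^ (-(1 / 3 : ℝ)) = α⁻¹ := by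
          rw [← Real.rpow_natCast α 3, ← Real.rpow_mul hα.le]
          norm_num
          rw [Real.rpow_neg hα.le, Real.rpow_one]
        rw [e5]
        field_simp

theorem asym {a b : ℝ} (hab : a < b) (K : ℝ) :
    ∀ᶠ n : ℕ in atTop, K * (n : ℝ) ^ a ≤ (n : ℝ) ^ b * wR n := by
  have h1 := isLittleO_log_rpow_rpow_atTop (1 / 3 : ℝ) (sub_pos.2 hab)
  have h2 := h1.bound (show (0 : ℝ) < 1 / (|K| + 1) by positivity)
  have h3 := tendsto_natCast_atTop_atTop (R := ℝ) |>.eventually h2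
  filter_upwards [h3, eventually_ge_atTop 3] with n hn hn3
  have hn3' : (3 : ℝ) ≤ n := by exact_mod_cast hn3
  have hl : 0 < Real.log n := Real.log_pos (by linarith)
  have hl' : 0 < Real.log n ^ (1 / 3 : ℝ) := Real.rpow_pos_of_pos hl _
  have hp : 0 < (n : ℝ) ^ (b - a) := Real.rpow_pos_of_pos (by linarith) _
  rw [Real.norm_of_nonneg hl'.le, Real.norm_of_nonneg hp.le] at hn
  have e1 : (n : ℝ) ^ b = (n : ℝ) ^ (b - a) * (n : ℝ) ^ a := by
    rw [← Real.rpow_add (by linarith)]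
    congr 1
    ring
  have e2 : wR n = (Real.log n ^ (1 / 3 : ℝ))⁻¹ := by
    rw [wR, Real.rpow_neg hl.le]
  rw [e1, e2]
  have hpa : 0 < (n : ℝ) ^ a := Real.rpow_pos_of_pos (by linarith) _
  have e3 : K * Real.log n ^ (1 / 3 : ℝ) ≤ (n : ℝ) ^ (b - a) := by
    have c1 : K ≤ |K| + 1 := by linarith [le_abs_self K]
    have c2 : (|K| + 1) * Real.log n ^ (1 / 3 : ℝ) ≤ (n : ℝ) ^ (b - a) := by
      have : (|K| + 1) * Real.log n ^ (1 / 3 : ℝ) ≤
          (|K| + 1) * (1 / (|K| + 1) * (n : ℝ) ^ (b - a)) :=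
        mul_le_mul_of_nonneg_left hn (by positivity)
      have c3 : (|K| + 1) * (1 / (|K| + 1) * (n : ℝ) ^ (b - a)) = (n : ℝ) ^ (b - a) := by
        field_simp
      linarith
    nlinarith
  calc K * (n : ℝ) ^ a = K * Real.log n ^ (1 / 3 : ℝ) * (n : ℝ) ^ a * (Real.log n ^ (1 / 3 : ℝ))⁻¹ := by
        field_simp
    _ ≤ (n : ℝ) ^ (b - a) * (n : ℝ) ^ a * (Real.log n ^ (1 / 3 : ℝ))⁻¹ := by
        apply mul_le_mul_of_nonneg_right _ (by positivity)
        exact mul_le_mul_of_nonneg_right e3 hpa.le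

theorem asym' {a b : ℝ} (hab : a < b) (K : ℝ) :
    ∀ᶠ n : ℕ in atTop, K * (n : ℝ) ^ a ≤ (n : ℝ) ^ b := by
  filter_upwards [asym hab K, eventually_ge_atTop 3] with n hn hn3
  have hn3' : (3 : ℝ) ≤ n := by exact_mod_cast hn3
  have hl : 1 ≤ Real.log n := by
    rw [Real.le_log_iff_exp_le (by linarith)]
    have := Real.exp_one_lt_d9
    linarith
  have h1 : wR n ≤ 1 := by
    have := Real.rpow_le_rpow_of_nonpos (show (0 : ℝ) < 1 by norm_num) hl
      (show (-(1 / 3 : ℝ)) ≤ 0 by norm_num)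
    rw [Real.one_rpow] at this
    exact this
  have hpb : 0 < (n : ℝ) ^ b := Real.rpow_pos_of_pos (by linarith) _
  nlinarith

theorem asymC {b : ℝ} (hb : 0 < b) (K : ℝ) :
    ∀ᶠ n : ℕ in atTop, K ≤ (n : ℝ) ^ b := by
  filter_upwards [asym' hb K] with n hn
  simpa using hn

/-- the size of a batch -/
noncomputable def sN (n : ℕ) : ℕ := ⌊(n : ℝ) ^ (6 / 25 : ℝ)⌋₊

theorem anaR_h4 (S : ℕ → ℕ → ℕ) (U : ℕ → ℕ)
    (h4 : ∀ n t, t ≤ n → S (n + 1) t ≤ S n t + U t + 1) (n t : ℕ) (ht : t ≤ n) :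
    ∀ r : ℕ, S (n + r) t ≤ S n t + r * (U t + 1) := by
  intro r
  induction r with
  | zero => simp
  | succ r ih =>
    have := h4 (n + r) t (by omega)
    rw [← add_assoc]
    calc S (n + r + 1) t ≤ S (n + r) t + U t + 1 := this
      _ ≤ S n t + r * (U t + 1) + U t + 1 := by omega
      _ = S n t + (r + 1) * (U t + 1) := by ring

theorem anaR_sum (s : ℕ) (hs : 1 ≤ s) :
    ∑ b ∈ range s, (((s - 1 + 2 * b : ℕ)) : ℝ) = 2 * s * ((s : ℝ) - 1) := by
  have e1 : ∀ b ∈ range s, (((s - 1 + 2 * b : ℕ)) : ℝ) = ((s : ℝ) - 1) + 2 * b := by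
    intro b _
    push_cast [Nat.cast_sub hs]
    ring
  rw [Finset.sum_congr rfl e1, Finset.sum_add_distrib, Finset.sum_const, Finset.card_range,
    nsmul_eq_mul, ← Finset.mul_sum]
  have e2 : ∀ n : ℕ, (∑ b ∈ range n, (b : ℝ)) = (n : ℝ) * (n - 1) / 2 := by
    intro n
    induction n with
    | zero => simp
    | succ n ih => rw [Finset.sum_range_succ, ih]; push_cast; ring
  rw [e2]
  ring

theorem anaR_batch (S : ℕ → ℕ → ℕ) (U : ℕ → ℕ)
    (h0 : ∀ n, S n 0 = 0) (h1 : ∀ n, S n 1 ≤ n)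
    (h2 : ∀ n a b, a + b ≤ n → S n (a + b) ≤ S n a + S (n - a) b)
    (h4 : ∀ n t, t ≤ n → S (n + 1) t ≤ S n t + U t + 1)
    (h5 : ∀ s h, 2 ≤ s → 5 * s + 5 ≤ h →
      S (s * h) (3 * (s - 1)) ≤ (∑ b ∈ range s, S h (s - 1 + 2 * b)) + h * U s + 100 * s ^ 5)
    (C1 : ℝ) (hC1 : 0 ≤ C1) (hU : ∀ n : ℕ, 1 ≤ n → (U n : ℝ) ≤ C1 * (n : ℝ) ^ 2) :
    ∀ᶠ n : ℕ in atTop, ∀ C : ℝ, 1 ≤ C →
      (∀ m : ℕ, 2 ≤ m → m < n → ∀ t ≤ m,
        (S m t : ℝ) ≤ m * (C * wR m * t + 3 * (m : ℝ) ^ (6 / 25 : ℝ))) →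
      (∀ m : ℕ, 2 ≤ m → m < n → (U m : ℝ) ≤ C / 2 * wR m * (m : ℝ) ^ 2) →
      ∀ m : ℕ, 3 * (sN n - 1) ≤ m → m ≤ n →
        (S m (3 * (sN n - 1)) : ℝ) ≤
          999 / 1000 * C * wR n * n * ((3 * (sN n - 1) : ℕ) : ℝ) := by
  have k1 := asym (show (1 - 1 / 10000 : ℝ) < 1 by norm_num) 2
  have k2 := asym' (show (1 - 6 / 25 - 2 / 10000 : ℝ) < 1 - 6 / 25 - 1 / 10000 by norm_num) 2
  have k3 := asymC (show (0 : ℝ) < 1 - 6 / 25 - 2 / 10000 by norm_num) 1
  have k4 := asym' (show (6 / 25 : ℝ) < 1 - 6 / 25 - 2 / 10000 by norm_num) 10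
  have k5 := asym' (show (6 / 25 - 1 / 10000 : ℝ) < 6 / 25 by norm_num) 2
  have k6 := asymC (show (0 : ℝ) < 6 / 25 - 1 / 10000 by norm_num) 1
  have k7 := asym (show ((1 - 6 / 25 + 1 / 10000) * (6 / 25) : ℝ) < 6 / 25 by norm_num) 300000
  have k8 := asym (show (6 / 25 * 5 : ℝ) < 1 + 6 / 25 by norm_num) 10000000
  have k9 := asym (show (6 / 25 * 3 : ℝ) < 1 + 6 / 25 by norm_num) ((9 * C1 + 1) * 100000)
  have k10 := asymC (show (0 : ℝ) < 6 / 25 by norm_num) 1000000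
  filter_upwards [k1, k2, k3, k4, k5, k6, k7, k8, k9, k10, eventually_ge_atTop 3] with n g1 g2 g3 g4
    g5 g6 g7 g8 g9 g10 gn
  intro C hC hA hB m hm1 hm2
  have hX : (3 : ℝ) ≤ n := by exact_mod_cast gn
  have hX0 : (0 : ℝ) < n := by linarith
  have hX1 : (1 : ℝ) < n := by linarith
  have hw : 0 < wR n := wR_pos hX1
  set X : ℝ := (n : ℝ) with hXd
  set w : ℝ := wR X with hwd
  set s : ℕ := sN n with hsd
  have hs1 : (s : ℝ) ≤ X ^ (6 / 25 : ℝ) := Nat.floor_le (Real.rpow_nonneg hX0.le _)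
  have hs2 : X ^ (6 / 25 : ℝ) < s + 1 := Nat.lt_floor_add_one _
  have hs3 : X ^ (6 / 25 - 1 / 10000 : ℝ) ≤ s := by linarith
  have hsbig : (999999 : ℝ) ≤ s := by linarith
  have hsN : 999999 ≤ s := by exact_mod_cast hsbig
  have hs0 : (0 : ℝ) < s := by linarith
  have ht0R : ((3 * (s - 1) : ℕ) : ℝ) = 3 * ((s : ℝ) - 1) := by
    push_cast [Nat.cast_sub (by omega : 1 ≤ s)]; ring
  set T : ℝ := ((3 * (s - 1) : ℕ) : ℝ) with hTd
  have hT0 : 0 < T := by rw [ht0R]; linarith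
  have hT : X ^ (6 / 25 : ℝ) ≤ T := by rw [ht0R]; linarith
  set P : ℝ := w * X * T with hPd
  have hP0 : 0 < P := by positivity
  -- the errors are measured by `P`
  have hXX : X ^ (1 + 6 / 25 : ℝ) * w ≤ P := by
    rw [Real.rpow_add hX0, Real.rpow_one]
    calc X * X ^ (6 / 25 : ℝ) * w = w * X * X ^ (6 / 25 : ℝ) := by ring
      _ ≤ w * X * T := mul_le_mul_of_nonneg_left hT (by positivity)
  have hPC : P ≤ C * P := by nlinarith
  by_cases hcase : (m : ℝ) ≤ X ^ (1 - 1 / 10000 : ℝ)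
  · have a1 : (S m (3 * (s - 1)) : ℝ) ≤ T * m := by
      have := ana_tokens S h0 h1 h2 (3 * (s - 1)) m hm1
      rw [hTd]
      exact_mod_cast this
    have a2 : T * m ≤ T * X ^ (1 - 1 / 10000 : ℝ) := mul_le_mul_of_nonneg_left hcase hT0.le
    rw [Real.rpow_one] at g1
    have a3 : T * (2 * X ^ (1 - 1 / 10000 : ℝ)) ≤ T * (X * w) := mul_le_mul_of_nonneg_left g1 hT0.le
    have a4 : T * (X * w) = P := by rw [hPd]; ring
    have a5 : 999 / 1000 * C * w * X * T = 999 / 1000 * (C * P) := by rw [hPd]; ring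
    rw [a5]
    linarith
  · push Not at hcase
    have hmX : (m : ℝ) ≤ X := by rw [hXd]; exact_mod_cast hm2
    set h : ℕ := m / s with hhd
    have hsh : s * h ≤ m := Nat.mul_div_le m s
    have hshR : (s : ℝ) * h ≤ X := by
      have : ((s * h : ℕ) : ℝ) ≤ m := by exact_mod_cast hsh
      push_cast at this
      linarith
    have hlt : m < s * (h + 1) := by
      have := Nat.lt_mul_div_succ m (show 0 < s by omega)
      exact this
    have hltR : (m : ℝ) < s * (h + 1) := by exact_mod_cast hlt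
    have hh1 : X ^ (1 - 6 / 25 - 1 / 10000 : ℝ) < (h : ℝ) + 1 := by
      have e1 : X ^ (1 - 6 / 25 - 1 / 10000 : ℝ) * X ^ (6 / 25 : ℝ) = X ^ (1 - 1 / 10000 : ℝ) := by
        rw [← Real.rpow_add hX0]; norm_num
      have e2 : X ^ (1 - 6 / 25 - 1 / 10000 : ℝ) * X ^ (6 / 25 : ℝ) <
          ((h : ℝ) + 1) * X ^ (6 / 25 : ℝ) := by
        rw [e1]
        calc X ^ (1 - 1 / 10000 : ℝ) < m := hcase
          _ < s * (h + 1) := hltR
          _ ≤ X ^ (6 / 25 : ℝ) * (h + 1) := mul_le_mul_of_nonneg_right hs1 (by positivity)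
          _ = ((h : ℝ) + 1) * X ^ (6 / 25 : ℝ) := by ring
      exact lt_of_mul_lt_mul_right e2 (Real.rpow_nonneg hX0.le _)
    have hh2 : X ^ (1 - 6 / 25 - 2 / 10000 : ℝ) ≤ h := by linarith
    have hh3 : 5 * s + 5 ≤ h := by
      have : (5 : ℝ) * s + 5 ≤ h := by linarith
      exact_mod_cast this
    have hhn : h < n := by
      have : 2 * h ≤ s * h := Nat.mul_le_mul_right _ (by omega)
      omega
    have hsn : s < n := by omega
    have hh0 : (0 : ℝ) < h := by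
      have : 0 < h := by omega
      exact_mod_cast this
    -- the weights
    have hwh : wR h ≤ 137 / 125 * w :=
      wR_scale hX1 (by norm_num) (by norm_num) (by norm_num) hh2
    have hws : wR s ≤ 3219 / 2000 * w :=
      wR_scale hX1 (by norm_num) (by norm_num) (by norm_num) hs3
    -- step 1: reduction to multiples of s
    have b1 : (S m (3 * (s - 1)) : ℝ) ≤ S (s * h) (3 * (s - 1)) + s * (U (3 * (s - 1)) + 1) := by
      have hle : 3 * (s - 1) ≤ s * h := by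
        have : s * 5 ≤ s * h := Nat.mul_le_mul_left _ (by omega)
        omega
      have c1 := anaR_h4 S U h4 (s * h) (3 * (s - 1)) hle (m % s)
      rw [hhd, Nat.div_add_mod] at c1
      have c2 : (m % s) * (U (3 * (s - 1)) + 1) ≤ s * (U (3 * (s - 1)) + 1) :=
        Nat.mul_le_mul_right _ (Nat.mod_lt _ (by omega)).le
      have c3 := c1.trans (Nat.add_le_add_left c2 _)
      rw [hhd]
      exact_mod_cast c3
    have b2 : (s : ℝ) * (U (3 * (s - 1)) + 1) ≤ P / 100000 := by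
      have c1 := hU (3 * (s - 1)) (by omega)
      have c2 : ((3 * (s - 1) : ℕ) : ℝ) ^ 2 ≤ 9 * (s : ℝ) ^ 2 := by
        rw [← hTd, ht0R]; nlinarith
      have c3 : (U (3 * (s - 1)) : ℝ) ≤ C1 * (9 * (s : ℝ) ^ 2) :=
        c1.trans (mul_le_mul_of_nonneg_left c2 hC1)
      have c4 : (s : ℝ) * (U (3 * (s - 1)) + 1) ≤ (9 * C1 + 1) * (s : ℝ) ^ 3 := by
        have d1 : (s : ℝ) * (U (3 * (s - 1)) + 1) ≤ s * (C1 * (9 * (s : ℝ) ^ 2) + 1) :=
          mul_le_mul_of_nonneg_left (by linarith) hs0.le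
        have d2 : (s : ℝ) ≤ (s : ℝ) ^ 3 := by nlinarith
        nlinarith
      have c5 : (s : ℝ) ^ 3 ≤ X ^ (6 / 25 * 3 : ℝ) := by
        rw [Real.rpow_mul hX0.le]
        have : (X ^ (6 / 25 : ℝ)) ^ (3 : ℝ) = (X ^ (6 / 25 : ℝ)) ^ (3 : ℕ) := by
          rw [← Real.rpow_natCast]; norm_num
        rw [this]
        exact pow_le_pow_left₀ hs0.le hs1 3
      have c6 : (9 * C1 + 1) * (s : ℝ) ^ 3 ≤ (9 * C1 + 1) * X ^ (6 / 25 * 3 : ℝ) :=
        mul_le_mul_of_nonneg_left c5 (by positivity)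
      nlinarith
    -- step 2: the recursion
    have b3 : (S (s * h) (3 * (s - 1)) : ℝ) ≤ (∑ b ∈ range s, (S h (s - 1 + 2 * b) : ℝ)) +
        h * U s + 100 * (s : ℝ) ^ 5 := by exact_mod_cast h5 s h (by omega) hh3
    have b4 : ∑ b ∈ range s, (S h (s - 1 + 2 * b) : ℝ) ≤
        ∑ b ∈ range s, ((h : ℝ) * (C * wR h) * ((s - 1 + 2 * b : ℕ) : ℝ) +
          h * (3 * (h : ℝ) ^ (6 / 25 : ℝ))) := by
      refine Finset.sum_le_sum (fun b hb => ?_)
      have hb' := Finset.mem_range.1 hb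
      have := hA h (by omega) hhn (s - 1 + 2 * b) (by omega)
      linarith
    have b5 : ∑ b ∈ range s, ((h : ℝ) * (C * wR h) * ((s - 1 + 2 * b : ℕ) : ℝ) +
          h * (3 * (h : ℝ) ^ (6 / 25 : ℝ))) =
        (h : ℝ) * (C * wR h) * (2 * s * ((s : ℝ) - 1)) + s * (h * (3 * (h : ℝ) ^ (6 / 25 : ℝ))) := by
      rw [Finset.sum_add_distrib, ← Finset.mul_sum, anaR_sum s (by omega), Finset.sum_const,
        Finset.card_range, nsmul_eq_mul]
    have b6 : (h : ℝ) * (C * wR h) * (2 * s * ((s : ℝ) - 1)) ≤ 137 / 125 * (2 / 3) * (C * P) := by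
      have c1 : (s : ℝ) * h * (C * wR h) ≤ X * (C * (137 / 125 * w)) := by
        have d0 : 0 ≤ wR h := (wR_pos (by
          have : 2 ≤ h := by omega
          have : (2 : ℝ) ≤ h := by exact_mod_cast this
          linarith)).le
        have d1 : C * wR h ≤ C * (137 / 125 * w) := mul_le_mul_of_nonneg_left hwh (by linarith)
        exact mul_le_mul hshR d1 (by positivity) (by linarith)
      have c2 : 0 ≤ 2 * ((s : ℝ) - 1) := by linarith
      have c3 := mul_le_mul_of_nonneg_right c1 c2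
      have c4 : X * (C * (137 / 125 * w)) * (2 * ((s : ℝ) - 1)) = 137 / 125 * (2 / 3) * (C * P) := by
        rw [hPd, ht0R]; ring
      linarith
    have b7 : (s : ℝ) * (h * (3 * (h : ℝ) ^ (6 / 25 : ℝ))) ≤ P / 100000 := by
      have c1 : (h : ℝ) ≤ X ^ (1 - 6 / 25 + 1 / 10000 : ℝ) := by
        have e1 : X ^ (1 - 6 / 25 + 1 / 10000 : ℝ) * X ^ (6 / 25 - 1 / 10000 : ℝ) = X := by
          rw [← Real.rpow_add hX0]; norm_num
        have e2 : (h : ℝ) * X ^ (6 / 25 - 1 / 10000 : ℝ) ≤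
            X ^ (1 - 6 / 25 + 1 / 10000 : ℝ) * X ^ (6 / 25 - 1 / 10000 : ℝ) := by
          rw [e1]
          calc (h : ℝ) * X ^ (6 / 25 - 1 / 10000 : ℝ) ≤ h * s :=
                mul_le_mul_of_nonneg_left hs3 hh0.le
            _ = s * h := by ring
            _ ≤ X := hshR
        exact le_of_mul_le_mul_right e2 (Real.rpow_pos_of_pos hX0 _)
      have c2 : (h : ℝ) ^ (6 / 25 : ℝ) ≤ X ^ ((1 - 6 / 25 + 1 / 10000) * (6 / 25) : ℝ) := by
        rw [Real.rpow_mul hX0.le]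
        exact Real.rpow_le_rpow hh0.le c1 (by norm_num)
      have c3 : 3 * (h : ℝ) ^ (6 / 25 : ℝ) ≤ w * T / 100000 := by
        have : w * X ^ (6 / 25 : ℝ) ≤ w * T := mul_le_mul_of_nonneg_left hT hw.le
        linarith
      have c4 : (s : ℝ) * h * (3 * (h : ℝ) ^ (6 / 25 : ℝ)) ≤ X * (w * T / 100000) :=
        mul_le_mul hshR c3 (by positivity) (by linarith)
      have c5 : X * (w * T / 100000) = P / 100000 := by rw [hPd]; ring
      linarith
    have b8 : (h : ℝ) * U s ≤ 3219 / 2000 * (1 / 6) * (1 + 1 / 100000) * (C * P) := by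
      have c1 := hB s (by omega) hsn
      have c2 : (U s : ℝ) ≤ C / 2 * (3219 / 2000 * w) * (s : ℝ) ^ 2 :=
        c1.trans (mul_le_mul_of_nonneg_right
          (mul_le_mul_of_nonneg_left hws (by linarith)) (by positivity))
      have c3 : (h : ℝ) * U s ≤ h * (C / 2 * (3219 / 2000 * w) * (s : ℝ) ^ 2) :=
        mul_le_mul_of_nonneg_left c2 hh0.le
      have c4 : (s : ℝ) * h * (C / 2 * (3219 / 2000 * w) * s) ≤
          X * (C / 2 * (3219 / 2000 * w) * s) :=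
        mul_le_mul_of_nonneg_right hshR (by positivity)
      have c5 : (s : ℝ) ≤ (1 + 1 / 100000) * (T / 3) := by rw [ht0R]; linarith
      have c6 : X * (C / 2 * (3219 / 2000 * w) * s) ≤
          X * (C / 2 * (3219 / 2000 * w) * ((1 + 1 / 100000) * (T / 3))) :=
        mul_le_mul_of_nonneg_left (mul_le_mul_of_nonneg_left c5 (by positivity)) hX0.le
      have c7 : X * (C / 2 * (3219 / 2000 * w) * ((1 + 1 / 100000) * (T / 3))) =
          3219 / 2000 * (1 / 6) * (1 + 1 / 100000) * (C * P) := by rw [hPd]; ring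
      linarith
    have b9 : 100 * (s : ℝ) ^ 5 ≤ P / 100000 := by
      have c5 : (s : ℝ) ^ 5 ≤ X ^ (6 / 25 * 5 : ℝ) := by
        rw [Real.rpow_mul hX0.le]
        have : (X ^ (6 / 25 : ℝ)) ^ (5 : ℝ) = (X ^ (6 / 25 : ℝ)) ^ (5 : ℕ) := by
          rw [← Real.rpow_natCast]; norm_num
        rw [this]
        exact pow_le_pow_left₀ hs0.le hs1 5
      linarith
    have a5 : 999 / 1000 * C * w * X * T = 999 / 1000 * (C * P) := by rw [hPd]; ring
    rw [a5]
    linarith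

/-- from batches to all `t` -/
theorem anaR_A (S : ℕ → ℕ → ℕ)
    (h0 : ∀ n, S n 0 = 0) (h1 : ∀ n, S n 1 ≤ n)
    (h2 : ∀ n a b, a + b ≤ n → S n (a + b) ≤ S n a + S (n - a) b)
    (n : ℕ) (t₀ : ℕ) (ht₀ : 0 < t₀) (G : ℝ) (hG : 0 ≤ G)
    (hb : ∀ m : ℕ, t₀ ≤ m → m ≤ n → (S m t₀ : ℝ) ≤ G * t₀) (t : ℕ) (ht : t ≤ n) :
    (S n t : ℝ) ≤ G * t + t₀ * n := by
  have hmul : ∀ q : ℕ, q * t₀ ≤ n → (S n (q * t₀) : ℝ) ≤ G * (q * t₀ : ℕ) := by
    intro q
    induction q with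
    | zero =>
      intro _
      rw [zero_mul, h0]
      simp
    | succ q ih =>
      intro hn
      have e1 : (q + 1) * t₀ = q * t₀ + t₀ := by ring
      rw [e1] at hn ⊢
      have a1 : (S n (q * t₀ + t₀) : ℝ) ≤ S n (q * t₀) + S (n - q * t₀) t₀ := by
        exact_mod_cast h2 n (q * t₀) t₀ hn
      have a2 := ih (by omega)
      have a3 := hb (n - q * t₀) (by omega) (by omega)
      push_cast at a1 a2 ⊢
      linarith
  have hdm : t / t₀ * t₀ + t % t₀ = t := by rw [mul_comm]; exact Nat.div_add_mod t t₀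
  have hle1 : t / t₀ * t₀ ≤ n := by omega
  have a1 := hmul (t / t₀) hle1
  have a2 : (S n t : ℝ) ≤ S n (t / t₀ * t₀) + S (n - t / t₀ * t₀) (t % t₀) := by
    have := h2 n (t / t₀ * t₀) (t % t₀) (by omega)
    rw [hdm] at this
    exact_mod_cast this
  have a3 : S (n - t / t₀ * t₀) (t % t₀) ≤ t₀ * n := by
    refine (ana_tokens S h0 h1 h2 (t % t₀) (n - t / t₀ * t₀) (by omega)).trans ?_
    exact Nat.mul_le_mul (Nat.mod_lt _ ht₀).le (Nat.sub_le _ _)
  have a3' : (S (n - t / t₀ * t₀) (t % t₀) : ℝ) ≤ t₀ * n := by exact_mod_cast a3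
  have a4 : ((t / t₀ * t₀ : ℕ) : ℝ) ≤ t := by exact_mod_cast Nat.div_mul_le_self t t₀
  have a5 : G * ((t / t₀ * t₀ : ℕ) : ℝ) ≤ G * t := mul_le_mul_of_nonneg_left a4 hG
  linarith

/-- the bound for `U n` -/
theorem anaR_B (S : ℕ → ℕ → ℕ) (U : ℕ → ℕ)
    (h3 : ∀ n t, t ≤ n → U n ≤ U t + U (n - t) + S n t) :
    ∀ᶠ n : ℕ in atTop, ∀ C : ℝ, 1 ≤ C →
      (∀ m : ℕ, 2 ≤ m → m < n → (U m : ℝ) ≤ C / 2 * wR m * (m : ℝ) ^ 2) →
      (∀ t : ℕ, t ≤ n →
        (S n t : ℝ) ≤ n * (999 / 1000 * C * wR n * t + 3 * (n : ℝ) ^ (6 / 25 : ℝ))) →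
      (U n : ℝ) ≤ C / 2 * wR n * (n : ℝ) ^ 2 := by
  have k1 := asym' (show (1 / (1 + 1 / 100000000) ^ 3 : ℝ) < 1 by norm_num) 4000
  have k2 := asym (show (1 + 6 / 25 : ℝ) < 2 by norm_num) 300000000
  filter_upwards [k1, k2, eventually_ge_atTop 1000000000] with n g1 g2 gn
  intro C hC hB hA
  have hX : (1000000000 : ℝ) ≤ n := by exact_mod_cast gn
  have hX0 : (0 : ℝ) < n := by linarith
  have hX1 : (1 : ℝ) < n := by linarith
  have hw : 0 < wR n := wR_pos hX1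
  rw [Real.rpow_one] at g1
  have ge1 : (1 : ℝ) ≤ (n : ℝ) ^ (1 / (1 + 1 / 100000000) ^ 3 : ℝ) :=
    Real.one_le_rpow (by linarith) (by positivity)
  set t : ℕ := ⌊(n : ℝ) / 2000⌋₊ with htd
  have ht1 : (t : ℝ) ≤ n / 2000 := Nat.floor_le (by positivity)
  have ht2 : (n : ℝ) / 2000 < t + 1 := Nat.lt_floor_add_one _
  have ht3 : (2 : ℝ) ≤ t := by linarith
  have ht3N : 2 ≤ t := by exact_mod_cast ht3
  have htn : (2000 : ℝ) * t ≤ n := by linarith
  have htnN : 2000 * t ≤ n := by exact_mod_cast htn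
  have hsub : ((n - t : ℕ) : ℝ) = n - t := by rw [Nat.cast_sub (by omega)]
  have hwt : wR t ≤ (1 + 1 / 100000000) * wR n := by
    refine wR_scale hX1 (a := 1 / (1 + 1 / 100000000) ^ 3) (by positivity) (by norm_num)
      (by norm_num) ?_
    linarith
  have hwnt : wR ((n - t : ℕ) : ℝ) ≤ (1 + 1 / 100000000) * wR n := by
    refine (wR_anti (by linarith) ?_).trans hwt
    rw [hsub]
    linarith
  have b1 : (U n : ℝ) ≤ U t + U (n - t) + S n t := by exact_mod_cast h3 n t (by omega)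
  have b2 := hB t ht3N (by omega)
  have b3 := hB (n - t) (by omega) (by omega)
  have b4 := hA t (by omega)
  set X : ℝ := (n : ℝ) with hXd
  set w : ℝ := wR X with hwd
  set P : ℝ := C * w * X ^ 2 with hPd
  have hP0 : 0 < P := by positivity
  have c2 : (U t : ℝ) ≤ (1 + 1 / 100000000) / 2 * (1 / 2000) ^ 2 * P := by
    have d1 : C / 2 * wR t * (t : ℝ) ^ 2 ≤ C / 2 * ((1 + 1 / 100000000) * w) * (X / 2000) ^ 2 := by
      have e0 : 0 ≤ wR t := (wR_pos (by linarith)).le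
      apply mul_le_mul
      · exact mul_le_mul_of_nonneg_left hwt (by positivity)
      · exact pow_le_pow_left₀ (by linarith) ht1 2
      · positivity
      · positivity
    have d2 : C / 2 * ((1 + 1 / 100000000) * w) * (X / 2000) ^ 2 =
        (1 + 1 / 100000000) / 2 * (1 / 2000) ^ 2 * P := by rw [hPd]; ring
    linarith
  have c3 : (U (n - t) : ℝ) ≤
      (1 + 1 / 100000000) / 2 * (1 - 1 / 2000 + 1 / 100000000) ^ 2 * P := by
    have d0 : ((n - t : ℕ) : ℝ) ≤ (1 - 1 / 2000 + 1 / 100000000) * X := by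
      rw [hsub]
      linarith
    have d1 : C / 2 * wR ((n - t : ℕ) : ℝ) * ((n - t : ℕ) : ℝ) ^ 2 ≤
        C / 2 * ((1 + 1 / 100000000) * w) * ((1 - 1 / 2000 + 1 / 100000000) * X) ^ 2 := by
      have e0 : 0 ≤ wR ((n - t : ℕ) : ℝ) := (wR_pos (by rw [hsub]; linarith)).le
      apply mul_le_mul
      · exact mul_le_mul_of_nonneg_left hwnt (by positivity)
      · exact pow_le_pow_left₀ (by positivity) d0 2
      · positivity
      · positivity
    have d2 : C / 2 * ((1 + 1 / 100000000) * w) * ((1 - 1 / 2000 + 1 / 100000000) * X) ^ 2 =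
        (1 + 1 / 100000000) / 2 * (1 - 1 / 2000 + 1 / 100000000) ^ 2 * P := by rw [hPd]; ring
    linarith
  have c4 : (S n t : ℝ) ≤ 999 / 1000 * (1 / 2000) * P + P / 100000000 := by
    have d1 : X * (999 / 1000 * C * w * t) ≤ X * (999 / 1000 * C * w * (X / 2000)) :=
      mul_le_mul_of_nonneg_left (mul_le_mul_of_nonneg_left ht1 (by positivity)) hX0.le
    have d2 : X * (999 / 1000 * C * w * (X / 2000)) = 999 / 1000 * (1 / 2000) * P := by
      rw [hPd]; ring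
    have d3 : 3 * (X * X ^ (6 / 25 : ℝ)) ≤ P / 100000000 := by
      have e1 : X ^ (1 + 6 / 25 : ℝ) = X * X ^ (6 / 25 : ℝ) := by
        rw [Real.rpow_add hX0, Real.rpow_one]
      rw [e1] at g2
      have e2 : X ^ (2 : ℝ) * w ≤ P := by
        rw [hPd]
        have e3 : X ^ (2 : ℝ) = X ^ 2 := by norm_num
        rw [e3]
        have e4 : 0 < w * X ^ 2 := by positivity
        nlinarith
      linarith
    linarith
  have c5 : C / 2 * w * X ^ 2 = P / 2 := by rw [hPd]; ring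
  rw [c5]
  have c6 : (1 + 1 / 100000000) / 2 * (1 / 2000) ^ 2 * P +
      (1 + 1 / 100000000) / 2 * (1 - 1 / 2000 + 1 / 100000000) ^ 2 * P +
      (999 / 1000 * (1 / 2000) * P + P / 100000000) ≤ P / 2 := by
    have : ((1 + 1 / 100000000) / 2 * (1 / 2000) ^ 2 +
      (1 + 1 / 100000000) / 2 * (1 - 1 / 2000 + 1 / 100000000) ^ 2 +
      (999 / 1000 * (1 / 2000) + 1 / 100000000) : ℝ) ≤ 1 / 2 := by norm_num
    nlinarith
  linarith

theorem anaR (S : ℕ → ℕ → ℕ) (U : ℕ → ℕ)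
    (h0 : ∀ n, S n 0 = 0) (h1 : ∀ n, S n 1 ≤ n)
    (h2 : ∀ n a b, a + b ≤ n → S n (a + b) ≤ S n a + S (n - a) b)
    (h3 : ∀ n t, t ≤ n → U n ≤ U t + U (n - t) + S n t)
    (h4 : ∀ n t, t ≤ n → S (n + 1) t ≤ S n t + U t + 1)
    (h5 : ∀ s h, 2 ≤ s → 5 * s + 5 ≤ h →
      S (s * h) (3 * (s - 1)) ≤ (∑ b ∈ range s, S h (s - 1 + 2 * b)) + h * U s + 100 * s ^ 5) :
    ∃ C : ℝ, 0 < C ∧ ∀ n : ℕ, 2 ≤ n →
      (U n : ℝ) ≤ C * (n : ℝ) ^ 2 / (Real.log n) ^ (1 / 3 : ℝ) := by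
  -- trivial bound
  obtain ⟨C1, hC1, hU⟩ : ∃ C1 : ℝ, 0 ≤ C1 ∧ ∀ n : ℕ, 1 ≤ n → (U n : ℝ) ≤ C1 * (n : ℝ) ^ 2 := by
    refine ⟨U 0 + U 1 + 1, by positivity, ?_⟩
    have key : ∀ n : ℕ, U n ≤ U 0 + n * U 1 + n * n := by
      intro n
      induction n with
      | zero => simp
      | succ n ih =>
        have a1 := h3 (n + 1) 1 (by omega)
        have a2 := h1 (n + 1)
        simp only [Nat.add_sub_cancel] at a1
        nlinarith
    intro n hn
    have a1 : (U n : ℝ) ≤ U 0 + n * U 1 + n * n := by exact_mod_cast key n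
    have a2 : (1 : ℝ) ≤ n := by exact_mod_cast hn
    have a3 : (n : ℝ) ≤ (n : ℝ) ^ 2 := by nlinarith
    have a4 : (1 : ℝ) ≤ (n : ℝ) ^ 2 := by nlinarith
    have a5 : (0 : ℝ) ≤ U 0 := by positivity
    have a6 : (0 : ℝ) ≤ U 1 := by positivity
    nlinarith
  have e1 := anaR_batch S U h0 h1 h2 h4 h5 C1 hC1 hU
  have e2 := anaR_B S U h3
  have e3 := asymC (show (0 : ℝ) < 6 / 25 by norm_num) 3
  obtain ⟨N, hN⟩ := ((e1.and (e2.and (e3.and (eventually_ge_atTop 3)))).exists_forall_of_atTop)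
  -- the constant
  set M : ℕ := max N 3 with hMd
  have hM3 : (3 : ℝ) ≤ M := by exact_mod_cast le_max_right N 3
  have hwM : 0 < wR M := wR_pos (by linarith)
  set C : ℝ := max 1 (max (1 / wR M) (2 * C1 / wR M)) with hCd
  have hC : 1 ≤ C := le_max_left _ _
  have hCM : 1 ≤ C * wR M := by
    have : 1 / wR M ≤ C := (le_max_left _ _).trans (le_max_right _ _)
    rwa [div_le_iff₀ hwM] at this
  have hCM1 : 2 * C1 ≤ C * wR M := by
    have : 2 * C1 / wR M ≤ C := (le_max_right _ _).trans (le_max_right _ _)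
    rwa [div_le_iff₀ hwM] at this
  have main : ∀ n : ℕ, 2 ≤ n →
      (∀ t ≤ n, (S n t : ℝ) ≤ n * (C * wR n * t + 3 * (n : ℝ) ^ (6 / 25 : ℝ))) ∧
      (U n : ℝ) ≤ C / 2 * wR n * (n : ℝ) ^ 2 := by
    intro n
    induction n using Nat.strong_induction_on with
    | _ n ih =>
      intro hn
      have hn' : (2 : ℝ) ≤ n := by exact_mod_cast hn
      have hw : 0 < wR n := wR_pos (by linarith)
      have hpn : 0 ≤ (n : ℝ) ^ (6 / 25 : ℝ) := Real.rpow_nonneg (by linarith) _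
      by_cases hsm : n ≤ M
      · have hwn : wR M ≤ wR n := wR_anti (by linarith) (by exact_mod_cast hsm)
        have hCn : C * wR M ≤ C * wR n := mul_le_mul_of_nonneg_left hwn (by linarith)
        constructor
        · intro t ht
          have a1 : (S n t : ℝ) ≤ t * n := by exact_mod_cast ana_tokens S h0 h1 h2 t n ht
          have a2 : (t : ℝ) * 1 ≤ t * (C * wR n) :=
            mul_le_mul_of_nonneg_left (by linarith) (by positivity)
          have a3 : (n : ℝ) * (t * 1) ≤ n * (t * (C * wR n)) :=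
            mul_le_mul_of_nonneg_left a2 (by positivity)
          have a4 : 0 ≤ (n : ℝ) * (3 * (n : ℝ) ^ (6 / 25 : ℝ)) := by positivity
          linarith
        · have a1 := hU n (by omega)
          have a2 : C1 * (n : ℝ) ^ 2 ≤ (C / 2 * wR n) * (n : ℝ) ^ 2 :=
            mul_le_mul_of_nonneg_right (by linarith) (by positivity)
          linarith
      · push Not at hsm
        have hnN : N ≤ n := (le_max_left N 3).trans hsm.le
        obtain ⟨f1, f2, f3, f4⟩ := hN n hnN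
        have gA : ∀ m : ℕ, 2 ≤ m → m < n → ∀ t ≤ m,
            (S m t : ℝ) ≤ m * (C * wR m * t + 3 * (m : ℝ) ^ (6 / 25 : ℝ)) :=
          fun m hm1 hm2 => (ih m hm2 hm1).1
        have gB : ∀ m : ℕ, 2 ≤ m → m < n → (U m : ℝ) ≤ C / 2 * wR m * (m : ℝ) ^ 2 :=
          fun m hm1 hm2 => (ih m hm2 hm1).2
        have hb := f1 C hC gA gB
        have hs1 : (sN n : ℝ) ≤ (n : ℝ) ^ (6 / 25 : ℝ) :=
          Nat.floor_le (Real.rpow_nonneg (by linarith) _)
        have hs2 : (n : ℝ) ^ (6 / 25 : ℝ) < sN n + 1 := Nat.lt_floor_add_one _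
        have hs3 : 2 ≤ sN n := by
          have : (2 : ℝ) < sN n := by linarith
          have h' : 2 < sN n := by exact_mod_cast this
          omega
        have hA' : ∀ t : ℕ, t ≤ n →
            (S n t : ℝ) ≤ n * (999 / 1000 * C * wR n * t + 3 * (n : ℝ) ^ (6 / 25 : ℝ)) := by
          intro t ht
          have a1 := anaR_A S h0 h1 h2 n (3 * (sN n - 1)) (by omega)
            (999 / 1000 * C * wR n * n) (by positivity) hb t ht
          have a2 : ((3 * (sN n - 1) : ℕ) : ℝ) ≤ 3 * (n : ℝ) ^ (6 / 25 : ℝ) := by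
            push_cast [Nat.cast_sub (by omega : 1 ≤ sN n)]
            linarith
          have a3 : ((3 * (sN n - 1) : ℕ) : ℝ) * n ≤ 3 * (n : ℝ) ^ (6 / 25 : ℝ) * n :=
            mul_le_mul_of_nonneg_right a2 (by positivity)
          linarith
        refine ⟨?_, f2 C hC gB hA'⟩
        intro t ht
        have a1 := hA' t ht
        have a2 : 0 ≤ (n : ℝ) * (1 / 1000 * C * wR n * t) := by positivity
        linarith
  refine ⟨C / 2, by linarith, fun n hn => ?_⟩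
  have a1 := (main n hn).2
  have hn' : (2 : ℝ) ≤ n := by exact_mod_cast hn
  have hl : 0 < Real.log n := Real.log_pos (by linarith)
  have a2 : wR n = (Real.log n ^ (1 / 3 : ℝ))⁻¹ := by rw [wR, Real.rpow_neg hl.le]
  rw [a2] at a1
  rw [div_eq_mul_inv]
  linarith

end LZS
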