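import Pool.Agent.LZS.Lay

/-!
# LZS.BCom: the network of a stage commutes with the earlier row permutations

PROOF. Let g ∈ GG (k-1), g v = (σ v.1, v.2), σ fixes b ≥ k. X = Xf k = {(b, 3s+k) : b < k} is mapped into itself by g (if
σ b < k for b < k: σ permutes {b < k}). `exists_restrict`: x ∈ sym X with x = g on X, y = x⁻¹ g fixes X pointwise; y also fixes every
v with v.1 ≥ k (g v = v, and v ∉ X so x v = v). So y ∈ sym (univ \ (X ∪ Z ∪ E)) (Z = Zf k, E = Ef k lie in rows ≥ k), P y commutes with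
B = av X * Q * av X ∈ alg (X ∪ Z ∪ E). P g = P x * P y, P x * av X = av X = av X * P x (P_mul_avg, avg_mul_P):
P g * B = P x * P y * B = P x * B * P y = B * P y = B * P x * P y = B * P g. Then `AG_comm_of`.
-/

open Finset Equiv

noncomputable section

namespace LZS

theorem B_comm {s h k : ℕ} (hk : 1 ≤ k) {Q : GA (Fin s × Fin h)}
    (hQ : Q ∈ alg (Xf s h k ∪ Zf s h k ∪ Ef s h k)) :
    AG s h (k - 1) * (av (Xf s h k) * Q * av (Xf s h k)) =
      (av (Xf s h k) * Q * av (Xf s h k)) * AG s h (k - 1) := by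
  apply AG_comm_of
  intro g hg
  obtain ⟨σ, hσ, hgv⟩ := mem_GG.1 hg
  have hXg : ∀ v, v ∈ Xf s h k → g v ∈ Xf s h k := by
    intro v hv
    rw [Xf, Finset.mem_filter] at hv ⊢
    obtain ⟨-, h1, h2⟩ := hv
    rw [hgv]
    refine ⟨Finset.mem_univ _, ?_, h2⟩
    by_contra hc
    have h3 : σ (σ v.1) = σ v.1 := hσ _ (by simp only at hc; omega)
    have h4 : σ v.1 = v.1 := σ.injective h3
    simp only [h4] at hc
    exact hc h1
  obtain ⟨x, hx, hx1, hx2⟩ := exists_restrict hXg
  have hfix : ∀ v : Fin s × Fin h, k ≤ v.1.val → (x⁻¹ * g) v = v := by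
    intro v hv
    have h1 : g v = v := by
      rw [hgv, hσ v.1 (by omega)]
    have h2 : v ∉ Xf s h k := by
      rw [Xf, Finset.mem_filter]
      rintro ⟨-, h3, -⟩
      omega
    rw [Perm.mul_apply, h1]
    exact (sym (Xf s h k)).inv_mem hx v h2
  have hy : x⁻¹ * g ∈ sym (univ \ (Xf s h k ∪ Zf s h k ∪ Ef s h k)) := by
    intro v hv
    have hv' : v ∈ Xf s h k ∪ Zf s h k ∪ Ef s h k := by
      by_contra hc
      exact hv (Finset.mem_sdiff.2 ⟨Finset.mem_univ _, hc⟩)
    rw [Finset.mem_union, Finset.mem_union] at hv'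
    rcases hv' with (h1 | h1) | h1
    · exact hx2 v h1
    · rw [Zf, Finset.mem_filter] at h1
      exact hfix v (by omega)
    · rw [Ef, Finset.mem_filter] at h1
      exact hfix v (by omega)
  have hX : Xf s h k ⊆ Xf s h k ∪ Zf s h k ∪ Ef s h k := by
    rw [Finset.union_assoc]; exact Finset.subset_union_left
  have hB : av (Xf s h k) * Q * av (Xf s h k) ∈ alg (Xf s h k ∪ Zf s h k ∪ Ef s h k) :=
    Subalgebra.mul_mem _ (Subalgebra.mul_mem _ (alg_mono hX (av_mem_alg _)) hQ)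
      (alg_mono hX (av_mem_alg _))
  have hcomm : P (x⁻¹ * g) * (av (Xf s h k) * Q * av (Xf s h k)) =
      (av (Xf s h k) * Q * av (Xf s h k)) * P (x⁻¹ * g) :=
    alg_comm Finset.sdiff_disjoint (P_mem_alg hy) hB
  have hxB : P x * (av (Xf s h k) * Q * av (Xf s h k)) =
      av (Xf s h k) * Q * av (Xf s h k) := by
    rw [← mul_assoc, ← mul_assoc, av, P_mul_avg hx]
  have hBx : av (Xf s h k) * Q * av (Xf s h k) * P x =
      av (Xf s h k) * Q * av (Xf s h k) := by
    rw [mul_assoc, av, avg_mul_P hx]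
  have hgxy : P g = P x * P (x⁻¹ * g) := by
    rw [← P_mul]; congr 1; group
  rw [hgxy, mul_assoc, hcomm, ← mul_assoc, hxB, ← mul_assoc, hBx]

end LZS
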