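import Pool.Agent.LZS.Extr

/-!
# LZS.Rec: recursive inequalities for U and S

PROOFS (group algebra; `av_mul_av`, `mul_av_av`, `av_comm`, `alg_comm`).
* `SB_one`: by `extr1` with H = {x}: av L = av (L.erase u) * lz (x,u,1/|L|) * (av {x} * av (L \ {x})). Induct on |L|:
  av (L.erase u) = Q' * (av {x} * av ((L.erase u) \ {x})); av ((L.erase u) \ {x}) commutes with lz (x,u,_) (disjoint) and is
  absorbed by av (L \ {x}); av {x} = 1. So Q = Q' * lz.  |L| = 1: Q = 1.
* `SB_add`: Y, T = Ta ∪ Tb. Qa for (Y, Ta), Qb for (Y \ Ta, Tb). Q = Qa * Qb. Q * (av T * av (Y\T)) :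
  av T = av Ta * av Tb * av T, Qb commutes with av Ta, so = Qa * av Ta * [Qb * (av Tb * av ((Y\Ta)\Tb))] * av T
  = Qa * (av Ta * av (Y \ Ta)) * av T = av Y * av T = av Y.
* `UB_rec`: av Y = Q * (av T * av (Y \ T)).
* `SB_succ`: `extr1` with H = T (t ≥ 1; t = 0 trivial: av ∅ = 1, Q = 1), av (L.erase u) = Q * (av H * av ((L.erase u)\H)):
  av L = (Q * av H * lz (x,u,t/(n+1))) * (av H * av (L \ H)).
* `UB_sq`: UB 0 0, UB (n+1) from UB_rec with t = 1, SB_one: UB (n+1) (n^2 + n) etc.
-/

open Finset Equiv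

noncomputable section

namespace LZS

theorem SB_mono {n t c c' : ℕ} (h : SB n t c) (hc : c ≤ c') : SB n t c' := by
  intro V _ _ Y T hY hT ht
  obtain ⟨Q, h1, h2⟩ := h V Y T hY hT ht
  exact ⟨Q, h1.mono subset_rfl hc, h2⟩

theorem UB_mono {n c c' : ℕ} (h : UB n c) (hc : c ≤ c') : UB n c' := by
  intro V _ _ Y hY
  exact (h V Y hY).mono subset_rfl hc

theorem SB_zero (n : ℕ) : SB n 0 0 := by
  intro V _ _ Y T hY hT ht
  rw [Finset.card_eq_zero] at ht
  subst ht
  refine ⟨1, Net.one Y, ?_⟩
  rw [av_empty, one_mul, one_mul, Finset.sdiff_empty]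

theorem rec_av_singleton {V : Type} [Fintype V] [DecidableEq V] (x : V) :
    av ({x} : Finset V) = 1 := by
  have h : ∀ g ∈ sym ({x} : Finset V), g = 1 := by
    intro g hg
    have h1 : ∀ v, v ≠ x → g v = v := fun v hv => hg v (by simpa using hv)
    ext v
    by_cases hv : v = x
    · subst hv
      by_contra hc
      have h2 : g (g v) = g v := h1 _ hc
      exact hc (g.injective h2)
    · exact h1 v hv
  have h2 : avg (sym ({x} : Finset V)) * 1 = 1 := by
    apply avg_mul_eq
    intro g hg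
    rw [h g hg, P_one, one_mul]
  rw [mul_one] at h2
  exact h2

theorem SB_one (n : ℕ) : SB n 1 n := by
  induction n with
  | zero =>
    intro V _ _ Y T hY hT ht
    rw [Finset.card_eq_zero] at hY
    subst hY
    rw [Finset.subset_empty] at hT
    subst hT
    simp at ht
  | succ n ih =>
    intro V _ _ Y T hY hT ht
    rw [Finset.card_eq_one] at ht
    obtain ⟨x, rfl⟩ := ht
    have hxY : x ∈ Y := Finset.singleton_subset_iff.1 hT
    by_cases hn : n = 0
    · subst hn
      have h1 : Y = {x} := by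
        obtain ⟨y, hy⟩ := Finset.card_eq_one.1 hY
        rw [hy] at hxY ⊢
        rw [Finset.mem_singleton.1 hxY]
      refine ⟨1, (Net.one Y).mono subset_rfl (Nat.zero_le _), ?_⟩
      rw [h1, Finset.sdiff_self, av_empty, mul_one, one_mul]
    · obtain ⟨u, hu, hux⟩ := Finset.exists_mem_ne (s := Y) (by omega) x
      have hxe : x ∈ Y.erase u := Finset.mem_erase.2 ⟨hux.symm, hxY⟩
      obtain ⟨Q, hQ1, hQ2⟩ := ih V (Y.erase u) {x} (by rw [Finset.card_erase_of_mem hu]; omega)
        (Finset.singleton_subset_iff.2 hxe) (Finset.card_singleton x)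
      have hex := extr1 (L := Y) (H := {x}) (x := x) (u := u) hT (Finset.mem_singleton_self x) hu
        (by simpa using hux)
      have hp1 : (({x} : Finset V).card : ℝ) / Y.card ≤ 1 := by
        rw [Finset.card_singleton, hY]
        rw [div_le_one (by positivity)]
        push_cast
        have : (0 : ℝ) ≤ n := Nat.cast_nonneg n
        linarith
      refine ⟨Q * lz (x, u, (({x} : Finset V).card : ℝ) / Y.card),
        (hQ1.mono (Finset.erase_subset u Y) le_rfl).mul
          (Net.single hxY hu hux.symm (by positivity) hp1), ?_⟩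
      rw [hex]
      conv_rhs => rw [← hQ2]
      rw [rec_av_singleton, one_mul, one_mul]
      have hsub : (Y.erase u) \ {x} ⊆ Y \ {x} :=
        Finset.sdiff_subset_sdiff (Finset.erase_subset u Y) subset_rfl
      have hc : av ((Y.erase u) \ {x}) * lz (x, u, (({x} : Finset V).card : ℝ) / Y.card) =
          lz (x, u, (({x} : Finset V).card : ℝ) / Y.card) * av ((Y.erase u) \ {x}) := by
        refine alg_comm (Y := (Y.erase u) \ {x}) (Y' := {x, u}) ?_ (av_mem_alg _)
          (lz_mem_alg (by simp) (by simp))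
        rw [Finset.disjoint_left]
        intro v hv hv'
        simp only [Finset.mem_sdiff, Finset.mem_erase, Finset.mem_singleton] at hv
        simp only [Finset.mem_insert, Finset.mem_singleton] at hv'
        rcases hv' with h | h
        · exact hv.2 h
        · exact hv.1.1 h
      have e : av ((Y.erase u) \ {x}) * (lz (x, u, (({x} : Finset V).card : ℝ) / Y.card) *
          av (Y \ {x})) = lz (x, u, (({x} : Finset V).card : ℝ) / Y.card) * av (Y \ {x}) := by
        rw [← mul_assoc, hc, mul_assoc, av_mul_av hsub]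
      calc Q * lz (x, u, (({x} : Finset V).card : ℝ) / Y.card) * av (Y \ {x})
          = Q * (lz (x, u, (({x} : Finset V).card : ℝ) / Y.card) * av (Y \ {x})) := by
            rw [mul_assoc]
        _ = Q * (av ((Y.erase u) \ {x}) * (lz (x, u, (({x} : Finset V).card : ℝ) / Y.card) *
              av (Y \ {x}))) := by rw [e]
        _ = _ := by simp only [mul_assoc]

theorem SB_add {n a b ca cb : ℕ} (hab : a + b ≤ n) (ha : SB n a ca) (hb : SB (n - a) b cb) :
    SB n (a + b) (ca + cb) := by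
  intro V _ _ Y T hY hT ht
  obtain ⟨Ta, hTa, hTac⟩ := Finset.exists_subset_card_eq (s := T) (n := a) (by omega)
  set Tb := T \ Ta with hTb
  have hTbc : Tb.card = b := by rw [hTb, Finset.card_sdiff_of_subset hTa]; omega
  have hTaY : Ta ⊆ Y := hTa.trans hT
  have hTbY : Tb ⊆ Y \ Ta := Finset.sdiff_subset_sdiff hT subset_rfl
  obtain ⟨Qa, hQa1, hQa2⟩ := ha V Y Ta hY hTaY hTac
  obtain ⟨Qb, hQb1, hQb2⟩ := hb V (Y \ Ta) Tb (by rw [Finset.card_sdiff_of_subset hTaY]; omega)
    hTbY hTbc
  have hTbT : Tb ⊆ T := Finset.sdiff_subset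
  have hd : Disjoint Ta Tb := Finset.disjoint_sdiff
  have hYT : (Y \ Ta) \ Tb = Y \ T := by
    ext v
    simp only [hTb, Finset.mem_sdiff]
    constructor
    · rintro ⟨⟨h1, h2⟩, h3⟩
      exact ⟨h1, fun h => h3 ⟨h, h2⟩⟩
    · rintro ⟨h1, h2⟩
      exact ⟨⟨h1, fun h => h2 (hTa h)⟩, fun h => h2 h.1⟩
  refine ⟨Qa * Qb, hQa1.mul (hQb1.mono Finset.sdiff_subset le_rfl), ?_⟩
  have h1 : av T = av Ta * (av Tb * av T) := by rw [av_mul_av hTbT, av_mul_av hTa]
  have hc1 : Qb * av Ta = av Ta * Qb := by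
    refine alg_comm (Y := Y \ Ta) (Y' := Ta) Finset.sdiff_disjoint hQb1.mem_alg (av_mem_alg _)
  have hc2 : av T * av (Y \ T) = av (Y \ T) * av T := av_comm Finset.disjoint_sdiff
  rw [hYT] at hQb2
  calc Qa * Qb * (av T * av (Y \ T)) = Qa * Qb * (av (Y \ T) * av T) := by rw [hc2]
    _ = Qa * Qb * (av (Y \ T) * (av Ta * (av Tb * av T))) := by rw [← h1]
    _ = Qa * av Ta * (Qb * (av Tb * av (Y \ T))) * av T := by
        have hc3 : av (Y \ T) * av Ta = av Ta * av (Y \ T) :=
          av_comm (Finset.sdiff_disjoint.mono_right hTa)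
        have hc4 : av (Y \ T) * av Tb = av Tb * av (Y \ T) :=
          av_comm (Finset.sdiff_disjoint.mono_right hTbT)
        have e1 : av (Y \ T) * (av Ta * (av Tb * av T)) = av Ta * (av Tb * (av (Y \ T) * av T)) := by
          rw [← mul_assoc, hc3, mul_assoc, ← mul_assoc (av (Y \ T)), hc4, mul_assoc]
        rw [e1]
        have e2 : Qa * Qb * (av Ta * (av Tb * (av (Y \ T) * av T))) =
            Qa * (Qb * av Ta) * (av Tb * (av (Y \ T) * av T)) := by
          simp only [mul_assoc]
        rw [e2, hc1]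
        simp only [mul_assoc]
    _ = Qa * (av Ta * av (Y \ Ta)) * av T := by rw [hQb2]; simp only [mul_assoc]
    _ = av Y := by rw [hQa2, mul_av_av hT]

theorem UB_rec {n t ct cn cs : ℕ} (ht : t ≤ n) (h1 : UB t ct) (h2 : UB (n - t) cn)
    (h3 : SB n t cs) : UB n (ct + cn + cs) := by
  intro V _ _ Y hY
  obtain ⟨T, hT, hTc⟩ := Finset.exists_subset_card_eq (s := Y) (n := t) (by omega)
  obtain ⟨Q, hQ1, hQ2⟩ := h3 V Y T hY hT hTc
  have g1 := (h1 V T hTc).mono hT le_rfl
  have g2 := (h2 V (Y \ T) (by rw [Finset.card_sdiff_of_subset hT]; omega)).mono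
    Finset.sdiff_subset le_rfl
  rw [← hQ2]
  exact (hQ1.mul (g1.mul g2)).mono subset_rfl (by omega)

theorem SB_succ {n t ct cs : ℕ} (ht : t ≤ n) (h1 : UB t ct) (h3 : SB n t cs) :
    SB (n + 1) t (cs + ct + 1) := by
  by_cases ht0 : t = 0
  · subst ht0
    exact SB_mono (SB_zero (n + 1)) (Nat.zero_le _)
  intro V _ _ Y T hY hT hTc
  obtain ⟨x, hx⟩ : T.Nonempty := Finset.card_pos.1 (by omega)
  obtain ⟨u, hu, huT⟩ : ∃ u ∈ Y, u ∉ T := by
    by_contra hcon
    push Not at hcon
    have := Finset.card_le_card (show Y ⊆ T from hcon)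
    omega
  have hTe : T ⊆ Y.erase u := fun v hv =>
    Finset.mem_erase.2 ⟨fun h => huT (h ▸ hv), hT hv⟩
  obtain ⟨Q, hQ1, hQ2⟩ := h3 V (Y.erase u) T (by rw [Finset.card_erase_of_mem hu]; omega) hTe hTc
  have hex := extr1 (L := Y) (H := T) (x := x) (u := u) hT hx hu huT
  have hxY : x ∈ Y := hT hx
  have hxu : x ≠ u := fun h => huT (h ▸ hx)
  have hp1 : (T.card : ℝ) / Y.card ≤ 1 := by
    rw [hTc, hY, div_le_one (by positivity)]
    exact_mod_cast (by omega : t ≤ n + 1)
  have g1 := (h1 V T hTc).mono hT le_rfl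
  refine ⟨Q * av T * lz (x, u, (T.card : ℝ) / Y.card),
    (((hQ1.mono (Finset.erase_subset u Y) le_rfl).mul g1).mul
      (Net.single hxY hu hxu (by positivity) hp1)), ?_⟩
  rw [hex]
  conv_rhs => rw [← hQ2]
  have hsub : (Y.erase u) \ T ⊆ Y \ T :=
    Finset.sdiff_subset_sdiff (Finset.erase_subset u Y) subset_rfl
  have hue : ∀ v ∈ (Y.erase u) \ T, v ≠ u ∧ v ∉ T := by
    intro v hv
    simp only [Finset.mem_sdiff, Finset.mem_erase] at hv
    exact ⟨hv.1.1, hv.2⟩
  have hc : av ((Y.erase u) \ T) * lz (x, u, (T.card : ℝ) / Y.card) =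
      lz (x, u, (T.card : ℝ) / Y.card) * av ((Y.erase u) \ T) := by
    refine alg_comm (Y := (Y.erase u) \ T) (Y' := {x, u}) ?_ (av_mem_alg _)
      (lz_mem_alg (by simp) (by simp))
    rw [Finset.disjoint_left]
    intro v hv hv'
    simp only [Finset.mem_insert, Finset.mem_singleton] at hv'
    rcases hv' with h | h
    · exact (hue v hv).2 (h ▸ hx)
    · exact (hue v hv).1 h
  have hc2 : av ((Y.erase u) \ T) * av T = av T * av ((Y.erase u) \ T) :=
    av_comm Finset.sdiff_disjoint
  have e1 : av ((Y.erase u) \ T) * (lz (x, u, (T.card : ℝ) / Y.card) * (av T * av (Y \ T))) =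
      lz (x, u, (T.card : ℝ) / Y.card) * (av T * av (Y \ T)) := by
    rw [← mul_assoc, hc, mul_assoc, ← mul_assoc (av ((Y.erase u) \ T)), hc2, mul_assoc (av T),
      av_mul_av hsub]
  calc Q * av T * lz (x, u, (T.card : ℝ) / Y.card) * (av T * av (Y \ T))
      = Q * (av T * (lz (x, u, (T.card : ℝ) / Y.card) * (av T * av (Y \ T)))) := by
        simp only [mul_assoc]
    _ = Q * (av T * (av ((Y.erase u) \ T) *
          (lz (x, u, (T.card : ℝ) / Y.card) * (av T * av (Y \ T))))) := by rw [e1]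
    _ = Q * (av T * av ((Y.erase u) \ T)) * lz (x, u, (T.card : ℝ) / Y.card) *
          (av T * av (Y \ T)) := by
        simp only [mul_assoc]

theorem UB_sq (n : ℕ) : UB n (n ^ 2) := by
  induction n with
  | zero =>
    intro V _ _ Y hY
    rw [Finset.card_eq_zero] at hY
    subst hY
    rw [av_empty]
    exact Net.one _
  | succ n ih =>
    have h1 : UB 1 0 := by
      intro V _ _ Y hY
      obtain ⟨y, hy⟩ := Finset.card_eq_one.1 hY
      rw [hy, rec_av_singleton]
      exact Net.one _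
    refine UB_mono (UB_rec (t := 1) (by omega) h1 (by simpa using ih) (SB_one (n + 1))) ?_
    nlinarith

/-- trivial bound (so that all the infima are attained) -/
theorem SB_triv (n t : ℕ) : SB n t (n * t) := by
  induction t generalizing n with
  | zero => simpa using SB_zero n
  | succ t ih =>
    by_cases h : t + 1 ≤ n
    · have h2 := SB_add (n := n) (a := 1) (b := t) (by omega) (SB_one n) (ih (n - 1))
      rw [show 1 + t = t + 1 by ring] at h2
      refine SB_mono h2 ?_
      have h3 : (n - 1) * t ≤ n * t := Nat.mul_le_mul_right t (Nat.sub_le n 1)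
      calc n + (n - 1) * t ≤ n + n * t := by omega
        _ = n * (t + 1) := by ring
    · intro V _ _ Y T hY hT ht
      have := Finset.card_le_card hT
      omega

end LZS
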