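import Mathlib

/-!
# LZS.Cub: three Bernoulli variables with a hypergeometric sum

PROOF. N = M + B. We need p1,p2,p3 ∈ [0,1] with elementary symmetric functions e1 = 3B/N, e2 = 3B(B-1)/(N(N-1)),
e3 = B(B-1)(B-2)/(N(N-1)(N-2)), i.e. the roots of F(p) = p^3 - e1 p^2 + e2 p - e3 (then the four identities follow by
algebra: the law of the sum has generating function ∏(1-p_i+p_i u), E[binom(K,j)] = e_j).
F'(p) = 3((p-β)^2 - δ^2), β = B/N, δ^2 = β(1-β)/(N-1), and F(p) = (p-β)^3 - 3δ^2 (p-β) + c0,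
c0 = F(β) = 2β(1-β)(2β-1)/((N-1)(N-2)). F(β-δ) = c0 + 2δ^3 > 0 > c0 - 2δ^3 = F(β+δ), because
c0^2 < 4δ^6 iff (2β-1)^2 (N-1) < β(1-β)(N-2)^2 iff N-1 < β(1-β) N^2 = B(N-B) iff (B-1)(N-B-1) > 0.
F(0) < 0, F(1) > 0 (F(1) = (N-B)(N-B-1)(N-B-2)/(N(N-1)(N-2))), 0 ≤ β-δ (δ² ≤ β² iff 1 ≤ B), β+δ ≤ 1. So by IVT three distinct
roots in (0,β-δ), (β-δ,β+δ), (β+δ,1), hence F = (p-p1)(p-p2)(p-p3).
-/

namespace LZS

theorem cub_choose_three (n : ℕ) : (n.choose 3 : ℝ) = n * (n - 1) * (n - 2) / 6 := by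
  induction n with
  | zero => simp
  | succ n ih =>
    rw [Nat.choose_succ_succ, Nat.cast_add, ih, Nat.cast_choose_two]
    push_cast
    ring

/-- three real roots of a cubic in `(0, 1)` -/
theorem cub_roots (β c d : ℝ) (hd : 0 < d) (hβ : d ≤ β) (hβ' : β + d ≤ 1)
    (hc : c ^ 2 < 4 * d ^ 6) (h0 : (0 - β) ^ 3 - 3 * d ^ 2 * (0 - β) + c < 0)
    (h1 : 0 < (1 - β) ^ 3 - 3 * d ^ 2 * (1 - β) + c) :
    ∃ p₁ p₂ p₃ : ℝ, 0 ≤ p₁ ∧ p₁ ≤ 1 ∧ 0 ≤ p₂ ∧ p₂ ≤ 1 ∧ 0 ≤ p₃ ∧ p₃ ≤ 1 ∧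
      p₁ + p₂ + p₃ = 3 * β ∧ p₁ * p₂ + p₁ * p₃ + p₂ * p₃ = 3 * β ^ 2 - 3 * d ^ 2 ∧
      p₁ * p₂ * p₃ = β ^ 3 - 3 * d ^ 2 * β - c := by
  set F : ℝ → ℝ := fun p => (p - β) ^ 3 - 3 * d ^ 2 * (p - β) + c with hF
  have hcont : Continuous F := by
    rw [hF]; fun_prop
  have habs : |c| < 2 * d ^ 3 := by
    rw [show 4 * d ^ 6 = (2 * d ^ 3) ^ 2 by ring] at hc
    exact abs_lt_of_sq_lt_sq hc (by positivity)
  have hlt := abs_lt.1 habs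
  have hFa : 0 < F (β - d) := by
    have : F (β - d) = c + 2 * d ^ 3 := by rw [hF]; ring
    rw [this]; linarith [hlt.1]
  have hFb : F (β + d) < 0 := by
    have : F (β + d) = c - 2 * d ^ 3 := by rw [hF]; ring
    rw [this]; linarith [hlt.2]
  obtain ⟨p₁, ⟨ha1, hb1⟩, hz1⟩ := intermediate_value_Ioo (show (0 : ℝ) ≤ β - d by linarith)
    hcont.continuousOn ⟨h0, hFa⟩
  obtain ⟨p₂, ⟨ha2, hb2⟩, hz2⟩ := intermediate_value_Ioo' (show β - d ≤ β + d by linarith)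
    hcont.continuousOn ⟨hFb, hFa⟩
  obtain ⟨p₃, ⟨ha3, hb3⟩, hz3⟩ := intermediate_value_Ioo (show β + d ≤ 1 from hβ')
    hcont.continuousOn ⟨hFb, h1⟩
  have e1 : (p₁ - β) ^ 3 - 3 * d ^ 2 * (p₁ - β) + c = 0 := hz1
  have e2 : (p₂ - β) ^ 3 - 3 * d ^ 2 * (p₂ - β) + c = 0 := hz2
  have e3 : (p₃ - β) ^ 3 - 3 * d ^ 2 * (p₃ - β) + c = 0 := hz3
  have n12 : p₁ - p₂ ≠ 0 := by intro h; linarith
  have n13 : p₁ - p₃ ≠ 0 := by intro h; linarith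
  have n23 : p₂ - p₃ ≠ 0 := by intro h; linarith
  have g12 : (p₁ - β) ^ 2 + (p₁ - β) * (p₂ - β) + (p₂ - β) ^ 2 - 3 * d ^ 2 = 0 := by
    apply mul_left_cancel₀ n12
    linear_combination e1 - e2
  have g13 : (p₁ - β) ^ 2 + (p₁ - β) * (p₃ - β) + (p₃ - β) ^ 2 - 3 * d ^ 2 = 0 := by
    apply mul_left_cancel₀ n13
    linear_combination e1 - e3
  have s1 : p₁ + p₂ + p₃ - 3 * β = 0 := by
    apply mul_left_cancel₀ n23
    linear_combination g12 - g13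
  have hs3 : p₃ = 3 * β - p₁ - p₂ := by linarith
  refine ⟨p₁, p₂, p₃, by linarith, by linarith, by linarith, by linarith, by linarith,
    by linarith, by linarith, ?_, ?_⟩
  · rw [hs3]
    linear_combination -g12
  · rw [hs3]
    linear_combination e1 - (p₁ - β) * g12 + (- β) * g12

theorem exists_cubic (M B : ℕ) (hM : 3 ≤ M) (hB : 3 ≤ B) :
    ∃ p₁ p₂ p₃ : ℝ, 0 ≤ p₁ ∧ p₁ ≤ 1 ∧ 0 ≤ p₂ ∧ p₂ ≤ 1 ∧ 0 ≤ p₃ ∧ p₃ ≤ 1 ∧
      (1 - p₁) * (1 - p₂) * (1 - p₃) = (M.choose 3 : ℝ) / ((M + B).choose 3 : ℝ) ∧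
      p₁ * (1 - p₂) * (1 - p₃) + (1 - p₁) * p₂ * (1 - p₃) + (1 - p₁) * (1 - p₂) * p₃ =
        (M.choose 2 : ℝ) * B / ((M + B).choose 3 : ℝ) ∧
      p₁ * p₂ * (1 - p₃) + p₁ * (1 - p₂) * p₃ + (1 - p₁) * p₂ * p₃ =
        (M : ℝ) * (B.choose 2 : ℝ) / ((M + B).choose 3 : ℝ) ∧
      p₁ * p₂ * p₃ = (B.choose 3 : ℝ) / ((M + B).choose 3 : ℝ) := by
  rw [cub_choose_three, cub_choose_three, cub_choose_three, Nat.cast_choose_two,
    Nat.cast_choose_two]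
  push_cast
  have hm : (3 : ℝ) ≤ M := by exact_mod_cast hM
  have hb : (3 : ℝ) ≤ B := by exact_mod_cast hB
  generalize (M : ℝ) = m at hm ⊢
  generalize (B : ℝ) = b at hb ⊢
  have hm0 : 0 < m := by linarith
  have hb0 : 0 < b := by linarith
  have hn0 : 0 < m + b := by linarith
  have hn1 : 0 < m + b - 1 := by linarith
  have hn2 : 0 < m + b - 2 := by linarith
  have hn0' := hn0.ne'
  have hn1' := hn1.ne'
  have hn2' := hn2.ne'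
  set D : ℝ := b * m / ((m + b) ^ 2 * (m + b - 1)) with hD
  have hDpos : 0 < D := by rw [hD]; positivity
  set d : ℝ := Real.sqrt D with hd
  have hdpos : 0 < d := Real.sqrt_pos.2 hDpos
  have hdsq : d ^ 2 = D := Real.sq_sqrt hDpos.le
  set c : ℝ := 2 * b * m * (b - m) / ((m + b) ^ 3 * (m + b - 1) * (m + b - 2)) with hc
  have hc2 : c ^ 2 < 4 * d ^ 6 := by
    have h1 : d ^ 6 = D ^ 3 := by rw [← hdsq]; ring
    rw [h1]
    have h2 : 4 * D ^ 3 - c ^ 2 = 4 * b ^ 2 * m ^ 2 * (m + b) ^ 2 * ((b - 1) * (m - 1)) /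
        ((m + b) ^ 6 * (m + b - 1) ^ 3 * (m + b - 2) ^ 2) := by
      rw [hD, hc]
      field_simp
      ring
    have h3 : 0 < 4 * b ^ 2 * m ^ 2 * (m + b) ^ 2 * ((b - 1) * (m - 1)) /
        ((m + b) ^ 6 * (m + b - 1) ^ 3 * (m + b - 2) ^ 2) := by
      have h4 : 0 < b - 1 := by linarith
      have h5 : 0 < m - 1 := by linarith
      positivity
    linarith
  have hle1 : d ≤ b / (m + b) := by
    rw [hd]
    apply Real.sqrt_le_iff.2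
    refine ⟨by positivity, ?_⟩
    have h2 : (b / (m + b)) ^ 2 - D = b * (b - 1) / ((m + b) * (m + b - 1)) := by
      rw [hD]; field_simp; ring
    have h3 : 0 ≤ b * (b - 1) / ((m + b) * (m + b - 1)) := by
      have h4 : 0 < b - 1 := by linarith
      positivity
    linarith
  have hle2 : b / (m + b) + d ≤ 1 := by
    have h1 : d ≤ m / (m + b) := by
      rw [hd]
      apply Real.sqrt_le_iff.2
      refine ⟨by positivity, ?_⟩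
      have h2 : (m / (m + b)) ^ 2 - D = m * (m - 1) / ((m + b) * (m + b - 1)) := by
        rw [hD]; field_simp; ring
      have h3 : 0 ≤ m * (m - 1) / ((m + b) * (m + b - 1)) := by
        have h4 : 0 < m - 1 := by linarith
        positivity
      linarith
    have h2 : b / (m + b) + m / (m + b) = 1 := by field_simp; ring
    linarith
  have hF0 : (0 - b / (m + b)) ^ 3 - 3 * d ^ 2 * (0 - b / (m + b)) + c < 0 := by
    have h1 : (0 - b / (m + b)) ^ 3 - 3 * d ^ 2 * (0 - b / (m + b)) + c =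
        -(b * (b - 1) * (b - 2) / ((m + b) * (m + b - 1) * (m + b - 2))) := by
      rw [hdsq, hD, hc]
      field_simp
      ring
    rw [h1]
    have h2 : 0 < b * (b - 1) * (b - 2) / ((m + b) * (m + b - 1) * (m + b - 2)) := by
      have h4 : 0 < b - 1 := by linarith
      have h5 : 0 < b - 2 := by linarith
      positivity
    linarith
  have hF1 : 0 < (1 - b / (m + b)) ^ 3 - 3 * d ^ 2 * (1 - b / (m + b)) + c := by
    have h1 : (1 - b / (m + b)) ^ 3 - 3 * d ^ 2 * (1 - b / (m + b)) + c =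
        m * (m - 1) * (m - 2) / ((m + b) * (m + b - 1) * (m + b - 2)) := by
      rw [hdsq, hD, hc]
      field_simp
      ring
    rw [h1]
    have h4 : 0 < m - 1 := by linarith
    have h5 : 0 < m - 2 := by linarith
    positivity
  obtain ⟨p₁, p₂, p₃, a1, a2, a3, a4, a5, a6, s1, s2, s3⟩ :=
    cub_roots (b / (m + b)) c d hdpos hle1 hle2 hc2 hF0 hF1
  rw [hdsq] at s2 s3
  refine ⟨p₁, p₂, p₃, a1, a2, a3, a4, a5, a6, ?_, ?_, ?_, ?_⟩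
  · have h : (1 - p₁) * (1 - p₂) * (1 - p₃) = 1 - (p₁ + p₂ + p₃) +
        (p₁ * p₂ + p₁ * p₃ + p₂ * p₃) - p₁ * p₂ * p₃ := by ring
    rw [h, s1, s2, s3, hD, hc]
    field_simp
    ring
  · have h : p₁ * (1 - p₂) * (1 - p₃) + (1 - p₁) * p₂ * (1 - p₃) + (1 - p₁) * (1 - p₂) * p₃ =
        (p₁ + p₂ + p₃) - 2 * (p₁ * p₂ + p₁ * p₃ + p₂ * p₃) + 3 * (p₁ * p₂ * p₃) := by ring
    rw [h, s1, s2, s3, hD, hc]
    field_simp
    ring
  · have h : p₁ * p₂ * (1 - p₃) + p₁ * (1 - p₂) * p₃ + (1 - p₁) * p₂ * p₃ =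
        (p₁ * p₂ + p₁ * p₃ + p₂ * p₃) - 3 * (p₁ * p₂ * p₃) := by ring
    rw [h, s2, s3, hD, hc]
    field_simp
    ring
  · rw [s3, hD, hc]
    field_simp
    ring

/-- two Bernoulli variables -/
theorem exists_quadratic (q₀ q₁ q₂ : ℝ) (h0 : 0 ≤ q₀) (h1 : 0 ≤ q₁) (h2 : 0 ≤ q₂)
    (hs : q₀ + q₁ + q₂ = 1) (hd : 4 * q₀ * q₂ ≤ q₁ ^ 2) :
    ∃ p₁ p₂ : ℝ, 0 ≤ p₁ ∧ p₁ ≤ 1 ∧ 0 ≤ p₂ ∧ p₂ ≤ 1 ∧ (1 - p₁) * (1 - p₂) = q₀ ∧
      p₁ * (1 - p₂) + (1 - p₁) * p₂ = q₁ ∧ p₁ * p₂ = q₂ := by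
  set D : ℝ := q₁ ^ 2 - 4 * q₀ * q₂ with hD
  have hD0 : 0 ≤ D := by rw [hD]; linarith
  set r : ℝ := Real.sqrt D with hr
  have hr0 : 0 ≤ r := Real.sqrt_nonneg D
  have hr2 : r ^ 2 = D := Real.sq_sqrt hD0
  have hq0 : q₀ = 1 - q₁ - q₂ := by linarith
  have hr1 : r ≤ q₁ + 2 * q₂ := by
    rw [hr]
    apply Real.sqrt_le_iff.2
    refine ⟨by positivity, ?_⟩
    rw [hD]
    nlinarith
  have hr3 : r ≤ 2 - (q₁ + 2 * q₂) := by
    rw [hr]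
    apply Real.sqrt_le_iff.2
    refine ⟨by linarith, ?_⟩
    rw [hD]
    nlinarith
  have hr2' : r ^ 2 = (q₁ + 2 * q₂) ^ 2 - 4 * q₂ := by
    rw [hr2, hD, hq0]; ring
  refine ⟨(q₁ + 2 * q₂ - r) / 2, (q₁ + 2 * q₂ + r) / 2, by linarith, by linarith, by linarith,
    by linarith, ?_, ?_, ?_⟩
  · rw [hq0]
    linear_combination (-1 / 4) * hr2'
  · linear_combination (1 / 2) * hr2'
  · linear_combination (-1 / 4) * hr2'

end LZS
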