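import Pool.Agent.LZS.Push
import Pool.Agent.LZS.Cub

/-!
# LZS.Spl2: splitting three tokens between two regions

PROOF. `push_crit` with Y = A ∪ B, T = Z = {z₁,z₂,z₃} ⊆ A, Q = (av A * av B) * (lz (z₁,e₁,p₁) * lz (z₂,e₂,p₂) * lz (z₃,e₃,p₃)),
p from `exists_cubic` with M = |A|, B = |B|. Expand the three lz: eight terms c_I • P (g_I), g_I = product of the swaps in
I; `push_mul_P`: push Z ((av A * av B) * P g_I) S = push (Z_I) (av A * av B) S, Z_I = Z with z_i replaced by e_i, i ∈ I.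
av A * av B = ab (A ∪ B) χ, χ = indicator of B (ab_const, ab_union), and by push_avg_orbit + exists_blk_map
push Z_I (...) S = 1/(C(|A|,3-|I|) C(|B|,|I|)) if |S ∩ B| = |I|, else 0 (S ⊆ A ∪ B, |S| = 3). Sum the terms with |I| = |S ∩ B|:
(law of the sum at |S ∩ B|) / (C(|A|,3-i) C(|B|,i)) = 1/C(|A|+|B|,3).
-/

open Finset Equiv

noncomputable section

namespace LZS

variable {V : Type} [Fintype V] [DecidableEq V]

private theorem spl2_push_lz (T : Finset V) (Q : GA V) (a b : V) (p : ℝ) (S : Finset V) :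
    push T (Q * lz (a, b, p)) S =
      (1 - p) * push T Q S + p * push (T.map (swap a b).toEmbedding) Q S := by
  unfold lz
  rw [mul_add, mul_smul_comm, mul_one, mul_smul_comm, push_add, push_smul, push_smul, push_mul_P]

omit [Fintype V] in
private theorem spl2_map_swap {T : Finset V} {z e : V} (hz : z ∈ T) (he : e ∉ T) :
    T.map (swap z e).toEmbedding = insert e (T.erase z) := by
  ext w
  rw [Finset.mem_map]
  constructor
  · rintro ⟨v, hv, rfl⟩
    show swap z e v ∈ _
    by_cases h1 : v = z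
    · subst h1
      rw [swap_apply_left]
      exact Finset.mem_insert_self _ _
    · have h2 : v ≠ e := fun h => he (h ▸ hv)
      rw [swap_apply_of_ne_of_ne h1 h2]
      exact Finset.mem_insert_of_mem (Finset.mem_erase.2 ⟨h1, hv⟩)
  · intro hw
    rcases Finset.mem_insert.1 hw with rfl | hw
    · exact ⟨z, hz, swap_apply_left _ _⟩
    · obtain ⟨h1, h2⟩ := Finset.mem_erase.1 hw
      have h3 : w ≠ e := fun h => he (h ▸ h2)
      exact ⟨w, h2, swap_apply_of_ne_of_ne h1 h3⟩

omit [Fintype V] in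
private theorem spl2_orbit_card {A B : Finset V} (hAB : Disjoint A B) (i : ℕ) (hi : i ≤ 3) :
    (((A ∪ B).powersetCard 3).filter (fun S => (S ∩ B).card = i)).card =
      A.card.choose (3 - i) * B.card.choose i := by
  rw [← Finset.card_powersetCard, ← Finset.card_powersetCard, ← Finset.card_product]
  refine Finset.card_bij' (fun S _ => (S ∩ A, S ∩ B)) (fun q _ => q.1 ∪ q.2) ?_ ?_ ?_ ?_
  · intro S hS
    obtain ⟨h1, h2⟩ := Finset.mem_filter.1 hS
    obtain ⟨h3, h4⟩ := Finset.mem_powersetCard.1 h1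
    rw [Finset.mem_product, Finset.mem_powersetCard, Finset.mem_powersetCard]
    refine ⟨⟨Finset.inter_subset_right, ?_⟩, Finset.inter_subset_right, h2⟩
    have h5 : S = (S ∩ A) ∪ (S ∩ B) := by
      rw [← Finset.inter_union_distrib_left, Finset.inter_eq_left.2 h3]
    have h6 : Disjoint (S ∩ A) (S ∩ B) :=
      Finset.disjoint_of_subset_left Finset.inter_subset_right
        (Finset.disjoint_of_subset_right Finset.inter_subset_right hAB)
    have h7 : S.card = (S ∩ A).card + (S ∩ B).card := by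
      conv_lhs => rw [h5]
      exact Finset.card_union_of_disjoint h6
    show (S ∩ A).card = 3 - i
    omega
  · intro q hq
    rw [Finset.mem_product, Finset.mem_powersetCard, Finset.mem_powersetCard] at hq
    obtain ⟨⟨h1, h2⟩, h3, h4⟩ := hq
    have h6 : Disjoint q.1 q.2 :=
      Finset.disjoint_of_subset_left h1 (Finset.disjoint_of_subset_right h3 hAB)
    rw [Finset.mem_filter, Finset.mem_powersetCard]
    refine ⟨⟨Finset.union_subset_union h1 h3, ?_⟩, ?_⟩
    · rw [Finset.card_union_of_disjoint h6, h2, h4]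
      omega
    · have h7 : (q.1 ∪ q.2) ∩ B = q.2 := by
        rw [Finset.union_inter_distrib_right, Finset.inter_eq_left.2 h3]
        have : q.1 ∩ B = ∅ := by
          rw [← Finset.disjoint_iff_inter_eq_empty]
          exact Finset.disjoint_of_subset_left h1 hAB
        rw [this, Finset.empty_union]
      rw [h7, h4]
  · intro S hS
    obtain ⟨h1, h2⟩ := Finset.mem_filter.1 hS
    obtain ⟨h3, h4⟩ := Finset.mem_powersetCard.1 h1
    show (S ∩ A) ∪ (S ∩ B) = S
    rw [← Finset.inter_union_distrib_left, Finset.inter_eq_left.2 h3]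
  · intro q hq
    rw [Finset.mem_product, Finset.mem_powersetCard, Finset.mem_powersetCard] at hq
    obtain ⟨⟨h1, h2⟩, h3, h4⟩ := hq
    have e1 : q.1 ∩ B = ∅ := by
      rw [← Finset.disjoint_iff_inter_eq_empty]
      exact Finset.disjoint_of_subset_left h1 hAB
    have e2 : q.2 ∩ A = ∅ := by
      rw [← Finset.disjoint_iff_inter_eq_empty]
      exact Finset.disjoint_of_subset_left h3 hAB.symm
    show ((q.1 ∪ q.2) ∩ A, (q.1 ∪ q.2) ∩ B) = q
    rw [Finset.union_inter_distrib_right, Finset.union_inter_distrib_right, e1, e2,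
      Finset.inter_eq_left.2 h1, Finset.inter_eq_left.2 h3, Finset.union_empty, Finset.empty_union]

private theorem spl2_avg {A B : Finset V} (hAB : Disjoint A B) :
    av A * av B = avg (blk (A ∪ B) (fun v => if v ∈ B then 1 else 0)) := by
  have h1 : ab A (fun v => if v ∈ B then 1 else 0) = av A := by
    apply ab_const
    intro a ha b hb
    rw [if_neg (Finset.disjoint_left.1 hAB ha), if_neg (Finset.disjoint_left.1 hAB hb)]
  have h2 : ab B (fun v => if v ∈ B then 1 else 0) = av B := by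
    apply ab_const
    intro a ha b hb
    rw [if_pos ha, if_pos hb]
  rw [← h1, ← h2, ab_union]
  · rfl
  · intro a ha b hb
    rw [if_neg (Finset.disjoint_left.1 hAB ha), if_pos hb]
    decide

private theorem spl2_key {A B : Finset V} (hAB : Disjoint A B) {T S : Finset V}
    (hT : T ⊆ A ∪ B) (hT3 : T.card = 3) (hS : S ⊆ A ∪ B) (hS3 : S.card = 3) :
    push T (av A * av B) S = if (S ∩ B).card = (T ∩ B).card then
      ((A.card.choose (3 - (T ∩ B).card) : ℝ) * (B.card.choose (T ∩ B).card : ℝ))⁻¹ else 0 := by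
  have hi : (T ∩ B).card ≤ 3 := by
    rw [← hT3]
    exact Finset.card_le_card Finset.inter_subset_left
  have hfil : ∀ W : Finset V, W.filter (fun v => (if v ∈ B then 1 else 0) = 1) = W ∩ B := by
    intro W
    ext v
    rw [Finset.mem_filter, Finset.mem_inter]
    by_cases hv : v ∈ B <;> simp [hv]
  have hfil0 : ∀ W : Finset V, W.filter (fun v => (if v ∈ B then 1 else 0) = 0) = W \ B := by
    intro W
    ext v
    rw [Finset.mem_filter, Finset.mem_sdiff]
    by_cases hv : v ∈ B <;> simp [hv]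
  rw [spl2_avg hAB, push_avg_orbit (blk (A ∪ B) (fun v => if v ∈ B then 1 else 0)) T
    (((A ∪ B).powersetCard 3).filter (fun S => (S ∩ B).card = (T ∩ B).card)),
    spl2_orbit_card hAB _ hi]
  · push_cast
    congr 1
    rw [Finset.mem_filter, Finset.mem_powersetCard]
    exact propext ⟨fun h => h.2, fun h => ⟨⟨hS, hS3⟩, h⟩⟩
  · intro g hg W hW
    obtain ⟨h1, h2⟩ := Finset.mem_filter.1 hW
    obtain ⟨h3, h4⟩ := Finset.mem_powersetCard.1 h1
    rw [Finset.mem_filter, Finset.mem_powersetCard]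
    refine ⟨⟨?_, by rw [Finset.card_map, h4]⟩, ?_⟩
    · intro w hw
      obtain ⟨v, hv, rfl⟩ := Finset.mem_map.1 hw
      by_contra hc
      have h5 : g (g v) = g v := hg.1 _ hc
      have h6 : g v = v := g.injective h5
      apply hc
      show g v ∈ A ∪ B
      rw [h6]
      exact h3 hv
    · have h5 : W.map g.toEmbedding ∩ B = (W ∩ B).map g.toEmbedding := by
        have hiff : ∀ v, g v ∈ B ↔ v ∈ B := by
          intro v
          have := hg.2 v
          by_cases h6 : v ∈ B <;> by_cases h7 : g v ∈ B <;> simp_all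
        ext w
        rw [Finset.mem_inter, Finset.mem_map, Finset.mem_map]
        constructor
        · rintro ⟨⟨v, hv, rfl⟩, hw⟩
          exact ⟨v, Finset.mem_inter.2 ⟨hv, (hiff v).1 hw⟩, rfl⟩
        · rintro ⟨v, hv, rfl⟩
          obtain ⟨h6, h7⟩ := Finset.mem_inter.1 hv
          exact ⟨⟨v, h6, rfl⟩, (hiff v).2 h7⟩
      rw [h5, Finset.card_map, h2]
  · rw [Finset.mem_filter, Finset.mem_powersetCard]
    exact ⟨⟨hT, hT3⟩, rfl⟩
  · intro W hW
    obtain ⟨h1, h2⟩ := Finset.mem_filter.1 hW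
    obtain ⟨h3, h4⟩ := Finset.mem_powersetCard.1 h1
    apply exists_blk_map hT h3
    intro i
    by_cases i1 : i = 1
    · subst i1
      rw [hfil, hfil, h2]
    · by_cases i0 : i = 0
      · subst i0
        rw [hfil0, hfil0]
        have e1 := Finset.card_inter_add_card_sdiff T B
        have e2 := Finset.card_inter_add_card_sdiff W B
        omega
      · have : ∀ U : Finset V, U.filter (fun v => (if v ∈ B then 1 else 0) = i) = ∅ := by
          intro U
          rw [Finset.filter_eq_empty_iff]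
          intro v _ h
          by_cases hv : v ∈ B
          · rw [if_pos hv] at h; exact i1 h.symm
          · rw [if_neg hv] at h; exact i0 h.symm
        rw [this, this]

/-- one swap moves one element of the set into `B` -/
private theorem spl2_step {A B T : Finset V} {z e : V} (hT : T ⊆ A ∪ B) (hzT : z ∈ T) (heT : e ∉ T)
    (hzB : z ∉ B) (heB : e ∈ B) :
    T.map (swap z e).toEmbedding ⊆ A ∪ B ∧
      (T.map (swap z e).toEmbedding ∩ B).card = (T ∩ B).card + 1 ∧
      (∀ v, v ≠ z → v ∈ T → v ∈ T.map (swap z e).toEmbedding) ∧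
      (∀ v, v ≠ e → v ∉ T → v ∉ T.map (swap z e).toEmbedding) := by
  rw [spl2_map_swap hzT heT]
  refine ⟨?_, ?_, ?_, ?_⟩
  · intro v hv
    rcases Finset.mem_insert.1 hv with rfl | hv
    · exact Finset.mem_union_right _ heB
    · exact hT (Finset.mem_of_mem_erase hv)
  · have h1 : insert e (T.erase z) ∩ B = insert e (T ∩ B) := by
      ext v
      rw [Finset.mem_inter, Finset.mem_insert, Finset.mem_insert, Finset.mem_inter,
        Finset.mem_erase]
      constructor
      · rintro ⟨rfl | ⟨_, h⟩, hB⟩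
        · exact Or.inl rfl
        · exact Or.inr ⟨h, hB⟩
      · rintro (rfl | ⟨h, hB⟩)
        · exact ⟨Or.inl rfl, heB⟩
        · exact ⟨Or.inr ⟨fun h' => hzB (h' ▸ hB), h⟩, hB⟩
    rw [h1, Finset.card_insert_of_notMem (fun h => heT (Finset.mem_inter.1 h).1)]
  · intro v hv hvT
    exact Finset.mem_insert_of_mem (Finset.mem_erase.2 ⟨hv, hvT⟩)
  · intro v hv hvT h
    rcases Finset.mem_insert.1 h with h | h
    · exact hv h
    · exact hvT (Finset.mem_of_mem_erase h)

theorem split2 {A B Z E : Finset V} (hAB : Disjoint A B) (hZ : Z ⊆ A) (hE : E ⊆ B)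
    (hZ3 : Z.card = 3) (hE3 : E.card = 3) :
    ∃ D : GA V, Net (Z ∪ E) D 3 ∧ av A * av B * D * (av Z * av ((A ∪ B) \ Z)) = av (A ∪ B) := by
  have hM : 3 ≤ A.card := hZ3 ▸ Finset.card_le_card hZ
  have hB : 3 ≤ B.card := hE3 ▸ Finset.card_le_card hE
  obtain ⟨z₁, z₂, z₃, hz12, hz13, hz23, hZe⟩ := Finset.card_eq_three.1 hZ3
  obtain ⟨e₁, e₂, e₃, he12, he13, he23, hEe⟩ := Finset.card_eq_three.1 hE3
  obtain ⟨p₁, p₂, p₃, a1, a2, a3, a4, a5, a6, c0, c1, c2, c3⟩ := exists_cubic A.card B.card hM hB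
  have hz1 : z₁ ∈ Z := by rw [hZe]; simp
  have hz2 : z₂ ∈ Z := by rw [hZe]; simp
  have hz3 : z₃ ∈ Z := by rw [hZe]; simp
  have he1 : e₁ ∈ E := by rw [hEe]; simp
  have he2 : e₂ ∈ E := by rw [hEe]; simp
  have he3 : e₃ ∈ E := by rw [hEe]; simp
  have hzB : ∀ z ∈ Z, z ∉ B := fun z hz => Finset.disjoint_left.1 hAB (hZ hz)
  have heZ : ∀ e ∈ E, e ∉ Z := fun e he h => hzB e h (hE he)
  have hne : ∀ z ∈ Z, ∀ e ∈ E, z ≠ e := fun z hz e he h => heZ e he (h ▸ hz)
  have hnet : Net (Z ∪ E) (lz (z₁, e₁, p₁) * lz (z₂, e₂, p₂) * lz (z₃, e₃, p₃)) (1 + 1 + 1) :=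
    Net.mul (Net.mul
      (Net.single (Finset.mem_union_left _ hz1) (Finset.mem_union_right _ he1)
        (hne _ hz1 _ he1) a1 a2)
      (Net.single (Finset.mem_union_left _ hz2) (Finset.mem_union_right _ he2)
        (hne _ hz2 _ he2) a3 a4))
      (Net.single (Finset.mem_union_left _ hz3) (Finset.mem_union_right _ he3)
        (hne _ hz3 _ he3) a5 a6)
  refine ⟨lz (z₁, e₁, p₁) * lz (z₂, e₂, p₂) * lz (z₃, e₃, p₃), hnet, ?_⟩
  have hZY : Z ⊆ A ∪ B := hZ.trans Finset.subset_union_left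
  have hEY : E ⊆ A ∪ B := hE.trans Finset.subset_union_right
  apply push_crit
  · apply Subalgebra.mul_mem
    · exact Subalgebra.mul_mem _ (alg_mono Finset.subset_union_left (av_mem_alg A))
        (alg_mono Finset.subset_union_right (av_mem_alg B))
    · exact alg_mono (Finset.union_subset hZY hEY) hnet.mem_alg
  · exact hZY
  · intro S hS hS3
    rw [hZ3] at hS3
    have hc : (A ∪ B).card = A.card + B.card := Finset.card_union_of_disjoint hAB
    rw [hc, hZ3]
    set φ : ℕ → ℝ := fun i => if (S ∩ B).card = i then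
      ((A.card.choose (3 - i) : ℝ) * (B.card.choose i : ℝ))⁻¹ else 0 with hφ
    have key : ∀ (T : Finset V) (i : ℕ), T ⊆ A ∪ B → T.card = 3 → (T ∩ B).card = i →
        push T (av A * av B) S = φ i := by
      intro T i h1 h2 h3
      rw [spl2_key hAB h1 h2 hS hS3, h3]
    have hZB : (Z ∩ B).card = 0 := by
      rw [Finset.card_eq_zero, ← Finset.disjoint_iff_inter_eq_empty]
      exact Finset.disjoint_of_subset_left hZ hAB
    -- one factor, general state
    have l1 : ∀ (T : Finset V) (i : ℕ), T ⊆ A ∪ B → T.card = 3 → (T ∩ B).card = i → z₁ ∈ T →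
        e₁ ∉ T → push T (av A * av B * lz (z₁, e₁, p₁)) S = (1 - p₁) * φ i + p₁ * φ (i + 1) := by
      intro T i h1 h2 h3 h4 h5
      obtain ⟨s1, s2, -, -⟩ := spl2_step h1 h4 h5 (hzB _ hz1) (hE he1)
      rw [spl2_push_lz, key T i h1 h2 h3,
        key _ (i + 1) s1 (by rw [Finset.card_map, h2]) (by rw [s2, h3])]
    have l2 : ∀ (T : Finset V) (i : ℕ), T ⊆ A ∪ B → T.card = 3 → (T ∩ B).card = i → z₁ ∈ T →
        e₁ ∉ T → z₂ ∈ T → e₂ ∉ T →
        push T (av A * av B * lz (z₁, e₁, p₁) * lz (z₂, e₂, p₂)) S =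
          (1 - p₂) * ((1 - p₁) * φ i + p₁ * φ (i + 1)) +
          p₂ * ((1 - p₁) * φ (i + 1) + p₁ * φ (i + 1 + 1)) := by
      intro T i h1 h2 h3 h4 h5 h6 h7
      obtain ⟨s1, s2, s3, s4⟩ := spl2_step h1 h6 h7 (hzB _ hz2) (hE he2)
      rw [spl2_push_lz, l1 T i h1 h2 h3 h4 h5,
        l1 _ (i + 1) s1 (by rw [Finset.card_map, h2]) (by rw [s2, h3]) (s3 _ hz12 h4)
          (s4 _ he12 h5)]
    have hmain : push Z (av A * av B * (lz (z₁, e₁, p₁) * lz (z₂, e₂, p₂) * lz (z₃, e₃, p₃))) S =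
        (1 - p₃) * ((1 - p₂) * ((1 - p₁) * φ 0 + p₁ * φ 1) +
          p₂ * ((1 - p₁) * φ 1 + p₁ * φ 2)) +
        p₃ * ((1 - p₂) * ((1 - p₁) * φ 1 + p₁ * φ 2) +
          p₂ * ((1 - p₁) * φ 2 + p₁ * φ 3)) := by
      obtain ⟨s1, s2, s3, s4⟩ := spl2_step hZY hz3 (heZ _ he3) (hzB _ hz3) (hE he3)
      rw [← mul_assoc, ← mul_assoc, spl2_push_lz,
        l2 Z 0 hZY hZ3 hZB hz1 (heZ _ he1) hz2 (heZ _ he2),
        l2 _ (0 + 1) s1 (by rw [Finset.card_map, hZ3]) (by rw [s2, hZB]) (s3 _ hz13 hz1)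
          (s4 _ he13 (heZ _ he1)) (s3 _ hz23 hz2) (s4 _ he23 (heZ _ he2))]
    rw [hmain]
    have hexp : (1 - p₃) * ((1 - p₂) * ((1 - p₁) * φ 0 + p₁ * φ 1) +
          p₂ * ((1 - p₁) * φ 1 + p₁ * φ 2)) +
        p₃ * ((1 - p₂) * ((1 - p₁) * φ 1 + p₁ * φ 2) +
          p₂ * ((1 - p₁) * φ 2 + p₁ * φ 3)) =
        ((1 - p₁) * (1 - p₂) * (1 - p₃)) * φ 0 +
        (p₁ * (1 - p₂) * (1 - p₃) + (1 - p₁) * p₂ * (1 - p₃) + (1 - p₁) * (1 - p₂) * p₃) * φ 1 +
        (p₁ * p₂ * (1 - p₃) + p₁ * (1 - p₂) * p₃ + (1 - p₁) * p₂ * p₃) * φ 2 +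
        (p₁ * p₂ * p₃) * φ 3 := by ring
    rw [hexp, c0, c1, c2, c3]
    have hj : (S ∩ B).card ≤ 3 := by
      rw [← hS3]
      exact Finset.card_le_card Finset.inter_subset_left
    have hN : ((A.card + B.card).choose 3 : ℝ) ≠ 0 := by
      exact_mod_cast (Nat.choose_pos (by omega)).ne'
    have hA3 : (A.card.choose 3 : ℝ) ≠ 0 := by exact_mod_cast (Nat.choose_pos (by omega)).ne'
    have hA2 : (A.card.choose 2 : ℝ) ≠ 0 := by exact_mod_cast (Nat.choose_pos (by omega)).ne'
    have hA1 : (A.card : ℝ) ≠ 0 := by exact_mod_cast (by omega : A.card ≠ 0)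
    have hB3 : (B.card.choose 3 : ℝ) ≠ 0 := by exact_mod_cast (Nat.choose_pos (by omega)).ne'
    have hB2 : (B.card.choose 2 : ℝ) ≠ 0 := by exact_mod_cast (Nat.choose_pos (by omega)).ne'
    have hB1 : (B.card : ℝ) ≠ 0 := by exact_mod_cast (by omega : B.card ≠ 0)
    simp only [hφ]
    rcases (by omega : (S ∩ B).card = 0 ∨ (S ∩ B).card = 1 ∨ (S ∩ B).card = 2 ∨
      (S ∩ B).card = 3) with h | h | h | h
    · rw [h]
      norm_num
      field_simp
    · rw [h]
      norm_num
      field_simp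
    · rw [h]
      norm_num
      field_simp
    · rw [h]
      norm_num
      field_simp

end LZS
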