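import Pool.Agent.LZS.Geo
import Pool.Agent.LZS.Spl2
import Pool.Agent.LZS.Rec

/-!
# LZS.SplL: splitting the three tokens of row `k` between the rows `≤ k` and each row `> k`

PROOF. W_r = Top k ∪ (active sites of rows k+1..k+r) = Act k ∩ {row ≤ k + r}. Claim(r), r = 0..s-1-k: ∃ Sp, Net (Zf k ∪ (Ef k ∩ {row ≤ k+r})) Sp (12 r) and
av (Top k) * ab (W_r \ Top k) row * Sp * (av (Zf k) * av (W_r \ Zf k)) = av W_r.
r = 0: Sp = 1: av Top * (av Z * av (Top \ Z)) = av Top. Step: L = active sites of row k+r+1 (h - 3 ≥ 3 sites), E = Ef k ∩ L (3 sites),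
`split2` with A = W_r, B = L: av W_r * av L * D * (av Z * av (W_{r+1} \ Z)) = av W_{r+1}. Insert Claim(r) for av W_r: av (W_r \ Z) commutes with
av L, and with D ∈ alg (Z ∪ E) (disjoint), and is absorbed by av (W_{r+1} \ Z); av L commutes with Sp_r, av Z. So Sp_{r+1} = Sp_r * av Z * D,
cost + 9 + 3 (UB_sq 3). ab (W_{r+1} \ Top) row = ab (W_r \ Top) row * av L (ab_union, ab_const).
-/

open Finset Equiv

noncomputable section

namespace LZS

/-- active sites in rows `≤ k + r` -/
private def Wk (s h k r : ℕ) : Finset (Fin s × Fin h) :=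
  univ.filter (fun v => v.1.val ≤ k ∨ (v.1.val ≤ k + r ∧ v.2.val + 3 < h))

private def Lk (s h k r : ℕ) : Finset (Fin s × Fin h) :=
  univ.filter (fun v => v.1.val = k + r + 1 ∧ v.2.val + 3 < h)

private def Ek (s h k r : ℕ) : Finset (Fin s × Fin h) :=
  univ.filter (fun v => v.1.val = k + r + 1 ∧ 3 * (k - 1) ≤ v.2.val ∧ v.2.val < 3 * k)

private def EEk (s h k r : ℕ) : Finset (Fin s × Fin h) :=
  univ.filter (fun v => k < v.1.val ∧ v.1.val ≤ k + r ∧ 3 * (k - 1) ≤ v.2.val ∧ v.2.val < 3 * k)

private theorem card_three {s h : ℕ} (b : Fin s) (a : ℕ) (ha : a + 3 ≤ h) :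
    (univ.filter (fun v : Fin s × Fin h => v.1.val = b.val ∧ a ≤ v.2.val ∧ v.2.val < a + 3)).card
      = 3 := by
  have h1 : (univ.filter (fun v : Fin s × Fin h => v.1.val = b.val ∧ a ≤ v.2.val ∧
      v.2.val < a + 3)) = {(b, ⟨a, by omega⟩), (b, ⟨a + 1, by omega⟩), (b, ⟨a + 2, by omega⟩)} := by
    ext ⟨v1, v2⟩
    simp only [Finset.mem_filter, Finset.mem_univ, true_and, Finset.mem_insert,
      Finset.mem_singleton, Prod.mk.injEq, Fin.ext_iff]
    omega
  rw [h1]
  rw [Finset.card_insert_of_notMem, Finset.card_insert_of_notMem, Finset.card_singleton]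
  · simp
  · simp

private theorem split_aux {s h k : ℕ} (hk : 1 ≤ k) (hks : k < s) (hh : 5 * s + 5 ≤ h) (r : ℕ)
    (hr : k + r < s) :
    ∃ Sp : GA (Fin s × Fin h), Net (Zf s h k ∪ EEk s h k r) Sp (12 * r) ∧
      av (Top s h k) * ab (Wk s h k r \ Top s h k) row * Sp *
        (av (Zf s h k) * av (Wk s h k r \ Zf s h k)) = av (Wk s h k r) := by
  have hZT : Zf s h k ⊆ Top s h k := by
    intro v hv
    simp only [Zf, Top, Finset.mem_filter, Finset.mem_univ, true_and] at hv ⊢
    omega
  induction r with
  | zero =>
    have hW : Wk s h k 0 = Top s h k := by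
      ext v
      simp only [Wk, Top, Finset.mem_filter, Finset.mem_univ, true_and]
      omega
    refine ⟨1, (Net.one _).mono (Finset.empty_subset _) le_rfl |>.mono (le_refl _) (by omega), ?_⟩
    · rw [hW]
      have h0 : ab (Top s h k \ Top s h k) row = (1 : GA (Fin s × Fin h)) := by
        rw [Finset.sdiff_self, ab_const (by simp), av_empty]
      rw [h0, mul_one, mul_one, ← mul_assoc, mul_av_av hZT, mul_av_av Finset.sdiff_subset]
  | succ r ih =>
    obtain ⟨Sp, hN, hSp⟩ := ih (by omega)
    set b : Fin s := ⟨k + r + 1, by omega⟩ with hb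
    have hWL : Disjoint (Wk s h k r) (Lk s h k r) := by
      rw [Finset.disjoint_left]
      intro v hv hv'
      simp only [Wk, Lk, Finset.mem_filter, Finset.mem_univ, true_and] at hv hv'
      omega
    have hEL : Ek s h k r ⊆ Lk s h k r := by
      intro v hv
      simp only [Ek, Lk, Finset.mem_filter, Finset.mem_univ, true_and] at hv ⊢
      omega
    have hZW : Zf s h k ⊆ Wk s h k r := by
      intro v hv
      simp only [Zf, Wk, Finset.mem_filter, Finset.mem_univ, true_and] at hv ⊢
      omega
    have hZ3 : (Zf s h k).card = 3 := by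
      have := card_three (s := s) (h := h) ⟨k, hks⟩ (h - 3) (by omega)
      rw [← this]
      congr 1
      ext v
      have h2 := v.2.isLt
      simp only [Zf, Finset.mem_filter, Finset.mem_univ, true_and]
      omega
    have hE3 : (Ek s h k r).card = 3 := by
      have := card_three (s := s) (h := h) b (3 * (k - 1)) (by omega)
      rw [← this]
      congr 1
      ext v
      simp only [Ek, hb, Finset.mem_filter, Finset.mem_univ, true_and]
      omega
    obtain ⟨D, hD, hDe⟩ := split2 hWL hZW hEL hZ3 hE3
    have hWs : Wk s h k (r + 1) = Wk s h k r ∪ Lk s h k r := by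
      ext v
      simp only [Wk, Lk, Finset.mem_filter, Finset.mem_univ, true_and, Finset.mem_union]
      omega
    rw [← hWs] at hDe
    refine ⟨Sp * av (Zf s h k) * D, ?_, ?_⟩
    · have h1 : Net (Zf s h k) (av (Zf s h k)) 9 := by
        have := UB_sq 3 (Fin s × Fin h) (Zf s h k) hZ3
        exact this.mono (le_refl _) (by norm_num)
      have h2 : Zf s h k ∪ EEk s h k r ⊆ Zf s h k ∪ EEk s h k (r + 1) := by
        intro v hv
        simp only [Zf, EEk, Finset.mem_union, Finset.mem_filter, Finset.mem_univ, true_and] at hv ⊢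
        omega
      have h3 : Zf s h k ∪ Ek s h k r ⊆ Zf s h k ∪ EEk s h k (r + 1) := by
        intro v hv
        simp only [Zf, EEk, Ek, Finset.mem_union, Finset.mem_filter, Finset.mem_univ, true_and] at hv ⊢
        omega
      exact (((hN.mono h2 le_rfl).mul (h1.mono Finset.subset_union_left le_rfl)).mul
        (hD.mono h3 le_rfl)).mono (le_refl _) (by omega)
    · -- the ring computation
      set Z := Zf s h k
      set U := Top s h k
      set W := Wk s h k r
      set L := Lk s h k r
      set W' := Wk s h k (r + 1)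
      have hWU : W' \ U = (W \ U) ∪ L := by
        ext v
        simp only [W', W, L, U, Wk, Lk, Top, Finset.mem_filter, Finset.mem_univ, true_and,
          Finset.mem_union, Finset.mem_sdiff]
        omega
      have hab : ab (W' \ U) row = ab (W \ U) row * av L := by
        rw [hWU, ← ab_union, ab_const (Y := L)]
        · intro a ha b hb
          simp only [L, Lk, Finset.mem_filter, Finset.mem_univ, true_and] at ha hb
          simp only [row]; omega
        · intro a ha b hb
          simp only [L, W, U, Lk, Wk, Top, Finset.mem_filter, Finset.mem_univ, true_and,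
            Finset.mem_sdiff] at ha hb
          simp only [row]; omega
      -- commutations
      have hdLZE : Disjoint L (Z ∪ EEk s h k r) := by
        rw [Finset.disjoint_left]
        intro v hv hv'
        simp only [L, Z, Lk, Zf, EEk, Finset.mem_union, Finset.mem_filter, Finset.mem_univ,
          true_and] at hv hv'
        omega
      have c1 : av L * Sp = Sp * av L := alg_comm hdLZE (av_mem_alg L) hN.mem_alg
      have hdLZ : Disjoint L Z := by
        rw [Finset.disjoint_left]
        intro v hv hv'
        exact Finset.disjoint_left.1 hdLZE hv (Finset.mem_union_left _ hv')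
      have c2 : av L * av Z = av Z * av L := av_comm hdLZ
      have hdWZL : Disjoint (W \ Z) L := by
        rw [Finset.disjoint_left]
        intro v hv hv'
        exact Finset.disjoint_left.1 hWL (Finset.mem_sdiff.1 hv).1 hv'
      have c3 : av (W \ Z) * av L = av L * av (W \ Z) := av_comm hdWZL
      have hdWZD : Disjoint (W \ Z) (Z ∪ Ek s h k r) := by
        rw [Finset.disjoint_left]
        intro v hv hv'
        rcases Finset.mem_union.1 hv' with h1 | h1
        · exact (Finset.mem_sdiff.1 hv).2 h1
        · exact Finset.disjoint_left.1 hdWZL hv (hEL h1)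
      have c4 : av (W \ Z) * D = D * av (W \ Z) := alg_comm hdWZD (av_mem_alg _) hD.mem_alg
      have hdWZZ : Disjoint (W \ Z) Z := Finset.sdiff_disjoint
      have c5 : av (W \ Z) * av Z = av Z * av (W \ Z) := av_comm hdWZZ
      have hsub : W \ Z ⊆ W' \ Z := by
        rw [hWs]
        exact Finset.sdiff_subset_sdiff Finset.subset_union_left (le_refl _)
      have c6 : av (W \ Z) * av (W' \ Z) = av (W' \ Z) := av_mul_av hsub
      calc av U * ab (W' \ U) row * (Sp * av Z * D) * (av Z * av (W' \ Z))
          = av U * ab (W \ U) row * (av L * Sp) * av Z * D * (av Z * av (W' \ Z)) := by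
            rw [hab]; simp only [mul_assoc]
        _ = av U * ab (W \ U) row * Sp * (av L * av Z) * D * (av Z * av (W' \ Z)) := by
            rw [c1]; simp only [mul_assoc]
        _ = av U * ab (W \ U) row * Sp * av Z * av L * D * (av Z * (av (W \ Z) * av (W' \ Z))) := by
            rw [c2, c6]; simp only [mul_assoc]
        _ = av U * ab (W \ U) row * Sp * av Z * av L * D * ((av (W \ Z) * av Z) * av (W' \ Z)) := by
            rw [c5]; simp only [mul_assoc]
        _ = av U * ab (W \ U) row * Sp * av Z * av L * (av (W \ Z) * D) * (av Z * av (W' \ Z)) := by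
            rw [c4]; simp only [mul_assoc]
        _ = av U * ab (W \ U) row * Sp * av Z * (av (W \ Z) * av L) * D * (av Z * av (W' \ Z)) := by
            rw [c3]; simp only [mul_assoc]
        _ = (av U * ab (W \ U) row * Sp * (av Z * av (W \ Z))) * av L * D *
              (av Z * av (W' \ Z)) := by simp only [mul_assoc]
        _ = av W * av L * D * (av Z * av (W' \ Z)) := by rw [hSp]
        _ = av W' := hDe

theorem split_low {s h k : ℕ} (hk : 1 ≤ k) (hks : k < s) (hh : 5 * s + 5 ≤ h) :
    ∃ Sp : GA (Fin s × Fin h), Net (Zf s h k ∪ Ef s h k) Sp (12 * s) ∧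
      av (Top s h k) * ab (Act s h k \ Top s h k) row * Sp *
        (av (Zf s h k) * av (Act s h k \ Zf s h k)) = av (Act s h k) := by
  obtain ⟨Sp, h1, h2⟩ := split_aux hk hks hh (s - 1 - k) (by omega)
  have hA : Wk s h k (s - 1 - k) = Act s h k := by
    ext v
    have := v.1.isLt
    simp only [Wk, Act, Finset.mem_filter, Finset.mem_univ, true_and]
    omega
  rw [hA] at h2
  refine ⟨Sp, h1.mono ?_ (by omega), h2⟩
  intro v hv
  simp only [Zf, EEk, Ef, Finset.mem_union, Finset.mem_filter, Finset.mem_univ, true_and] at hv ⊢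
  omega

end LZS
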