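import Pool.Agent.LZS.KSp
import Pool.Agent.LZS.SplL

/-!
# LZS.Core: the network `B` of stage `k`

PROOF. B = av X * (K * av Z * Sp) * av X, X = Xf k, Z = Zf k, W = Act k, U = Top k.
ab W row = ab U row * ab (W \ U) row (ab_union). av X is absorbed by av (W \ Z) (X ⊆ W \ Z).
AG * ab W row * B * (av Z * av (W\Z))
 = AG * ab U row * ab (W\U) row * av X * K * av Z * Sp * (av Z * av (W\Z))
 [av (U\Z) commutes with Sp ∈ alg (Z ∪ E) and is absorbed by av (W\Z): insert it after av Z; ab (W\U) row commutes with av X, K, av Z, av (U\Z)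
  (all in alg U)]
 = {AG * ab U row * av X * K * (av Z * av (U\Z))} * ab (W\U) row * Sp * (av Z * av (W\Z)) = av U * ab (W\U) row * Sp * (...) = av W.
Cost: av X ≤ s^2 (twice, UB_sq), K 2, av Z 9, Sp 12 s.
-/

open Finset Equiv

noncomputable section

namespace LZS

theorem core {s h k : ℕ} (hk : 1 ≤ k) (hks : k < s) (hh : 5 * s + 5 ≤ h) :
    ∃ Q : GA (Fin s × Fin h), Q ∈ alg (Xf s h k ∪ Zf s h k ∪ Ef s h k) ∧
      Net (Xf s h k ∪ Zf s h k ∪ Ef s h k) (av (Xf s h k) * Q * av (Xf s h k))
        (2 * s ^ 2 + 12 * s + 11) ∧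
      AG s h k * ab (Act s h k) row * (av (Xf s h k) * Q * av (Xf s h k)) *
        (av (Act s h k \ Zf s h k) * av (Zf s h k)) = av (Act s h k) := by
  obtain ⟨K, hK, hKe⟩ := ksplit hk hks hh
  obtain ⟨Sp, hSp, hSpe⟩ := split_low hk hks hh
  have hXcard : (Xf s h k).card ≤ s := by
    have h1 : (Xf s h k).card ≤ (univ : Finset (Fin s)).card := by
      apply Finset.card_le_card_of_injOn (fun v => v.1) (fun v _ => Finset.mem_coe.2 (Finset.mem_univ _))
      intro v hv w hw hvw
      simp only [Xf, Finset.coe_filter, Finset.mem_univ, true_and, Set.mem_ofPred_eq] at hv hw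
      have h2 : v.2 = w.2 := Fin.ext (by omega)
      exact Prod.ext hvw h2
    simpa using h1
  have hZ3 : (Zf s h k).card = 3 := by
    have h1 : Zf s h k = {((⟨k, hks⟩ : Fin s), (⟨h - 3, by omega⟩ : Fin h)),
        (⟨k, hks⟩, ⟨h - 2, by omega⟩), (⟨k, hks⟩, ⟨h - 1, by omega⟩)} := by
      ext ⟨v1, v2⟩
      have := v2.isLt
      simp only [Zf, Finset.mem_filter, Finset.mem_univ, true_and, Finset.mem_insert,
        Finset.mem_singleton, Prod.mk.injEq, Fin.ext_iff]
      omega
    rw [h1, Finset.card_insert_of_notMem, Finset.card_insert_of_notMem, Finset.card_singleton]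
    · simp only [Finset.mem_singleton, Prod.mk.injEq, Fin.ext_iff]; omega
    · simp only [Finset.mem_insert, Finset.mem_singleton, Prod.mk.injEq, Fin.ext_iff]; omega
  have hX : Net (Xf s h k ∪ Zf s h k ∪ Ef s h k) (av (Xf s h k)) (s ^ 2) := by
    have h1 := UB_sq (Xf s h k).card (Fin s × Fin h) (Xf s h k) rfl
    refine h1.mono ?_ (Nat.pow_le_pow_left hXcard 2)
    intro v hv
    exact Finset.mem_union_left _ (Finset.mem_union_left _ hv)
  have hZ : Net (Xf s h k ∪ Zf s h k ∪ Ef s h k) (av (Zf s h k)) 9 := by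
    have h1 := UB_sq 3 (Fin s × Fin h) (Zf s h k) hZ3
    refine h1.mono ?_ (by norm_num)
    intro v hv
    exact Finset.mem_union_left _ (Finset.mem_union_right _ hv)
  have hK' : Net (Xf s h k ∪ Zf s h k ∪ Ef s h k) K 2 := by
    refine hK.mono ?_ le_rfl
    intro v hv
    rcases Finset.mem_union.1 hv with h1 | h1
    · exact Finset.mem_union_left _ (Finset.mem_union_right _ h1)
    · exact Finset.mem_union_left _ (Finset.mem_union_left _ h1)
  have hSp' : Net (Xf s h k ∪ Zf s h k ∪ Ef s h k) Sp (12 * s) := by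
    refine hSp.mono ?_ le_rfl
    intro v hv
    rcases Finset.mem_union.1 hv with h1 | h1
    · exact Finset.mem_union_left _ (Finset.mem_union_right _ h1)
    · exact Finset.mem_union_right _ h1
  have hQ : Net (Xf s h k ∪ Zf s h k ∪ Ef s h k) (K * av (Zf s h k) * Sp) (2 + 9 + 12 * s) :=
    (hK'.mul hZ).mul hSp'
  refine ⟨K * av (Zf s h k) * Sp, hQ.mem_alg, ((hX.mul hQ).mul hX).mono (le_refl _) (by ring_nf; omega),
    ?_⟩
  set X := Xf s h k
  set Z := Zf s h k
  set E := Ef s h k
  set W := Act s h k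
  set U := Top s h k
  have hUW : U ⊆ W := by
    intro v hv
    simp only [U, W, Top, Act, Finset.mem_filter, Finset.mem_univ, true_and] at hv ⊢
    omega
  have hZU : Z ⊆ U := by
    intro v hv
    simp only [U, Z, Top, Zf, Finset.mem_filter, Finset.mem_univ, true_and] at hv ⊢
    omega
  have hXU : X ⊆ U := by
    intro v hv
    simp only [U, X, Top, Xf, Finset.mem_filter, Finset.mem_univ, true_and] at hv ⊢
    omega
  have hXZ : Disjoint X Z := by
    rw [Finset.disjoint_left]
    intro v hv hv'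
    simp only [X, Z, Xf, Zf, Finset.mem_filter, Finset.mem_univ, true_and] at hv hv'
    omega
  have hXWZ : X ⊆ W \ Z := by
    intro v hv
    exact Finset.mem_sdiff.2 ⟨hUW (hXU hv), Finset.disjoint_left.1 hXZ hv⟩
  have hWU : W = U ∪ (W \ U) := by
    rw [Finset.union_sdiff_of_subset hUW]
  have hab : ab W row = ab U row * ab (W \ U) row := by
    conv_lhs => rw [hWU]
    rw [ab_union]
    intro a ha b hb
    simp only [U, W, Top, Act, Finset.mem_filter, Finset.mem_univ, true_and,
      Finset.mem_sdiff] at ha hb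
    simp only [row]
    omega
  -- commutations
  have hdWU : Disjoint (W \ U) U := Finset.sdiff_disjoint
  have m1 : av X ∈ alg U := alg_mono hXU (av_mem_alg X)
  have m2 : K ∈ alg U := by
    refine alg_mono ?_ hK.mem_alg
    intro v hv
    rcases Finset.mem_union.1 hv with h1 | h1
    · exact hZU h1
    · exact hXU h1
  have m3 : av Z ∈ alg U := alg_mono hZU (av_mem_alg Z)
  have m4 : av (U \ Z) ∈ alg U := alg_mono Finset.sdiff_subset (av_mem_alg _)
  have mR : ab (W \ U) row ∈ alg (W \ U) := ab_mem_alg _ _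
  have c0 : ab (W \ U) row * (av X * K * (av Z * av (U \ Z))) =
      (av X * K * (av Z * av (U \ Z))) * ab (W \ U) row :=
    alg_comm hdWU mR (Subalgebra.mul_mem _ (Subalgebra.mul_mem _ m1 m2)
      (Subalgebra.mul_mem _ m3 m4))
  have hdUZE : Disjoint (U \ Z) (Z ∪ E) := by
    rw [Finset.disjoint_left]
    intro v hv hv'
    rcases Finset.mem_union.1 hv' with h1 | h1
    · exact (Finset.mem_sdiff.1 hv).2 h1
    · have h2 := (Finset.mem_sdiff.1 hv).1
      simp only [U, E, Top, Ef, Finset.mem_filter, Finset.mem_univ, true_and] at h1 h2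
      omega
  have c1 : av (U \ Z) * Sp = Sp * av (U \ Z) := alg_comm hdUZE (av_mem_alg _) hSp.mem_alg
  have c2 : av (U \ Z) * av Z = av Z * av (U \ Z) := av_comm Finset.sdiff_disjoint
  have c3 : av (U \ Z) * av (W \ Z) = av (W \ Z) :=
    av_mul_av (Finset.sdiff_subset_sdiff hUW (le_refl _))
  have c4 : av X * av (W \ Z) = av (W \ Z) := av_mul_av hXWZ
  have c5 : av (W \ Z) * av Z = av Z * av (W \ Z) := av_comm Finset.sdiff_disjoint
  calc AG s h k * ab W row * (av X * (K * av Z * Sp) * av X) * (av (W \ Z) * av Z)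
      = AG s h k * ab W row * av X * K * av Z * Sp * (av X * av (W \ Z)) * av Z := by
        simp only [mul_assoc]
    _ = AG s h k * ab W row * av X * K * av Z * Sp * (av (W \ Z) * av Z) := by
        rw [c4]; simp only [mul_assoc]
    _ = AG s h k * ab W row * av X * K * av Z * Sp * (av Z * (av (U \ Z) * av (W \ Z))) := by
        rw [c5, c3]
    _ = AG s h k * ab W row * av X * K * av Z * Sp * ((av (U \ Z) * av Z) * av (W \ Z)) := by
        rw [c2]; simp only [mul_assoc]
    _ = AG s h k * ab W row * av X * K * av Z * (av (U \ Z) * Sp) * (av Z * av (W \ Z)) := by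
        rw [c1]; simp only [mul_assoc]
    _ = AG s h k * ab U row * (ab (W \ U) row * (av X * K * (av Z * av (U \ Z)))) * Sp *
          (av Z * av (W \ Z)) := by
        rw [hab]; simp only [mul_assoc]
    _ = AG s h k * ab U row * av X * K * (av Z * av (U \ Z)) * ab (W \ U) row * Sp *
          (av Z * av (W \ Z)) := by
        rw [c0]; simp only [mul_assoc]
    _ = av U * ab (W \ U) row * Sp * (av Z * av (W \ Z)) := by rw [hKe]
    _ = av W := hSpe

end LZS
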