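import Mathlib

/-!
# LZS: lazy transposition shuffles of length o(n^2) (problem MP_89e859_co)

Real group algebra of `Perm V`, averages over subgroups, networks of lazy transpositions.
-/

open Finset Equiv

noncomputable section

namespace LZS

variable {V : Type} [Fintype V] [DecidableEq V]

/-- the real group algebra of the symmetric group on `V` -/
abbrev GA (V : Type) := MonoidAlgebra ℝ (Perm V)

/-- the basis vector of a permutation -/
def P {V : Type} (g : Perm V) : GA V := MonoidAlgebra.of ℝ (Perm V) g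

omit [Fintype V] [DecidableEq V] in
theorem P_mul (g g' : Perm V) : P (g * g') = P g * P g' := map_mul _ _ _

omit [Fintype V] [DecidableEq V] in
theorem P_one : P (1 : Perm V) = 1 := map_one _

/-- the lazy transposition `(a, b, p)` -/
def lz {V : Type} [DecidableEq V] (x : V × V × ℝ) : GA V :=
  (1 - x.2.2) • (1 : GA V) + x.2.2 • P (swap x.1 x.2.1)

/-- the elements of a subgroup of `Perm V` -/
def elts (H : Subgroup (Perm V)) : Finset (Perm V) := by
  classical exact univ.filter (fun g => g ∈ H)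

theorem mem_elts {H : Subgroup (Perm V)} {g : Perm V} : g ∈ elts H ↔ g ∈ H := by
  classical simp [elts]

theorem elts_card_pos (H : Subgroup (Perm V)) : 0 < (elts H).card :=
  Finset.card_pos.2 ⟨1, mem_elts.2 H.one_mem⟩

/-- the average over a subgroup -/
def avg (H : Subgroup (Perm V)) : GA V := ((elts H).card : ℝ)⁻¹ • ∑ g ∈ elts H, P g

/-- permutations supported in `Y` -/
def sym {V : Type} (Y : Finset V) : Subgroup (Perm V) where
  carrier := {g | ∀ v, v ∉ Y → g v = v}
  one_mem' := fun _ _ => rfl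
  mul_mem' := by
    intro a b ha hb v hv
    have h1 : b v = v := hb v hv
    have h2 : a v = v := ha v hv
    simp [Perm.mul_apply, h1, h2]
  inv_mem' := by
    intro a ha v hv
    have h1 : a v = v := ha v hv
    rw [Perm.inv_eq_iff_eq, h1]

omit [Fintype V] [DecidableEq V] in
theorem mem_sym {Y : Finset V} {g : Perm V} : g ∈ sym Y ↔ ∀ v, v ∉ Y → g v = v := Iff.rfl

/-- permutations supported in `Y` which preserve every fibre of `f` -/
def blk {V : Type} (Y : Finset V) (f : V → ℕ) : Subgroup (Perm V) where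
  carrier := {g | (∀ v, v ∉ Y → g v = v) ∧ ∀ v, f (g v) = f v}
  one_mem' := ⟨fun _ _ => rfl, fun _ => rfl⟩
  mul_mem' := by
    intro a b ha hb
    refine ⟨fun v hv => ?_, fun v => ?_⟩
    · have h1 : b v = v := hb.1 v hv
      have h2 : a v = v := ha.1 v hv
      simp [Perm.mul_apply, h1, h2]
    · rw [Perm.mul_apply, ha.2, hb.2]
  inv_mem' := by
    intro a ha
    refine ⟨fun v hv => ?_, fun v => ?_⟩
    · have h1 : a v = v := ha.1 v hv
      rw [Perm.inv_eq_iff_eq, h1]
    · have h1 := ha.2 (a⁻¹ v)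
      have h2 : a (a⁻¹ v) = v := a.apply_symm_apply v
      rw [h2] at h1
      exact h1.symm

omit [Fintype V] [DecidableEq V] in
theorem mem_blk {Y : Finset V} {f : V → ℕ} {g : Perm V} :
    g ∈ blk Y f ↔ (∀ v, v ∉ Y → g v = v) ∧ ∀ v, f (g v) = f v := Iff.rfl

/-- uniform random permutation of the set `Y` -/
def av (Y : Finset V) : GA V := avg (sym Y)

/-- independent uniform random permutations of the sets `{v ∈ Y | f v = i}` -/
def ab (Y : Finset V) (f : V → ℕ) : GA V := avg (blk Y f)

/-- the part of the group algebra supported in `Y` -/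
def alg {V : Type} (Y : Finset V) : Subalgebra ℝ (GA V) :=
  Algebra.adjoin ℝ (P '' (sym Y : Set (Perm V)))

/-- `Q` is the product of at most `c` lazy transpositions with both sites in `Y` -/
def Net {V : Type} [DecidableEq V] (Y : Finset V) (Q : GA V) (c : ℕ) : Prop :=
  ∃ l : List (V × V × ℝ), l.length ≤ c ∧
    (∀ x ∈ l, x.1 ∈ Y ∧ x.2.1 ∈ Y ∧ x.1 ≠ x.2.1 ∧ 0 ≤ x.2.2 ∧ x.2.2 ≤ 1) ∧
    (l.map lz).prod = Q

/-- `U(n) ≤ c`, for every set `Y` with `n` elements -/
def UB (n c : ℕ) : Prop :=
  ∀ (V : Type) [Fintype V] [DecidableEq V] (Y : Finset V), Y.card = n → Net Y (av Y) c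

/-- `S(n,t) ≤ c`: at most `c` lazy transpositions take the tokens on `T` to a uniform random
`t`-subset of `Y` -/
def SB (n t c : ℕ) : Prop :=
  ∀ (V : Type) [Fintype V] [DecidableEq V] (Y T : Finset V), Y.card = n → T ⊆ Y → T.card = t →
    ∃ Q : GA V, Net Y Q c ∧ Q * (av T * av (Y \ T)) = av Y

/-! ## basic facts -/

section basic

theorem P_mul_avg {H : Subgroup (Perm V)} {g : Perm V} (hg : g ∈ H) : P g * avg H = avg H := by
  unfold avg
  rw [mul_smul_comm, Finset.mul_sum]
  congr 1
  refine Finset.sum_bij (fun x _ => g * x) ?_ ?_ ?_ ?_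
  · intro x hx; exact mem_elts.2 (H.mul_mem hg (mem_elts.1 hx))
  · intro a _ b _ hab; exact mul_left_cancel hab
  · intro b hb
    exact ⟨g⁻¹ * b, mem_elts.2 (H.mul_mem (H.inv_mem hg) (mem_elts.1 hb)), by group⟩
  · intro a _; rw [P_mul]

theorem avg_mul_P {H : Subgroup (Perm V)} {g : Perm V} (hg : g ∈ H) : avg H * P g = avg H := by
  unfold avg
  rw [smul_mul_assoc, Finset.sum_mul]
  congr 1
  refine Finset.sum_bij (fun x _ => x * g) ?_ ?_ ?_ ?_
  · intro x hx; exact mem_elts.2 (H.mul_mem (mem_elts.1 hx) hg)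
  · intro a _ b _ hab; exact mul_right_cancel hab
  · intro b hb
    exact ⟨b * g⁻¹, mem_elts.2 (H.mul_mem (mem_elts.1 hb) (H.inv_mem hg)), by group⟩
  · intro a _; rw [P_mul]

/-- if `Q` is fixed by left multiplication with `H`, then by `avg H` -/
theorem avg_mul_eq {H : Subgroup (Perm V)} {Q : GA V} (h : ∀ g ∈ H, P g * Q = Q) :
    avg H * Q = Q := by
  unfold avg
  rw [smul_mul_assoc, Finset.sum_mul, Finset.sum_congr rfl (fun g hg => h g (mem_elts.1 hg)),
    Finset.sum_const, ← Nat.cast_smul_eq_nsmul ℝ, smul_smul, inv_mul_cancel₀, one_smul]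
  exact_mod_cast (elts_card_pos H).ne'

theorem mul_avg_eq {H : Subgroup (Perm V)} {Q : GA V} (h : ∀ g ∈ H, Q * P g = Q) :
    Q * avg H = Q := by
  unfold avg
  rw [mul_smul_comm, Finset.mul_sum, Finset.sum_congr rfl (fun g hg => h g (mem_elts.1 hg)),
    Finset.sum_const, ← Nat.cast_smul_eq_nsmul ℝ, smul_smul, inv_mul_cancel₀, one_smul]
  exact_mod_cast (elts_card_pos H).ne'

theorem avg_mul_of_le {H K : Subgroup (Perm V)} (h : H ≤ K) : avg H * avg K = avg K :=
  avg_mul_eq fun _ hg => P_mul_avg (h hg)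

theorem mul_avg_of_le {H K : Subgroup (Perm V)} (h : H ≤ K) : avg K * avg H = avg K :=
  mul_avg_eq fun _ hg => avg_mul_P (h hg)

/-- conjugation-invariant averages -/
theorem P_comm_avg {H : Subgroup (Perm V)} {g : Perm V} (h : ∀ x ∈ H, g * x * g⁻¹ ∈ H) :
    P g * avg H = avg H * P g := by
  unfold avg
  rw [mul_smul_comm, smul_mul_assoc, Finset.mul_sum, Finset.sum_mul]
  congr 1
  have hinj : Function.Injective (fun x : Perm V => g * x * g⁻¹) := by
    intro a b hab
    exact mul_left_cancel (mul_right_cancel hab)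
  have himg : (elts H).image (fun x => g * x * g⁻¹) = elts H := by
    apply Finset.eq_of_subset_of_card_le
    · intro y hy
      obtain ⟨x, hx, rfl⟩ := Finset.mem_image.1 hy
      exact mem_elts.2 (h x (mem_elts.1 hx))
    · rw [Finset.card_image_of_injective _ hinj]
  have h1 : ∑ x ∈ elts H, P x * P g = ∑ x ∈ elts H, P (g * x * g⁻¹) * P g := by
    conv_lhs => rw [← himg]
    rw [Finset.sum_image (fun a _ b _ hab => hinj hab)]
  rw [h1]
  refine Finset.sum_congr rfl fun x _ => ?_
  rw [← P_mul, ← P_mul]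
  congr 1
  group

/-- averages over elementwise commuting subgroups whose product is `L` -/
theorem avg_mul_avg {H K L : Subgroup (Perm V)} (hH : H ≤ L) (hK : K ≤ L)
    (hc : ∀ a ∈ H, ∀ b ∈ K, a * b = b * a) (hL : ∀ l ∈ L, ∃ a ∈ H, ∃ b ∈ K, l = a * b) :
    avg H * avg K = avg L := by
  have h1 : avg H * avg K * avg L = avg L := by
    rw [mul_assoc, avg_mul_of_le hK, avg_mul_of_le hH]
  have h2 : avg H * avg K * avg L = avg H * avg K := by
    apply mul_avg_eq
    intro l hl
    obtain ⟨a, ha, b, hb, rfl⟩ := hL l hl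
    have h3 : avg K * P a = P a * avg K := by
      symm
      apply P_comm_avg
      intro x hx
      rw [hc a ha x hx]
      simpa using hx
    rw [P_mul, ← mul_assoc, mul_assoc (avg H), h3, ← mul_assoc, avg_mul_P ha, mul_assoc,
      avg_mul_P hb]
  rw [← h2, h1]

omit [Fintype V] [DecidableEq V] in
theorem P_mem_alg {Y : Finset V} {g : Perm V} (hg : g ∈ sym Y) : P g ∈ alg Y :=
  Algebra.subset_adjoin ⟨g, hg, rfl⟩

theorem avg_mem_alg {Y : Finset V} {H : Subgroup (Perm V)} (h : H ≤ sym Y) : avg H ∈ alg Y :=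
  Subalgebra.smul_mem _ (Subalgebra.sum_mem _ fun _ hg => P_mem_alg (h (mem_elts.1 hg))) _

omit [Fintype V] [DecidableEq V] in
theorem sym_mono {Y Y' : Finset V} (h : Y ⊆ Y') : sym Y ≤ sym Y' :=
  fun _ hg v hv => hg v (fun hv' => hv (h hv'))

omit [Fintype V] [DecidableEq V] in
theorem alg_mono {Y Y' : Finset V} (h : Y ⊆ Y') : alg Y ≤ alg Y' :=
  Algebra.adjoin_mono (Set.image_mono (sym_mono h))

theorem av_mem_alg (Y : Finset V) : av Y ∈ alg Y := avg_mem_alg le_rfl

omit [Fintype V] [DecidableEq V] in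
theorem blk_le_sym (Y : Finset V) (f : V → ℕ) : blk Y f ≤ sym Y := fun _ hg => hg.1

theorem ab_mem_alg (Y : Finset V) (f : V → ℕ) : ab Y f ∈ alg Y := avg_mem_alg (blk_le_sym Y f)

omit [Fintype V] in
theorem swap_mem_sym {Y : Finset V} {a b : V} (ha : a ∈ Y) (hb : b ∈ Y) : swap a b ∈ sym Y := by
  intro v hv
  exact swap_apply_of_ne_of_ne (fun h => hv (h ▸ ha)) (fun h => hv (h ▸ hb))

omit [Fintype V] in
theorem lz_mem_alg {Y : Finset V} {x : V × V × ℝ} (ha : x.1 ∈ Y) (hb : x.2.1 ∈ Y) :
    lz x ∈ alg Y :=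
  Subalgebra.add_mem _ (Subalgebra.smul_mem _ (Subalgebra.one_mem _) _)
    (Subalgebra.smul_mem _ (P_mem_alg (swap_mem_sym ha hb)) _)

omit [Fintype V] [DecidableEq V] in
/-- permutations with disjoint supports commute -/
theorem sym_comm {Y Y' : Finset V} (h : Disjoint Y Y') {a b : Perm V} (ha : a ∈ sym Y)
    (hb : b ∈ sym Y') : a * b = b * a := by
  have hd : ∀ v, v ∉ Y ∨ v ∉ Y' := by
    intro v
    by_contra hc
    push Not at hc
    exact Finset.disjoint_left.1 h hc.1 hc.2
  have hd2 : Perm.Disjoint a b := by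
    intro v
    rcases hd v with h1 | h1
    · exact Or.inl (ha v h1)
    · exact Or.inr (hb v h1)
  exact hd2.commute

omit [Fintype V] [DecidableEq V] in
theorem alg_comm {Y Y' : Finset V} (h : Disjoint Y Y') {a b : GA V} (ha : a ∈ alg Y)
    (hb : b ∈ alg Y') : a * b = b * a := by
  have h1 : ∀ x ∈ P '' (sym Y : Set (Perm V)), ∀ y ∈ P '' (sym Y' : Set (Perm V)),
      x * y = y * x := by
    rintro _ ⟨g, hg, rfl⟩ _ ⟨g', hg', rfl⟩
    rw [← P_mul, ← P_mul, sym_comm h hg hg']
  have h2 : ∀ x ∈ P '' (sym Y : Set (Perm V)), ∀ y ∈ alg Y', x * y = y * x := by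
    intro x hx y hy
    induction hy using Algebra.adjoin_induction with
    | mem z hz => exact h1 x hx z hz
    | algebraMap r => exact (Algebra.commutes r x).symm
    | add z w _ _ hz hw => rw [mul_add, add_mul, hz, hw]
    | mul z w _ _ hz hw => rw [← mul_assoc, hz, mul_assoc, hw, mul_assoc]
  induction ha using Algebra.adjoin_induction with
  | mem z hz => exact h2 z hz b hb
  | algebraMap r => exact Algebra.commutes r b
  | add z w _ _ hz hw => rw [mul_add, add_mul, hz, hw]
  | mul z w _ _ hz hw => rw [mul_assoc, hw, ← mul_assoc, hz, mul_assoc]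

theorem av_comm {Y Y' : Finset V} (h : Disjoint Y Y') : av Y * av Y' = av Y' * av Y :=
  alg_comm h (av_mem_alg _) (av_mem_alg _)

theorem av_mul_av {Y Y' : Finset V} (h : Y ⊆ Y') : av Y * av Y' = av Y' :=
  avg_mul_of_le (sym_mono h)

theorem mul_av_av {Y Y' : Finset V} (h : Y ⊆ Y') : av Y' * av Y = av Y' :=
  mul_avg_of_le (sym_mono h)

/-- a permutation is in the algebra supported on `Y` iff ... : left multiplication by elements of
`sym Y` is absorbed by the stabiliser-type right factors -/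
theorem av_empty : av (∅ : Finset V) = 1 := by
  have h : ∀ g ∈ sym (∅ : Finset V), g = 1 := by
    intro g hg
    ext v
    exact hg v (Finset.notMem_empty v)
  have h2 : avg (sym (∅ : Finset V)) * 1 = 1 := by
    apply avg_mul_eq
    intro g hg
    rw [h g hg, P_one, one_mul]
  rw [mul_one] at h2
  exact h2

/-! ## networks -/

omit [Fintype V] in
theorem Net.one (Y : Finset V) : Net Y 1 0 := ⟨[], by simp, by simp, by simp⟩

omit [Fintype V] in
theorem Net.mono {Y Y' : Finset V} {Q : GA V} {c c' : ℕ} (h : Net Y Q c) (hY : Y ⊆ Y')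
    (hc : c ≤ c') : Net Y' Q c' := by
  obtain ⟨l, h1, h2, h3⟩ := h
  exact ⟨l, h1.trans hc, fun x hx => ⟨hY (h2 x hx).1, hY (h2 x hx).2.1, (h2 x hx).2.2⟩, h3⟩

omit [Fintype V] in
theorem Net.mul {Y : Finset V} {Q Q' : GA V} {c c' : ℕ} (h : Net Y Q c) (h' : Net Y Q' c') :
    Net Y (Q * Q') (c + c') := by
  obtain ⟨l, h1, h2, h3⟩ := h
  obtain ⟨l', h1', h2', h3'⟩ := h'
  refine ⟨l ++ l', by simp; omega, ?_, by simp [h3, h3']⟩
  intro x hx
  rcases List.mem_append.1 hx with hx | hx
  · exact h2 x hx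
  · exact h2' x hx

omit [Fintype V] in
theorem Net.single {Y : Finset V} {a b : V} {p : ℝ} (ha : a ∈ Y) (hb : b ∈ Y) (hab : a ≠ b)
    (hp0 : 0 ≤ p) (hp1 : p ≤ 1) : Net Y (lz (a, b, p)) 1 :=
  ⟨[(a, b, p)], by simp, by simp [ha, hb, hab, hp0, hp1], by simp⟩

omit [Fintype V] in
theorem Net.mem_alg {Y : Finset V} {Q : GA V} {c : ℕ} (h : Net Y Q c) : Q ∈ alg Y := by
  obtain ⟨l, _, h2, rfl⟩ := h
  apply Subalgebra.list_prod_mem
  intro x hx
  obtain ⟨y, hy, rfl⟩ := List.mem_map.1 hx
  exact lz_mem_alg (h2 y hy).1 (h2 y hy).2.1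

/-! ## block averages -/

omit [Fintype V] in
/-- the restriction of a permutation which maps `A` into itself -/
theorem exists_restrict {A : Finset V} {g : Perm V} (hg : ∀ v, v ∈ A → g v ∈ A) :
    ∃ x ∈ sym A, (∀ v ∈ A, x v = g v) ∧ ∀ v ∈ A, (x⁻¹ * g) v = v := by
  have hinj : Set.InjOn g (A : Set V) := g.injective.injOn
  have himg : A.image g = A := by
    apply Finset.eq_of_subset_of_card_le
    · intro y hy
      obtain ⟨x, hx, rfl⟩ := Finset.mem_image.1 hy
      exact hg x hx
    · rw [Finset.card_image_of_injective _ g.injective]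
  have hg' : ∀ v, v ∈ A → g⁻¹ v ∈ A := by
    intro v hv
    rw [← himg] at hv
    obtain ⟨x, hx, rfl⟩ := Finset.mem_image.1 hv
    simpa using hx
  let x : Perm V :=
    { toFun := fun v => if v ∈ A then g v else v
      invFun := fun v => if v ∈ A then g⁻¹ v else v
      left_inv := by
        intro v
        by_cases hv : v ∈ A
        · simp [hv, hg v hv]
        · simp [hv]
      right_inv := by
        intro v
        by_cases hv : v ∈ A
        · simp only [hv, if_true, hg' v hv]
          exact g.apply_symm_apply v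
        · simp [hv] }
  refine ⟨x, ?_, ?_, ?_⟩
  · intro v hv
    simp [x, hv]
  · intro v hv
    simp [x, hv]
  · intro v hv
    rw [Perm.mul_apply, Perm.inv_eq_iff_eq]
    simp [x, hv]

/-- `ab` splits along a union of disjoint sets which share no fibre of `f` -/
theorem ab_union {A B : Finset V} {f : V → ℕ} (h : ∀ a ∈ A, ∀ b ∈ B, f a ≠ f b) :
    ab A f * ab B f = ab (A ∪ B) f := by
  have hdis : Disjoint A B := by
    rw [Finset.disjoint_left]
    intro a ha hb
    exact h a ha a hb rfl
  apply avg_mul_avg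
  · intro g hg
    exact ⟨fun v hv => hg.1 v (fun h' => hv (Finset.mem_union_left _ h')), hg.2⟩
  · intro g hg
    exact ⟨fun v hv => hg.1 v (fun h' => hv (Finset.mem_union_right _ h')), hg.2⟩
  · intro a ha b hb
    exact sym_comm hdis ha.1 hb.1
  · intro l hl
    have hA : ∀ v, v ∈ A → l v ∈ A := by
      intro v hv
      have h1 := hl.2 v
      by_contra hc
      by_cases hB : l v ∈ B
      · exact h v hv _ hB h1.symm
      · have h2 : l (l v) = l v := hl.1 (l v) (by
          rw [Finset.mem_union]; push Not; exact ⟨hc, hB⟩)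
        have h3 : l v = v := l.injective h2
        exact hc (h3.symm ▸ hv)
    obtain ⟨x, hx, hx1, hx2⟩ := exists_restrict hA
    refine ⟨x, ⟨hx, ?_⟩, x⁻¹ * l, ⟨?_, ?_⟩, by group⟩
    · intro v
      by_cases hv : v ∈ A
      · rw [hx1 v hv]; exact hl.2 v
      · rw [hx v hv]
    · intro v hv
      by_cases hvA : v ∈ A
      · exact hx2 v hvA
      · have h1 : l v = v := hl.1 v (by rw [Finset.mem_union]; push Not; exact ⟨hvA, hv⟩)
        rw [Perm.mul_apply, h1, Perm.inv_eq_iff_eq]
        exact (hx v hvA).symm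
    · intro v
      by_cases hvA : v ∈ A
      · rw [hx2 v hvA]
      · have h1 : l v ∉ A := by
          intro h2
          have h3 : l v ∈ A.image l := by
            have : A.image l = A := by
              apply Finset.eq_of_subset_of_card_le
              · intro y hy
                obtain ⟨z, hz, rfl⟩ := Finset.mem_image.1 hy
                exact hA z hz
              · rw [Finset.card_image_of_injective _ l.injective]
            rw [this]; exact h2
          obtain ⟨z, hz, hz2⟩ := Finset.mem_image.1 h3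
          exact hvA (l.injective hz2 ▸ hz)
        have h2 : x⁻¹ (l v) = l v := (sym A).inv_mem hx (l v) h1
        rw [Perm.mul_apply, h2]
        exact hl.2 v

/-- if `f` is constant on `Y` then `ab Y f = av Y` -/
theorem ab_const {Y : Finset V} {f : V → ℕ} (h : ∀ a ∈ Y, ∀ b ∈ Y, f a = f b) :
    ab Y f = av Y := by
  have h1 : blk Y f = sym Y := by
    apply le_antisymm (blk_le_sym Y f)
    intro g hg
    refine ⟨hg, fun v => ?_⟩
    by_cases hv : v ∈ Y
    · apply h _ _ _ hv
      by_contra hc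
      have h2 : g (g v) = g v := hg _ hc
      have h3 : g v = v := g.injective h2
      exact hc (h3.symm ▸ hv)
    · rw [hg v hv]
  unfold ab av
  rw [h1]

/-- splitting off one block -/
theorem ab_split (Y : Finset V) (f : V → ℕ) (i : ℕ) :
    ab Y f = av (Y.filter (fun v => f v = i)) * ab (Y.filter (fun v => f v ≠ i)) f := by
  rw [← ab_const (f := f) (Y := Y.filter (fun v => f v = i)), ab_union]
  · congr 1
    rw [Finset.filter_union_filter_not_eq]
  · intro a ha b hb
    rw [(Finset.mem_filter.1 ha).2]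
    exact fun hc => (Finset.mem_filter.1 hb).2 hc.symm
  · intro a ha b hb
    rw [(Finset.mem_filter.1 ha).2, (Finset.mem_filter.1 hb).2]

theorem av_mul_ab {Y A : Finset V} {f : V → ℕ} (hA : A ⊆ Y)
    (hf : ∀ a ∈ A, ∀ b ∈ A, f a = f b) : av A * ab Y f = ab Y f := by
  apply avg_mul_of_le
  intro g hg
  refine ⟨fun v hv => hg v (fun h => hv (hA h)), fun v => ?_⟩
  by_cases hv : v ∈ A
  · apply hf _ _ _ hv
    by_contra hc
    have h2 : g (g v) = g v := hg _ hc
    have h3 : g v = v := g.injective h2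
    exact hc (h3.symm ▸ hv)
  · rw [hg v hv]

theorem ab_mul_ab {Y A : Finset V} {f : V → ℕ} (hA : A ⊆ Y) : ab A f * ab Y f = ab Y f :=
  avg_mul_of_le fun _ hg => ⟨fun v hv => hg.1 v (fun h => hv (hA h)), hg.2⟩

theorem mul_ab_ab {Y A : Finset V} {f : V → ℕ} (hA : A ⊆ Y) : ab Y f * ab A f = ab Y f :=
  mul_avg_of_le fun _ hg => ⟨fun v hv => hg.1 v (fun h => hv (hA h)), hg.2⟩

theorem ab_mul_av {Y A : Finset V} {f : V → ℕ} (hA : Y ⊆ A) : ab Y f * av A = av A :=
  avg_mul_of_le fun _ hg => fun v hv => hg.1 v (fun h => hv (hA h))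

end basic

end LZS
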