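import Pool.Agent.LZS.Push

/-!
# LZS.Extr: making one virtual site explicit

`extr1`. L = set of sites, H ⊂ L the hub, u ∈ L \ H, x ∈ H:
`av L = av (L \ {u}) * lz (x, u, |H|/|L|) * (av H * av (L \ H))`.
PROOF: `push_crit` with Y = L, T = H, Q = av (L.erase u) * lz (x,u,p), p = |H|/|L|. For S ⊆ L, |S| = |H|:
`push H Q S = (1-p) push H (av (L.erase u)) S + p push (H with x replaced by u) (av (L.erase u)) S`
(lz = (1-p)•1 + p•P (swap x u), `push_mul_P`). By `push_avg_orbit` (H := sym (L.erase u), orbits = sets with the
same trace outside L.erase u and the same size inside; transitivity: `exists_sym_map`):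
if u ∉ S: (1-p) / C(|L|-1,|H|) = 1/C(|L|,|H|); if u ∈ S: p / C(|L|-1,|H|-1) = 1/C(|L|,|H|).
Then reorder: `push_crit` gives exactly the claim.

`extr_all`: induction on E. Let (E', Ex') be done, Y' = Y \ E', π' = Ex' * π, u ∈ E \ E', L = {v ∈ Y' | f v = f u},
H = Hb ∩ L. Y = Y' : `ab Y' f = av L * ab (Y' \ L) f` (ab_split), `ab (Y'.erase u) f = av (L.erase u) * ab (Y' \ L) f`.
Case H = ∅: L is disjoint from Hb ∪ E', so `av L * π' * Y1 = π' * av L * Y1 = π' * Y1` (L ⊆ Y \ Hb, so av L is
absorbed by Y1 via hY1 and av_mul_av), the same for L.erase u: take Ex = Ex'. Case x ∈ H: extr1 and: av (L \ H)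
commutes with π' (∈ alg (Hb ∪ E'), disjoint) and is absorbed by Y1; av H * π' = π' because av H is absorbed by ab Hb f
(av_mul_ab). So ab Y' f * π' * Y1 = ab (Y'.erase u) f * (lz (x,u,p) * π') * Y1, and ab Hb f may be inserted in front of
lz (mul_ab_ab: Hb ⊆ Y'.erase u): Ex = ab Hb f * lz (x,u,p) * Ex'. Cost csh + 1 per site.
-/

open Finset Equiv

noncomputable section

namespace LZS

variable {V : Type} [Fintype V] [DecidableEq V]

private theorem extr_map_sub {Y B : Finset V} {g : Perm V} (hg : g ∈ sym Y) (hB : B ⊆ Y) :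
    B.map g.toEmbedding ⊆ Y := by
  intro w hw
  obtain ⟨v, hv, rfl⟩ := Finset.mem_map.1 hw
  change g v ∈ Y
  by_contra hc
  have h2 : g (g v) = g v := hg _ hc
  have h3 : g v = v := g.injective h2
  exact hc (h3.symm ▸ hB hv)

/-- the image of a subset of `Y` under a uniform random permutation of `Y` -/
private theorem extr_push_sub {Y A : Finset V} (hA : A ⊆ Y) (S : Finset V) :
    push A (av Y) S = if S ∈ Finset.powersetCard A.card Y then
      ((Y.card.choose A.card : ℝ))⁻¹ else 0 := by
  have h := push_avg_orbit (sym Y) A (Finset.powersetCard A.card Y) ?_ ?_ ?_ S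
  · rw [Finset.card_powersetCard] at h
    exact h
  · intro g hg S hS
    rw [Finset.mem_powersetCard] at hS ⊢
    exact ⟨extr_map_sub hg hS.1, by rw [Finset.card_map]; exact hS.2⟩
  · rw [Finset.mem_powersetCard]
    exact ⟨hA, rfl⟩
  · intro S hS
    rw [Finset.mem_powersetCard] at hS
    exact exists_sym_map hA hS.1 hS.2.symm

private theorem extr_insert_inj {Y : Finset V} {u : V} (hu : u ∉ Y) (k : ℕ) :
    Set.InjOn (fun B : Finset V => insert u B) (Finset.powersetCard k Y : Set (Finset V)) := by
  intro B hB C hC h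
  rw [Finset.mem_coe, Finset.mem_powersetCard] at hB hC
  have h1 : (insert u B).erase u = (insert u C).erase u := by
    change insert u B = insert u C at h
    rw [h]
  rwa [Finset.erase_insert (fun h' => hu (hB.1 h')),
    Finset.erase_insert (fun h' => hu (hC.1 h'))] at h1

/-- the same with one more fixed site `u ∉ Y` -/
private theorem extr_push_insert {Y A : Finset V} {u : V} (hA : A ⊆ Y) (hu : u ∉ Y)
    (S : Finset V) :
    push (insert u A) (av Y) S =
      if S ∈ (Finset.powersetCard A.card Y).image (fun B => insert u B) then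
      ((Y.card.choose A.card : ℝ))⁻¹ else 0 := by
  have hmap : ∀ g ∈ sym Y, ∀ B : Finset V,
      (insert u B).map g.toEmbedding = insert u (B.map g.toEmbedding) := by
    intro g hg B
    rw [Finset.map_insert]
    congr 1
    exact hg u hu
  have h := push_avg_orbit (sym Y) (insert u A)
    ((Finset.powersetCard A.card Y).image (fun B => insert u B)) ?_ ?_ ?_ S
  · rw [Finset.card_image_of_injOn (extr_insert_inj hu _), Finset.card_powersetCard] at h
    exact h
  · intro g hg S hS
    obtain ⟨B, hB, rfl⟩ := Finset.mem_image.1 hS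
    rw [Finset.mem_powersetCard] at hB
    rw [hmap g hg B]
    refine Finset.mem_image.2 ⟨B.map g.toEmbedding, ?_, rfl⟩
    rw [Finset.mem_powersetCard]
    exact ⟨extr_map_sub hg hB.1, by rw [Finset.card_map]; exact hB.2⟩
  · refine Finset.mem_image.2 ⟨A, ?_, rfl⟩
    rw [Finset.mem_powersetCard]
    exact ⟨hA, rfl⟩
  · intro S hS
    obtain ⟨B, hB, rfl⟩ := Finset.mem_image.1 hS
    rw [Finset.mem_powersetCard] at hB
    obtain ⟨g, hg, hgB⟩ := exists_sym_map hA hB.1 hB.2.symm
    exact ⟨g, hg, by rw [hmap g hg A, hgB]⟩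

theorem extr1 {L H : Finset V} {x u : V} (hH : H ⊆ L) (hx : x ∈ H) (hu : u ∈ L) (huH : u ∉ H) :
    av L = av (L.erase u) * lz (x, u, (H.card : ℝ) / L.card) * (av H * av (L \ H)) := by
  have hxL : x ∈ L := hH hx
  have hxu : x ≠ u := fun h => huH (h ▸ hx)
  have hHe : H ⊆ L.erase u := fun v hv =>
    Finset.mem_erase.2 ⟨fun h => huH (h ▸ hv), hH hv⟩
  have hLc : (L.erase u).card + 1 = L.card := Finset.card_erase_add_one hu
  have hHc : (H.erase x).card + 1 = H.card := Finset.card_erase_add_one hx
  have hle : H.card ≤ (L.erase u).card := Finset.card_le_card hHe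
  have hmem : av (L.erase u) * lz (x, u, (H.card : ℝ) / L.card) ∈ alg L :=
    Subalgebra.mul_mem _ (alg_mono (Finset.erase_subset _ _) (av_mem_alg _))
      (lz_mem_alg (x := (x, u, (H.card : ℝ) / L.card)) hxL hu)
  symm
  refine push_crit hmem hH ?_
  intro S hS hSc
  have hmapH : H.map (swap x u).toEmbedding = insert u (H.erase x) := by
    ext v
    rw [Finset.mem_map, Finset.mem_insert, Finset.mem_erase]
    constructor
    · rintro ⟨w, hw, rfl⟩
      change swap x u w = u ∨ swap x u w ≠ x ∧ swap x u w ∈ H
      by_cases hwx : w = x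
      · left; rw [hwx, swap_apply_left]
      · have hwu : w ≠ u := fun h => huH (h ▸ hw)
        right
        rw [swap_apply_of_ne_of_ne hwx hwu]
        exact ⟨hwx, hw⟩
    · rintro (h | ⟨h1, h2⟩)
      · exact ⟨x, hx, by rw [h]; exact swap_apply_left x u⟩
      · refine ⟨v, h2, ?_⟩
        have hvu : v ≠ u := fun h => huH (h ▸ h2)
        exact swap_apply_of_ne_of_ne h1 hvu
  have hexp : push H (av (L.erase u) * lz (x, u, (H.card : ℝ) / L.card)) S
      = (1 - (H.card : ℝ) / L.card) * push H (av (L.erase u)) S
        + (H.card : ℝ) / L.card * push (insert u (H.erase x)) (av (L.erase u)) S := by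
    unfold lz
    rw [mul_add, mul_smul_comm, mul_smul_comm, mul_one, push_add, push_smul, push_smul,
      push_mul_P, hmapH]
  rw [hexp, extr_push_sub hHe,
    extr_push_insert (fun v hv => hHe (Finset.mem_of_mem_erase hv)) (Finset.notMem_erase u L)]
  have hL0 : (L.card : ℝ) ≠ 0 := by
    have : L.card ≠ 0 := by omega
    exact_mod_cast this
  have hC0 : (L.card.choose H.card : ℝ) ≠ 0 := by
    have : 0 < L.card.choose H.card := Nat.choose_pos (by omega)
    exact_mod_cast this.ne'
  by_cases huS : u ∈ S
  · -- `u ∈ S`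
    have h1 : S ∉ Finset.powersetCard H.card (L.erase u) := by
      intro h
      rw [Finset.mem_powersetCard] at h
      exact (Finset.mem_erase.1 (h.1 huS)).1 rfl
    have h2 : S ∈ (Finset.powersetCard (H.erase x).card (L.erase u)).image
        (fun B => insert u B) := by
      refine Finset.mem_image.2 ⟨S.erase u, ?_, Finset.insert_erase huS⟩
      rw [Finset.mem_powersetCard]
      refine ⟨Finset.erase_subset_erase u hS, ?_⟩
      have := Finset.card_erase_add_one huS
      omega
    rw [if_neg h1, if_pos h2, mul_zero, zero_add]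
    have h3 : (L.erase u).card.choose (H.erase x).card ≠ 0 :=
      (Nat.choose_pos (by omega)).ne'
    have h3' : ((L.erase u).card.choose (H.erase x).card : ℝ) ≠ 0 := by exact_mod_cast h3
    have h4 : L.card * (L.erase u).card.choose (H.erase x).card
        = L.card.choose H.card * H.card := by
      have := Nat.add_one_mul_choose_eq (L.erase u).card (H.erase x).card
      rw [hLc, hHc] at this
      exact this
    have h4' : (L.card : ℝ) * (L.erase u).card.choose (H.erase x).card
        = L.card.choose H.card * H.card := by exact_mod_cast h4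
    field_simp
    linarith
  · -- `u ∉ S`
    have h1 : S ∈ Finset.powersetCard H.card (L.erase u) := by
      rw [Finset.mem_powersetCard]
      exact ⟨fun v hv => Finset.mem_erase.2 ⟨fun h => huS (h ▸ hv), hS hv⟩, hSc⟩
    have h2 : S ∉ (Finset.powersetCard (H.erase x).card (L.erase u)).image
        (fun B => insert u B) := by
      intro h
      obtain ⟨B, _, rfl⟩ := Finset.mem_image.1 h
      exact huS (Finset.mem_insert_self _ _)
    rw [if_pos h1, if_neg h2, mul_zero, add_zero]
    have h3 : (L.erase u).card.choose H.card ≠ 0 :=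
      (Nat.choose_pos hle).ne'
    have h3' : ((L.erase u).card.choose H.card : ℝ) ≠ 0 := by exact_mod_cast h3
    have h4 : (L.erase u).card.choose H.card * L.card
        = L.card.choose H.card * (L.card - H.card) := by
      have := Nat.choose_mul_succ_eq (L.erase u).card H.card
      rw [hLc] at this
      exact this
    have h4' : ((L.erase u).card.choose H.card : ℝ) * L.card
        = L.card.choose H.card * (L.card - H.card) := by
      have h5 : ((L.card - H.card : ℕ) : ℝ) = (L.card : ℝ) - H.card :=
        Nat.cast_sub (by omega)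
      rw [← h5]
      exact_mod_cast h4
    field_simp
    linarith

theorem extr_all (Y Hb E : Finset V) (f : V → ℕ) (hHb : Hb ⊆ Y) (hE : E ⊆ Y \ Hb)
    (π Y1 : GA V) (hπ : π ∈ alg Hb) (hsh : ab Hb f * π = π) (hY1 : av (Y \ Hb) * Y1 = Y1)
    (csh : ℕ) (hc : Net Hb (ab Hb f) csh) :
    ∃ Ex : GA V, Net (Hb ∪ E) Ex (E.card * (csh + 1)) ∧
      ab Y f * π * Y1 = ab (Y \ E) f * (Ex * π) * Y1 ∧ ab Hb f * (Ex * π) = Ex * π := by
  induction E using Finset.induction_on with
  | empty =>
    refine ⟨1, (Net.one _).mono (Finset.Subset.refl _) (Nat.zero_le _), ?_, ?_⟩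
    · rw [Finset.sdiff_empty, one_mul]
    · rw [one_mul, hsh]
  | insert u E' huE ih =>
    obtain ⟨Ex', hN, hEq, hS⟩ := ih (fun v hv => hE (Finset.mem_insert_of_mem hv))
    have huY : u ∈ Y \ Hb := hE (Finset.mem_insert_self _ _)
    rw [Finset.mem_sdiff] at huY
    have hE'd : ∀ v ∈ E', v ∈ Y ∧ v ∉ Hb := fun v hv =>
      Finset.mem_sdiff.1 (hE (Finset.mem_insert_of_mem hv))
    set Y' := Y \ E' with hY'
    have hHbY' : Hb ⊆ Y' := fun v hv =>
      Finset.mem_sdiff.2 ⟨hHb hv, fun h => (hE'd v h).2 hv⟩
    have huY' : u ∈ Y' := Finset.mem_sdiff.2 ⟨huY.1, huE⟩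
    have hYe : Y \ insert u E' = Y'.erase u := by
      ext v
      rw [Finset.mem_sdiff, Finset.mem_insert, Finset.mem_erase, hY', Finset.mem_sdiff]
      tauto
    have hπ' : Ex' * π ∈ alg (Hb ∪ E') :=
      Subalgebra.mul_mem _ hN.mem_alg (alg_mono Finset.subset_union_left hπ)
    -- absorption by `Y1`
    have habs : ∀ A : Finset V, A ⊆ Y \ Hb → av A * Y1 = Y1 := by
      intro A hA
      rw [← hY1, ← mul_assoc, av_mul_av hA]
    -- sets disjoint from `Hb ∪ E'`
    have hpass : ∀ A : Finset V, A ⊆ Y' → Disjoint A Hb → av A * (Ex' * π) * Y1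
        = (Ex' * π) * Y1 := by
      intro A hA hd
      have hd2 : Disjoint A (Hb ∪ E') := by
        rw [Finset.disjoint_union_right]
        refine ⟨hd, ?_⟩
        rw [Finset.disjoint_left]
        intro v hv hv'
        exact (Finset.mem_sdiff.1 (hA hv)).2 hv'
      rw [alg_comm hd2 (av_mem_alg A) hπ', mul_assoc, habs A]
      intro v hv
      exact Finset.mem_sdiff.2 ⟨(Finset.mem_sdiff.1 (hA hv)).1,
        fun h => Finset.disjoint_left.1 hd hv h⟩
    set L := Y'.filter (fun v => f v = f u) with hL
    set M := Y'.filter (fun v => f v ≠ f u) with hM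
    have hsplit : ab Y' f = av L * ab M f := ab_split Y' f (f u)
    have hLe : (Y'.erase u).filter (fun v => f v = f u) = L.erase u := by
      rw [hL, Finset.filter_erase]
    have hMe : (Y'.erase u).filter (fun v => f v ≠ f u) = M := by
      rw [Finset.filter_erase, hM, Finset.erase_eq_of_notMem]
      intro h
      exact (Finset.mem_filter.1 h).2 rfl
    have hsplit' : ab (Y'.erase u) f = av (L.erase u) * ab M f := by
      rw [ab_split (Y'.erase u) f (f u), hLe, hMe]
    have hdLM : Disjoint L M := by
      rw [Finset.disjoint_left]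
      intro v hv hv'
      exact (Finset.mem_filter.1 hv').2 (Finset.mem_filter.1 hv).2
    have hcom : ∀ A : Finset V, A ⊆ L → av A * ab M f = ab M f * av A := by
      intro A hA
      exact alg_comm (Finset.disjoint_of_subset_left hA hdLM) (av_mem_alg A) (ab_mem_alg M f)
    have hLY' : L ⊆ Y' := Finset.filter_subset _ _
    by_cases hH : (Hb ∩ L).Nonempty
    · obtain ⟨x, hxH⟩ := hH
      have hHL : Hb ∩ L ⊆ L := Finset.inter_subset_right
      have huL : u ∈ L := Finset.mem_filter.2 ⟨huY', rfl⟩
      have huH : u ∉ Hb ∩ L := fun h => huY.2 (Finset.mem_inter.1 h).1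
      set H := Hb ∩ L with hHdef
      have hex := extr1 hHL hxH huL huH
      set p : ℝ := (H.card : ℝ) / L.card with hp
      have hLpos : (0 : ℝ) < L.card := by
        have : 0 < L.card := Finset.card_pos.2 ⟨u, huL⟩
        exact_mod_cast this
      have hp0 : 0 ≤ p := by positivity
      have hp1 : p ≤ 1 := by
        rw [hp, div_le_one hLpos]
        exact_mod_cast Finset.card_le_card hHL
      have hxHb : x ∈ Hb := (Finset.mem_inter.1 hxH).1
      have hxu : x ≠ u := fun h => huH (h ▸ hxH)
      -- `av H` is absorbed by `π'`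
      have hav : av H * (Ex' * π) = Ex' * π := by
        rw [← hS, ← mul_assoc, av_mul_ab Finset.inter_subset_left]
        intro a ha b hb
        have h1 := (Finset.mem_filter.1 (Finset.mem_inter.1 ha).2).2
        have h2 := (Finset.mem_filter.1 (Finset.mem_inter.1 hb).2).2
        rw [h1, h2]
      have hLH : av (L \ H) * (Ex' * π) * Y1 = (Ex' * π) * Y1 := by
        apply hpass
        · exact fun v hv => hLY' (Finset.mem_sdiff.1 hv).1
        · rw [Finset.disjoint_left]
          intro v hv hv'
          rw [Finset.mem_sdiff] at hv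
          exact hv.2 (Finset.mem_inter.2 ⟨hv', hv.1⟩)
      have hcomH : av H * av (L \ H) = av (L \ H) * av H := av_comm Finset.disjoint_sdiff
      have hstep : ab Y' f * (Ex' * π) * Y1
          = ab (Y'.erase u) f * (lz (x, u, p) * (Ex' * π)) * Y1 := by
        have e1 : ab Y' f = ab M f * av L := by rw [hsplit, hcom L (Finset.Subset.refl _)]
        have e2 : ab (Y'.erase u) f = ab M f * av (L.erase u) := by
          rw [hsplit', hcom _ (Finset.erase_subset _ _)]
        calc ab Y' f * (Ex' * π) * Y1
            = ab M f * av (L.erase u) * lz (x, u, p) *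
                (av (L \ H) * (av H * (Ex' * π)) * Y1) := by
              rw [e1, hex, hcomH]; simp only [mul_assoc]
          _ = ab M f * av (L.erase u) * lz (x, u, p) * ((Ex' * π) * Y1) := by
              rw [hav, hLH]
          _ = ab (Y'.erase u) f * (lz (x, u, p) * (Ex' * π)) * Y1 := by
              rw [e2]; simp only [mul_assoc]
      have hHbe : Hb ⊆ Y'.erase u := fun v hv =>
        Finset.mem_erase.2 ⟨fun h => huY.2 (h ▸ hv), hHbY' hv⟩
      refine ⟨ab Hb f * lz (x, u, p) * Ex', ?_, ?_, ?_⟩
      · have h1 : Net (Hb ∪ insert u E') (ab Hb f) csh :=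
          hc.mono Finset.subset_union_left le_rfl
        have h2 : Net (Hb ∪ insert u E') (lz (x, u, p)) 1 :=
          Net.single (Finset.mem_union_left _ hxHb)
            (Finset.mem_union_right _ (Finset.mem_insert_self _ _)) hxu hp0 hp1
        have h3 : Net (Hb ∪ insert u E') Ex' (E'.card * (csh + 1)) :=
          hN.mono (Finset.union_subset_union_right (Finset.subset_insert _ _)) le_rfl
        refine ((h1.mul h2).mul h3).mono (Finset.Subset.refl _) ?_
        rw [Finset.card_insert_of_notMem huE]
        ring_nf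
        omega
      · rw [hEq, hstep, hYe]
        conv_lhs => rw [← mul_ab_ab (f := f) hHbe]
        simp only [mul_assoc]
      · have h1 : ab Hb f * ab Hb f = ab Hb f := ab_mul_ab (Finset.Subset.refl _)
        calc ab Hb f * (ab Hb f * lz (x, u, p) * Ex' * π)
            = (ab Hb f * ab Hb f) * lz (x, u, p) * Ex' * π := by simp only [mul_assoc]
          _ = _ := by rw [h1]
    · rw [Finset.not_nonempty_iff_eq_empty] at hH
      have hdL : Disjoint L Hb := by
        rw [Finset.disjoint_iff_inter_eq_empty, Finset.inter_comm]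
        exact hH
      refine ⟨Ex', ?_, ?_, hS⟩
      · refine hN.mono (Finset.union_subset_union_right (Finset.subset_insert _ _)) ?_
        exact Nat.mul_le_mul_right _ (Finset.card_le_card (Finset.subset_insert _ _))
      · have e1 : ab Y' f * (Ex' * π) * Y1 = ab M f * ((Ex' * π) * Y1) := by
          rw [hsplit, hcom L (Finset.Subset.refl _)]
          rw [← hpass L hLY' hdL]
          simp only [mul_assoc]
        have e2 : ab (Y'.erase u) f * (Ex' * π) * Y1 = ab M f * ((Ex' * π) * Y1) := by
          rw [hsplit', hcom _ (Finset.erase_subset _ _)]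
          conv_rhs => rw [← hpass (L.erase u) (fun v hv => hLY' (Finset.mem_of_mem_erase hv))
            (Finset.disjoint_of_subset_left (Finset.erase_subset _ _) hdL)]
          simp only [mul_assoc]
        rw [hEq, hYe, e1, e2]

end LZS
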