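import Pool.Agent.LZS.Defs

/-!
# LZS.Geo: the array of `s` rows and `h` columns, its special sites, row permutations

Rows `0, …, s-1`; stage `k = 1, …, s-1` brings the three tokens of `Zf k` (row `k`, last three columns).
-/

open Finset Equiv

noncomputable section

namespace LZS

/-- row number -/
def row {s h : ℕ} (v : Fin s × Fin h) : ℕ := v.1.val

/-- column number -/
def col {s h : ℕ} (v : Fin s × Fin h) : ℕ := v.2.val

/-- active sites after stage `k`: rows `≤ k` completely, the other rows without the last 3 columns -/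
def Act (s h k : ℕ) : Finset (Fin s × Fin h) :=
  univ.filter (fun v => v.1.val ≤ k ∨ v.2.val + 3 < h)

/-- rows `≤ k` -/
def Top (s h k : ℕ) : Finset (Fin s × Fin h) := univ.filter (fun v => v.1.val ≤ k)

/-- the three new sites (with tokens) of stage `k` -/
def Zf (s h k : ℕ) : Finset (Fin s × Fin h) :=
  univ.filter (fun v => v.1.val = k ∧ h ≤ v.2.val + 3)

/-- all token sites used up to stage `k` -/
def Tf (s h k : ℕ) : Finset (Fin s × Fin h) :=
  univ.filter (fun v => 1 ≤ v.1.val ∧ v.1.val ≤ k ∧ h ≤ v.2.val + 3)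

/-- the new explicit sites of stage `k` in rows `< k`: one per row, same column -/
def Xf (s h k : ℕ) : Finset (Fin s × Fin h) :=
  univ.filter (fun v => v.1.val < k ∧ v.2.val = 3 * s + k)

/-- the new explicit sites of stage `k` in rows `> k`: three per row -/
def Ef (s h k : ℕ) : Finset (Fin s × Fin h) :=
  univ.filter (fun v => k < v.1.val ∧ 3 * (k - 1) ≤ v.2.val ∧ v.2.val < 3 * k)

/-- all hub sites used up to stage `k` -/
def Hub (s h k : ℕ) : Finset (Fin s × Fin h) :=
  univ.filter (fun v => v.2.val < 3 * min k (v.1.val - 1) ∨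
    (1 ≤ v.1.val ∧ v.1.val ≤ k ∧ h ≤ v.2.val + 3) ∨
    (3 * s + v.1.val < v.2.val ∧ v.2.val ≤ 3 * s + k))

/-- permutation of the rows -/
def layHom (s h : ℕ) : Perm (Fin s) →* Perm (Fin s × Fin h) where
  toFun σ := Equiv.prodCongr σ (Equiv.refl _)
  map_one' := by ext v <;> rfl
  map_mul' := by intro σ τ; ext v <;> rfl

/-- permutations of the rows `≤ k` -/
def GG (s h k : ℕ) : Subgroup (Perm (Fin s × Fin h)) :=
  (sym (univ.filter (fun b : Fin s => b.val ≤ k))).map (layHom s h)

/-- random permutation of the rows `≤ k` -/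
def AG (s h k : ℕ) : GA (Fin s × Fin h) := avg (GG s h k)

/-- wreath group: permutations supported in the rows `≤ k` which map rows to rows -/
def Wr (s h k : ℕ) : Subgroup (Perm (Fin s × Fin h)) where
  carrier := {g | (∀ v, v ∉ Top s h k → g v = v) ∧ ∀ v w, v.1 = w.1 ↔ (g v).1 = (g w).1}
  one_mem' := ⟨fun _ _ => rfl, fun _ _ => Iff.rfl⟩
  mul_mem' := by
    intro a b ha hb
    refine ⟨fun v hv => ?_, fun v w => ?_⟩
    · have h1 : b v = v := hb.1 v hv
      have h2 : a v = v := ha.1 v hv
      simp [Perm.mul_apply, h1, h2]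
    · rw [Perm.mul_apply, Perm.mul_apply, ← ha.2, ← hb.2]
  inv_mem' := by
    intro a ha
    refine ⟨fun v hv => ?_, fun v w => ?_⟩
    · have h1 : a v = v := ha.1 v hv
      rw [Perm.inv_eq_iff_eq, h1]
    · have h1 := ha.2 (a⁻¹ v) (a⁻¹ w)
      have h2 : a (a⁻¹ v) = v := a.apply_symm_apply v
      have h3 : a (a⁻¹ w) = w := a.apply_symm_apply w
      rw [h2, h3] at h1
      exact h1.symm

/-- 3-subsets of the rows `≤ k` which meet exactly `r` rows -/
def Cls (s h k r : ℕ) : Finset (Finset (Fin s × Fin h)) :=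
  univ.filter (fun S => S ⊆ Top s h k ∧ S.card = 3 ∧ (S.image row).card = r)

end LZS
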