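import Pool.Agent.LZS.Geo

/-!
# LZS.KSpC: counting the 3-subsets by the number of rows

PROOF. Cls 1 = disjoint union over b ≤ k of powersetCard 3 (row b). Cls 2: pairs (b, b'), b ≠ b', A ∈ powersetCard 2 (row b), x ∈ row b'.
Sum: partition of powersetCard 3 (Top k), |Top k| = (k+1) h. Cls 3 from the sum (polynomial identity for choose 3) or directly.
-/

open Finset Equiv

noncomputable section

namespace LZS

/-- the sites of a row -/
private def rw' (s h : ℕ) (b : Fin s) : Finset (Fin s × Fin h) := ({b} : Finset (Fin s)) ×ˢ univ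

private theorem mem_rw' {s h : ℕ} {b : Fin s} {v : Fin s × Fin h} : v ∈ rw' s h b ↔ v.1 = b := by
  rw [rw', Finset.mem_product, Finset.mem_singleton]
  exact ⟨fun h => h.1, fun h => ⟨h, Finset.mem_univ _⟩⟩

private theorem card_rw' {s h : ℕ} (b : Fin s) : (rw' s h b).card = h := by
  simp [rw']

private theorem card_low {s k : ℕ} (hk : k < s) :
    ((univ : Finset (Fin s)).filter (fun b => b.val ≤ k)).card = k + 1 := by
  have h1 : ((univ : Finset (Fin s)).filter (fun b => b.val ≤ k)) =
      Finset.Iic (⟨k, hk⟩ : Fin s) := by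
    ext b
    simp [Fin.le_def]
  rw [h1, Fin.card_Iic]

theorem card_Top {s h k : ℕ} (hk : k < s) : (Top s h k).card = (k + 1) * h := by
  have h1 : Top s h k = ((univ : Finset (Fin s)).filter (fun b => b.val ≤ k)) ×ˢ univ := by
    ext v
    simp [Top]
  rw [h1, Finset.card_product, card_low hk, Finset.card_univ, Fintype.card_fin]

private theorem ch2 (n : ℕ) : (2 : ℤ) * (n.choose 2 : ℤ) = n * (n - 1) := by
  induction n with
  | zero => simp
  | succ n ih =>
    rw [Nat.choose_succ_succ' n 1, Nat.choose_one_right]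
    push_cast
    linarith

private theorem ch3 (n : ℕ) : (6 : ℤ) * (n.choose 3 : ℤ) = n * (n - 1) * (n - 2) := by
  induction n with
  | zero => simp
  | succ n ih =>
    rw [Nat.choose_succ_succ' n 2]
    have := ch2 n
    push_cast
    linarith

theorem card_Cls1 {s h k : ℕ} (hk : k < s) :
    (Cls s h k 1).card = (k + 1) * h.choose 3 := by
  classical
  have h1 : Cls s h k 1 = ((univ : Finset (Fin s)).filter (fun b => b.val ≤ k)).biUnion
      (fun b => powersetCard 3 (rw' s h b)) := by
    ext S
    simp only [Cls, Finset.mem_filter, Finset.mem_univ, true_and, Finset.mem_biUnion,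
      Finset.mem_powersetCard]
    constructor
    · rintro ⟨a1, a2, a3⟩
      obtain ⟨v, hv⟩ : S.Nonempty := Finset.card_pos.1 (by omega)
      have hv' := a1 hv
      rw [Top, Finset.mem_filter] at hv'
      refine ⟨v.1, hv'.2, ?_, a2⟩
      intro w hw
      rw [mem_rw']
      have h2 := Finset.card_le_one.1 a3.le (row v) (Finset.mem_image_of_mem _ hv) (row w)
        (Finset.mem_image_of_mem _ hw)
      exact Fin.ext h2.symm
    · rintro ⟨b, hb, a1, a2⟩
      refine ⟨?_, a2, ?_⟩
      · intro w hw
        have := mem_rw'.1 (a1 hw)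
        rw [Top, Finset.mem_filter, this]
        exact ⟨Finset.mem_univ _, hb⟩
      · obtain ⟨v, hv⟩ : S.Nonempty := Finset.card_pos.1 (by omega)
        apply le_antisymm
        · rw [Finset.card_le_one]
          intro x hx y hy
          obtain ⟨w, hw, rfl⟩ := Finset.mem_image.1 hx
          obtain ⟨w', hw', rfl⟩ := Finset.mem_image.1 hy
          rw [row, row, mem_rw'.1 (a1 hw), mem_rw'.1 (a1 hw')]
        · exact Finset.card_pos.2 ⟨row v, Finset.mem_image_of_mem _ hv⟩
  rw [h1, Finset.card_biUnion]
  · rw [Finset.sum_congr rfl (fun b _ => by rw [Finset.card_powersetCard, card_rw']),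
      Finset.sum_const, card_low hk, smul_eq_mul]
  · intro b _ b' _ hbb
    rw [Function.onFun, Finset.disjoint_left]
    intro S hS hS'
    rw [Finset.mem_powersetCard] at hS hS'
    obtain ⟨v, hv⟩ : S.Nonempty := Finset.card_pos.1 (by omega)
    exact hbb ((mem_rw'.1 (hS.1 hv)).symm.trans (mem_rw'.1 (hS'.1 hv)))

theorem card_Cls2 {s h k : ℕ} (hk : k < s) :
    (Cls s h k 2).card = (k + 1) * k * (h.choose 2 * h) := by
  classical
  set L := (univ : Finset (Fin s)).filter (fun b => b.val ≤ k) with hL
  have h1 : Cls s h k 2 = L.offDiag.biUnion (fun p =>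
      (powersetCard 2 (rw' s h p.1) ×ˢ rw' s h p.2).image (fun q => insert q.2 q.1)) := by
    ext S
    simp only [Cls, Finset.mem_filter, Finset.mem_univ, true_and, Finset.mem_biUnion,
      Finset.mem_image, Finset.mem_product, Finset.mem_powersetCard, Finset.mem_offDiag]
    constructor
    · rintro ⟨a1, a2, a3⟩
      -- some row is met twice
      obtain ⟨v, hv, w, hw, hvw, hrow⟩ : ∃ v ∈ S, ∃ w ∈ S, v ≠ w ∧ row v = row w := by
        apply Finset.exists_ne_map_eq_of_card_lt_of_maps_to (t := S.image row)
        · omega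
        · intro x hx; exact Finset.mem_coe.2 (Finset.mem_image_of_mem _ hx)
      have hcard : ((S.erase v).erase w).card = 1 := by
        rw [Finset.card_erase_of_mem (Finset.mem_erase.2 ⟨hvw.symm, hw⟩),
          Finset.card_erase_of_mem hv]
        omega
      obtain ⟨x, hx⟩ := Finset.card_eq_one.1 hcard
      have hxm : x ∈ (S.erase v).erase w := by rw [hx]; exact Finset.mem_singleton_self x
      rw [Finset.mem_erase, Finset.mem_erase] at hxm
      obtain ⟨xw, xv, xS⟩ := hxm
      have hS : S = insert x {v, w} := by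
        ext y
        rw [Finset.mem_insert, Finset.mem_insert, Finset.mem_singleton]
        constructor
        · intro hy
          by_cases y1 : y = v
          · exact Or.inr (Or.inl y1)
          · by_cases y2 : y = w
            · exact Or.inr (Or.inr y2)
            · left
              have : y ∈ (S.erase v).erase w :=
                Finset.mem_erase.2 ⟨y2, Finset.mem_erase.2 ⟨y1, hy⟩⟩
              rw [hx, Finset.mem_singleton] at this
              exact this
        · rintro (rfl | rfl | rfl)
          · exact xS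
          · exact hv
          · exact hw
      have hrx : row x ≠ row v := by
        intro hc
        have : S.image row ⊆ {row v} := by
          intro y hy
          obtain ⟨z, hz, rfl⟩ := Finset.mem_image.1 hy
          rw [hS, Finset.mem_insert, Finset.mem_insert, Finset.mem_singleton] at hz
          rw [Finset.mem_singleton]
          rcases hz with rfl | rfl | rfl
          · exact hc
          · rfl
          · exact hrow.symm
        have := Finset.card_le_card this
        rw [Finset.card_singleton] at this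
        omega
      have memL : ∀ z ∈ S, z.1 ∈ L := by
        intro z hz
        have := a1 hz
        rw [Top, Finset.mem_filter] at this
        rw [hL, Finset.mem_filter]
        exact ⟨Finset.mem_univ _, this.2⟩
      refine ⟨(v.1, x.1), ⟨memL v hv, memL x xS, ?_⟩, ({v, w}, x), ⟨⟨?_, ?_⟩, ?_⟩, hS.symm⟩
      · intro hc
        exact hrx (by rw [row, row]; exact congrArg Fin.val hc.symm)
      · intro y hy
        rw [Finset.mem_insert, Finset.mem_singleton] at hy
        rcases hy with rfl | rfl
        · exact mem_rw'.2 rfl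
        · exact mem_rw'.2 (Fin.ext hrow.symm)
      · exact Finset.card_pair hvw
      · exact mem_rw'.2 rfl
    · rintro ⟨p, ⟨p1, p2, p3⟩, ⟨A, x⟩, ⟨⟨q1, q2⟩, q3⟩, rfl⟩
      simp only at q1 q2 q3 ⊢
      have hxA : x ∉ A := by
        intro hx
        exact p3 ((mem_rw'.1 (q1 hx)).symm.trans (mem_rw'.1 q3))
      refine ⟨?_, ?_, ?_⟩
      · intro y hy
        rw [hL, Finset.mem_filter] at p1 p2
        rw [Top, Finset.mem_filter]
        rcases Finset.mem_insert.1 hy with rfl | hy
        · rw [mem_rw'.1 q3]; exact ⟨Finset.mem_univ _, p2.2⟩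
        · rw [mem_rw'.1 (q1 hy)]; exact ⟨Finset.mem_univ _, p1.2⟩
      · rw [Finset.card_insert_of_notMem hxA, q2]
      · have himg : (insert x A).image row = {p.2.val, p.1.val} := by
          ext y
          rw [Finset.mem_image, Finset.mem_insert, Finset.mem_singleton]
          constructor
          · rintro ⟨z, hz, rfl⟩
            rcases Finset.mem_insert.1 hz with rfl | hz
            · left; rw [row, mem_rw'.1 q3]
            · right; rw [row, mem_rw'.1 (q1 hz)]
          · rintro (rfl | rfl)
            · exact ⟨x, Finset.mem_insert_self _ _, by rw [row, mem_rw'.1 q3]⟩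
            · obtain ⟨z, hz⟩ : A.Nonempty := Finset.card_pos.1 (by omega)
              exact ⟨z, Finset.mem_insert_of_mem hz, by rw [row, mem_rw'.1 (q1 hz)]⟩
        rw [himg, Finset.card_pair]
        intro hc
        exact p3 (Fin.ext hc.symm)
  have hrest : ∀ p ∈ L.offDiag, ∀ q ∈ powersetCard 2 (rw' s h p.1) ×ˢ rw' s h p.2,
      (insert q.2 q.1).filter (fun v => v.1 = p.1) = q.1 ∧
      (insert q.2 q.1).filter (fun v => v.1 = p.2) = {q.2} := by
    intro p hp q hq
    rw [Finset.mem_offDiag] at hp
    rw [Finset.mem_product, Finset.mem_powersetCard] at hq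
    obtain ⟨⟨q1, q2⟩, q3⟩ := hq
    have e1 := mem_rw'.1 q3
    constructor
    · ext y
      rw [Finset.mem_filter, Finset.mem_insert]
      constructor
      · rintro ⟨rfl | h, h'⟩
        · exact absurd (h'.symm.trans e1) hp.2.2
        · exact h
      · intro h; exact ⟨Or.inr h, mem_rw'.1 (q1 h)⟩
    · ext y
      rw [Finset.mem_filter, Finset.mem_insert, Finset.mem_singleton]
      constructor
      · rintro ⟨h | h, h'⟩
        · exact h
        · exact absurd ((mem_rw'.1 (q1 h)).symm.trans h') hp.2.2
      · rintro rfl; exact ⟨Or.inl rfl, e1⟩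
  rw [h1, Finset.card_biUnion]
  · have hc : ∀ p ∈ L.offDiag, ((powersetCard 2 (rw' s h p.1) ×ˢ rw' s h p.2).image
        (fun q => insert q.2 q.1)).card = h.choose 2 * h := by
      intro p hp
      rw [Finset.card_image_of_injOn, Finset.card_product, Finset.card_powersetCard, card_rw',
        card_rw']
      intro q hq q' hq' hqq
      obtain ⟨a1, a2⟩ := hrest p hp q (Finset.mem_coe.1 hq)
      obtain ⟨a3, a4⟩ := hrest p hp q' (Finset.mem_coe.1 hq')
      simp only at hqq
      rw [hqq] at a1 a2
      exact Prod.ext (a1.symm.trans a3) (Finset.singleton_injective (a2.symm.trans a4))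
    rw [Finset.sum_congr rfl hc, Finset.sum_const, Finset.offDiag_card, hL, card_low hk,
      smul_eq_mul]
    congr 1
    rw [Nat.add_mul, one_mul, Nat.mul_add, mul_one]
    rw [Nat.add_mul, one_mul]
    omega
  · intro p hp p' hp' hpp
    rw [Function.onFun, Finset.disjoint_left]
    intro S hS hS'
    obtain ⟨q, hq, rfl⟩ := Finset.mem_image.1 hS
    obtain ⟨q', hq', hqq⟩ := Finset.mem_image.1 hS'
    obtain ⟨a1, a2⟩ := hrest p (Finset.mem_coe.1 hp) q hq
    obtain ⟨a3, a4⟩ := hrest p' (Finset.mem_coe.1 hp') q' hq'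
    rw [hqq] at a3 a4
    rw [Finset.mem_product, Finset.mem_powersetCard] at hq hq'
    apply hpp
    -- the row of q.1
    have hA : ∀ v ∈ q.1, v.1 = p.1 := fun v hv => mem_rw'.1 (hq.1.1 hv)
    have hA' : ∀ v ∈ q'.1, v.1 = p'.1 := fun v hv => mem_rw'.1 (hq'.1.1 hv)
    have hb : q.2.1 = p.2 := mem_rw'.1 hq.2
    have hb' : q'.2.1 = p'.2 := mem_rw'.1 hq'.2
    have hpo := Finset.mem_offDiag.1 (Finset.mem_coe.1 hp)
    -- q'.1 has two elements in one row: the row is p.1
    have hfirst : p'.1 = p.1 := by
      by_contra hne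
      have hsub : q'.1 ⊆ {q.2} := by
        intro v hv
        have hv2 : v ∈ insert q.2 q.1 := by
          rw [← hqq]; exact Finset.mem_insert_of_mem hv
        rcases Finset.mem_insert.1 hv2 with h | h
        · rw [h]; exact Finset.mem_singleton_self _
        · exact absurd ((hA' v hv).symm.trans (hA v h)) hne
      have := Finset.card_le_card hsub
      rw [Finset.card_singleton] at this
      omega
    have hsecond : p'.2 = p.2 := by
      have hv2 : q'.2 ∈ insert q.2 q.1 := by
        rw [← hqq]; exact Finset.mem_insert_self _ _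
      have hpo' := Finset.mem_offDiag.1 (Finset.mem_coe.1 hp')
      rcases Finset.mem_insert.1 hv2 with h | h
      · rw [← hb', h, hb]
      · exact absurd (hfirst.trans ((hA _ h).symm.trans hb')) hpo'.2.2
    exact (Prod.ext hfirst hsecond).symm

theorem card_Cls_sum {s h k : ℕ} (hk : k < s) :
    (Cls s h k 1).card + (Cls s h k 2).card + (Cls s h k 3).card = ((k + 1) * h).choose 3 := by
  classical
  rw [← card_Top hk, ← Finset.card_powersetCard 3 (Top s h k)]
  have hdis : ∀ r r' : ℕ, r ≠ r' → Disjoint (Cls s h k r) (Cls s h k r') := by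
    intro r r' hr
    rw [Finset.disjoint_left]
    intro S hS hS'
    rw [Cls, Finset.mem_filter] at hS hS'
    exact hr (hS.2.2.2.symm.trans hS'.2.2.2)
  rw [← Finset.card_union_of_disjoint (hdis 1 2 (by norm_num)),
    ← Finset.card_union_of_disjoint (Finset.disjoint_union_left.2
      ⟨hdis 1 3 (by norm_num), hdis 2 3 (by norm_num)⟩)]
  congr 1
  ext S
  simp only [Cls, Finset.mem_union, Finset.mem_filter, Finset.mem_univ, true_and,
    Finset.mem_powersetCard]
  constructor
  · rintro ((⟨a, b, -⟩ | ⟨a, b, -⟩) | ⟨a, b, -⟩) <;> exact ⟨a, b⟩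
  · rintro ⟨a, b⟩
    have h1 : (S.image row).card ≤ 3 := b ▸ Finset.card_image_le
    have h2 : 0 < (S.image row).card := by
      obtain ⟨v, hv⟩ : S.Nonempty := Finset.card_pos.1 (by omega)
      exact Finset.card_pos.2 ⟨row v, Finset.mem_image_of_mem _ hv⟩
    have h3 : (S.image row).card = 1 ∨ (S.image row).card = 2 ∨ (S.image row).card = 3 := by omega
    rcases h3 with h3 | h3 | h3
    · exact Or.inl (Or.inl ⟨a, b, h3⟩)
    · exact Or.inl (Or.inr ⟨a, b, h3⟩)
    · exact Or.inr ⟨a, b, h3⟩

theorem card_Cls3 {s h k : ℕ} (hk : k < s) :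
    (Cls s h k 3).card = (k + 1).choose 3 * h ^ 3 := by
  have h1 := card_Cls_sum (h := h) hk
  rw [card_Cls1 hk, card_Cls2 hk] at h1
  have h2 : (6 : ℤ) * (((k + 1) * (h.choose 3) + (k + 1) * k * (h.choose 2 * h) +
      (Cls s h k 3).card : ℕ) : ℤ) = 6 * (((k + 1) * h).choose 3 : ℕ) := by
    exact_mod_cast congrArg (fun x => 6 * x) h1
  have e1 := ch3 ((k + 1) * h)
  have e2 := ch3 h
  have e3 := ch2 h
  have e4 := ch3 (k + 1)
  push_cast at h2 e1 e4 ⊢
  have h3 : (6 : ℤ) * ((Cls s h k 3).card : ℤ) = 6 * (((k + 1).choose 3 : ℕ) * (h : ℤ) ^ 3) := by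
    have e5 : (6 : ℤ) * (((k + 1).choose 3 : ℕ) * (h : ℤ) ^ 3) =
        (6 * ((k + 1).choose 3 : ℕ)) * (h : ℤ) ^ 3 := by ring
    rw [e5, e4]
    have e6 : (6 : ℤ) * (((k : ℤ) + 1) * (h.choose 3 : ℕ)) = ((k : ℤ) + 1) * (6 * (h.choose 3 : ℕ)) := by
      ring
    have e7 : (6 : ℤ) * (((k : ℤ) + 1) * k * ((h.choose 2 : ℕ) * h)) =
        3 * ((k : ℤ) + 1) * k * h * (2 * (h.choose 2 : ℕ)) := by ring
    have e8 : (6 : ℤ) * ((Cls s h k 3).card : ℤ) = 6 * (((k + 1) * h).choose 3 : ℕ) -
        6 * (((k : ℤ) + 1) * (h.choose 3 : ℕ)) -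
        6 * (((k : ℤ) + 1) * k * ((h.choose 2 : ℕ) * h)) := by linarith
    rw [e8, e6, e7, e1, e2, e3]
    ring
  have h4 : ((Cls s h k 3).card : ℤ) = (((k + 1).choose 3 : ℕ) * (h : ℤ) ^ 3) := by linarith
  exact_mod_cast h4

end LZS
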