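import Pool.Agent.LZS.KSpB
import Pool.Agent.LZS.KSpC
import Pool.Agent.LZS.Cub

/-!
# LZS.KSp: spreading the three tokens of row `k` over the rows `0..k`

PROOF. m = k+1 rows, |Top k| = m h (card_Top), N_r = |Cls r|, N = C(mh,3) = N_1+N_2+N_3, q_i = N_{i+1}/N; 4 q_0 q_2 ≤ q_1^2 because
N_1 = m C(h,3), N_2 = m(m-1) C(h,2) h, N_3 = C(m,3) h^3 and (m-1)(h-1)/4 ≥ (m-2)(h-2)/9. p₁, p₂ from `exists_quadratic`.
K = lz (z₂, u₀, p₁) * lz (z₃, u₁, p₂), Z = Zf k = {z₁,z₂,z₃}, u_b = (b, 3s+k) ∈ Xf k; if k = 1 there is only u₀: N_3 = 0, q_2 = 0, take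
K = lz (z₂, u₀, q_1). `push_crit` with Y = Top k, T = Z, Q = AG * ab (Top) row * av X * K (AG * ab = avg Wr, `AG_mul_ab`): expand K: terms c • P g with
g Z = Z, {z₁,z₃,u₀}, {z₁,z₂,u₁}, {z₁,u₀,u₁}; expand av X = average of P x, x ∈ sym X: `push_mul_P`: x g Z ∈ Cls (1 + number of moved tokens)
(x permutes the u_b, which lie in different rows ≠ k), and `push_Wr`. So push = (law of the number of moved tokens at r-1)/N_r = 1/N
for S ∈ Cls r (every 3-subset of Top k is in one of the three classes).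
-/

open Finset Equiv

noncomputable section

namespace LZS

section gen

variable {V : Type} [Fintype V] [DecidableEq V]

private theorem ksp_push_lz (T : Finset V) (Q : GA V) (a b : V) (p : ℝ) (S : Finset V) :
    push T (Q * lz (a, b, p)) S =
      (1 - p) * push T Q S + p * push (T.map (swap a b).toEmbedding) Q S := by
  unfold lz
  rw [mul_add, mul_smul_comm, mul_one, mul_smul_comm, push_add, push_smul, push_smul, push_mul_P]

omit [Fintype V] in
private theorem ksp_map_swap {T : Finset V} {z e : V} (hz : z ∈ T) (he : e ∉ T) :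
    T.map (swap z e).toEmbedding = insert e (T.erase z) := by
  ext w
  rw [Finset.mem_map]
  constructor
  · rintro ⟨v, hv, rfl⟩
    show swap z e v ∈ _
    by_cases h1 : v = z
    · subst h1
      rw [swap_apply_left]
      exact Finset.mem_insert_self _ _
    · have h2 : v ≠ e := fun h => he (h ▸ hv)
      rw [swap_apply_of_ne_of_ne h1 h2]
      exact Finset.mem_insert_of_mem (Finset.mem_erase.2 ⟨h1, hv⟩)
  · intro hw
    rcases Finset.mem_insert.1 hw with rfl | hw
    · exact ⟨z, hz, swap_apply_left _ _⟩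
    · obtain ⟨h1, h2⟩ := Finset.mem_erase.1 hw
      have h3 : w ≠ e := fun h => he (h ▸ h2)
      exact ⟨w, h2, swap_apply_of_ne_of_ne h1 h3⟩

private theorem ksp_push_avg (T : Finset V) (R : GA V) (H : Subgroup (Perm V)) (S : Finset V)
    (c : ℝ) (hc : ∀ x ∈ H, push (T.map x.toEmbedding) R S = c) :
    push T (R * avg H) S = c := by
  have h1 : ∀ F : Finset (Perm V), (∀ x ∈ F, x ∈ H) →
      push T (∑ g ∈ F, R * P g) S = (F.card : ℝ) * c := by
    intro F
    induction F using Finset.induction_on with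
    | empty =>
      intro _
      rw [Finset.sum_empty, Finset.card_empty, Nat.cast_zero, zero_mul]
      unfold push
      refine Finset.sum_eq_zero fun g _ => ?_
      simp
    | insert a F ha ih =>
      intro hF
      rw [Finset.sum_insert ha, push_add, ih (fun x hx => hF x (Finset.mem_insert_of_mem hx)),
        push_mul_P, hc a (hF a (Finset.mem_insert_self _ _)), Finset.card_insert_of_notMem ha]
      push_cast
      ring
  unfold avg
  rw [mul_smul_comm, Finset.mul_sum, push_smul, h1 _ (fun x hx => mem_elts.1 hx), ← mul_assoc,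
    inv_mul_cancel₀, one_mul]
  exact_mod_cast (elts_card_pos H).ne'

end gen

private theorem ksp_cls {s h k : ℕ} {T : Finset (Fin s × Fin h)} {z : Fin s × Fin h} {i : ℕ}
    (hT : T ⊆ Zf s h k ∪ Xf s h k) (hT3 : T.card = 3) (hz : z ∈ T) (hzZ : z ∈ Zf s h k)
    (hi : (T ∩ Xf s h k).card = i) : T ∈ Cls s h k (i + 1) := by
  unfold Cls
  rw [Finset.mem_filter]
  refine ⟨Finset.mem_univ _, ?_, hT3, ?_⟩
  · intro v hv
    have h1 := hT hv
    rw [Finset.mem_union] at h1
    simp only [Zf, Xf, Finset.mem_filter, Finset.mem_univ, true_and] at h1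
    simp only [Top, Finset.mem_filter, Finset.mem_univ, true_and]
    omega
  · have h1 : T.image row = insert k ((T ∩ Xf s h k).image row) := by
      ext a
      rw [Finset.mem_image, Finset.mem_insert, Finset.mem_image]
      constructor
      · rintro ⟨v, hv, rfl⟩
        have h2 := hT hv
        rw [Finset.mem_union] at h2
        rcases h2 with h2 | h2
        · left
          simp only [Zf, Finset.mem_filter, Finset.mem_univ, true_and] at h2
          exact h2.1
        · right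
          exact ⟨v, Finset.mem_inter.2 ⟨hv, h2⟩, rfl⟩
      · rintro (rfl | ⟨v, hv, rfl⟩)
        · refine ⟨z, hz, ?_⟩
          simp only [Zf, Finset.mem_filter, Finset.mem_univ, true_and] at hzZ
          exact hzZ.1
        · exact ⟨v, (Finset.mem_inter.1 hv).1, rfl⟩
    rw [h1, Finset.card_insert_of_notMem, Finset.card_image_of_injOn, hi]
    · intro v hv w hw hvw
      have hv' := (Finset.mem_inter.1 (Finset.mem_coe.1 hv)).2
      have hw' := (Finset.mem_inter.1 (Finset.mem_coe.1 hw)).2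
      simp only [Xf, Finset.mem_filter, Finset.mem_univ, true_and] at hv' hw'
      refine Prod.ext (Fin.ext hvw) (Fin.ext ?_)
      rw [hv'.2, hw'.2]
    · rw [Finset.mem_image]
      rintro ⟨v, hv, hvk⟩
      have hv' := (Finset.mem_inter.1 hv).2
      simp only [Xf, Finset.mem_filter, Finset.mem_univ, true_and] at hv'
      unfold row at hvk
      omega

/-- the push of a 3-subset of the special sites under the wreath average times `av X` -/
private theorem ksp_key {s h k : ℕ} (hks : k < s) {T : Finset (Fin s × Fin h)}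
    {z : Fin s × Fin h} {i : ℕ}
    (hT : T ⊆ Zf s h k ∪ Xf s h k) (hT3 : T.card = 3) (hz : z ∈ T) (hzZ : z ∈ Zf s h k)
    (hi : (T ∩ Xf s h k).card = i) (S : Finset (Fin s × Fin h)) :
    push T (avg (Wr s h k) * av (Xf s h k)) S =
      if S ∈ Cls s h k (i + 1) then ((Cls s h k (i + 1)).card : ℝ)⁻¹ else 0 := by
  have hdis : ∀ v, v ∈ Zf s h k → v ∉ Xf s h k := by
    intro v hv hv'
    simp only [Zf, Finset.mem_filter, Finset.mem_univ, true_and] at hv
    simp only [Xf, Finset.mem_filter, Finset.mem_univ, true_and] at hv'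
    omega
  unfold av
  apply ksp_push_avg
  intro x hx
  apply push_Wr hks
  have hxX : ∀ v, v ∈ Xf s h k → x v ∈ Xf s h k := by
    intro v hv
    by_contra hc
    have h2 : x (x v) = x v := hx _ hc
    have h3 : x v = v := x.injective h2
    exact hc (h3.symm ▸ hv)
  have hxT : T.map x.toEmbedding ∩ Xf s h k = (T ∩ Xf s h k).map x.toEmbedding := by
    ext w
    rw [Finset.mem_inter, Finset.mem_map, Finset.mem_map]
    constructor
    · rintro ⟨⟨v, hv, hvw⟩, hw⟩
      refine ⟨v, Finset.mem_inter.2 ⟨hv, ?_⟩, hvw⟩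
      by_contra hc
      have h1 : x v = v := hx v hc
      have h2 : x v = w := hvw
      rw [h1] at h2
      exact hc (h2 ▸ hw)
    · rintro ⟨v, hv, hvw⟩
      obtain ⟨h1, h2⟩ := Finset.mem_inter.1 hv
      refine ⟨⟨v, h1, hvw⟩, ?_⟩
      rw [← hvw]
      exact hxX v h2
  refine ksp_cls (z := z) ?_ ?_ ?_ hzZ ?_
  · intro w hw
    obtain ⟨v, hv, hvw⟩ := Finset.mem_map.1 hw
    have h1 := hT hv
    rw [Finset.mem_union] at h1
    rcases h1 with h1 | h1
    · have h2 : x v = v := hx v (hdis v h1)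
      have h3 : x v = w := hvw
      rw [← h3, h2]
      exact Finset.mem_union_left _ h1
    · rw [← hvw]
      exact Finset.mem_union_right _ (hxX v h1)
  · rw [Finset.card_map, hT3]
  · refine Finset.mem_map.2 ⟨z, hz, ?_⟩
    exact hx z (hdis z hzZ)
  · rw [hxT, Finset.card_map, hi]

/-- one swap moves one token from `Z` to `X` -/
private theorem ksp_step {s h k : ℕ} {T : Finset (Fin s × Fin h)} {z e : Fin s × Fin h}
    (hT : T ⊆ Zf s h k ∪ Xf s h k) (hzT : z ∈ T) (heT : e ∉ T)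
    (hzX : z ∉ Xf s h k) (heX : e ∈ Xf s h k) :
    T.map (swap z e).toEmbedding ⊆ Zf s h k ∪ Xf s h k ∧
      (T.map (swap z e).toEmbedding ∩ Xf s h k).card = (T ∩ Xf s h k).card + 1 ∧
      (∀ v, v ≠ z → v ∈ T → v ∈ T.map (swap z e).toEmbedding) ∧
      (∀ v, v ≠ e → v ∉ T → v ∉ T.map (swap z e).toEmbedding) := by
  rw [ksp_map_swap hzT heT]
  refine ⟨?_, ?_, ?_, ?_⟩
  · intro v hv
    rcases Finset.mem_insert.1 hv with rfl | hv
    · exact Finset.mem_union_right _ heX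
    · exact hT (Finset.mem_of_mem_erase hv)
  · have h1 : insert e (T.erase z) ∩ Xf s h k = insert e (T ∩ Xf s h k) := by
      ext v
      rw [Finset.mem_inter, Finset.mem_insert, Finset.mem_insert, Finset.mem_inter,
        Finset.mem_erase]
      constructor
      · rintro ⟨rfl | ⟨_, h⟩, hB⟩
        · exact Or.inl rfl
        · exact Or.inr ⟨h, hB⟩
      · rintro (rfl | ⟨h, hB⟩)
        · exact ⟨Or.inl rfl, heX⟩
        · exact ⟨Or.inr ⟨fun h' => hzX (h' ▸ hB), h⟩, hB⟩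
    rw [h1, Finset.card_insert_of_notMem (fun h => heT (Finset.mem_inter.1 h).1)]
  · intro v hv hvT
    exact Finset.mem_insert_of_mem (Finset.mem_erase.2 ⟨hv, hvT⟩)
  · intro v hv hvT h
    rcases Finset.mem_insert.1 h with h | h
    · exact hv h
    · exact hvT (Finset.mem_of_mem_erase h)

private theorem ksp_numbers {s h k : ℕ} (hk : 1 ≤ k) (hks : k < s) (hh : 5 * s + 5 ≤ h) :
    4 * ((Cls s h k 1).card : ℝ) * ((Cls s h k 3).card : ℝ) ≤ ((Cls s h k 2).card : ℝ) ^ 2 ∧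
      ((Cls s h k 1).card : ℝ) + ((Cls s h k 2).card : ℝ) + ((Cls s h k 3).card : ℝ) =
        (((k + 1) * h).choose 3 : ℝ) ∧ (0 : ℝ) < (((k + 1) * h).choose 3 : ℝ) := by
  refine ⟨?_, ?_, ?_⟩
  · rw [card_Cls1 hks, card_Cls2 hks, card_Cls3 hks]
    push_cast
    rw [cub_choose_three, cub_choose_three, Nat.cast_choose_two]
    obtain ⟨a, rfl⟩ : ∃ a, k = a + 1 := ⟨k - 1, by omega⟩
    obtain ⟨b, rfl⟩ : ∃ b, h = b + 2 := ⟨h - 2, by omega⟩
    have ha : (0 : ℝ) ≤ a := Nat.cast_nonneg a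
    have hb : (0 : ℝ) ≤ b := Nat.cast_nonneg b
    push_cast
    have e1 : 4 * (((a : ℝ) + 1 + 1) * (((b : ℝ) + 2) * ((b : ℝ) + 2 - 1) * ((b : ℝ) + 2 - 2) / 6)) *
        (((a : ℝ) + 1 + 1) * ((a : ℝ) + 1 + 1 - 1) * ((a : ℝ) + 1 + 1 - 2) / 6 * ((b : ℝ) + 2) ^ 3) =
        (1 / 9) * (((a : ℝ) + 2) ^ 2 * ((b : ℝ) + 2) ^ 4 * (((b : ℝ) + 1) * b * (((a : ℝ) + 1) * a))) := by
      ring
    have e2 : (((a : ℝ) + 1 + 1) * ((a : ℝ) + 1) * (((b : ℝ) + 2) * ((b : ℝ) + 2 - 1) / 2 *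
        ((b : ℝ) + 2))) ^ 2 =
        (1 / 4) * (((a : ℝ) + 2) ^ 2 * ((b : ℝ) + 2) ^ 4 *
          (((b : ℝ) + 1) * (b + 1) * (((a : ℝ) + 1) * (a + 1)))) := by
      ring
    rw [e1, e2]
    have h3 : ((b : ℝ) + 1) * b * (((a : ℝ) + 1) * a) ≤
        ((b : ℝ) + 1) * (b + 1) * (((a : ℝ) + 1) * (a + 1)) := by
      gcongr <;> linarith
    have h4 : ((a : ℝ) + 2) ^ 2 * ((b : ℝ) + 2) ^ 4 * (((b : ℝ) + 1) * b * (((a : ℝ) + 1) * a)) ≤
        ((a : ℝ) + 2) ^ 2 * ((b : ℝ) + 2) ^ 4 *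
          (((b : ℝ) + 1) * (b + 1) * (((a : ℝ) + 1) * (a + 1))) :=
      mul_le_mul_of_nonneg_left h3 (by positivity)
    have h5 : 0 ≤ ((a : ℝ) + 2) ^ 2 * ((b : ℝ) + 2) ^ 4 *
        (((b : ℝ) + 1) * b * (((a : ℝ) + 1) * a)) := by positivity
    linarith
  · rw [← card_Cls_sum hks]
    push_cast
    ring
  · have : 0 < ((k + 1) * h).choose 3 := by
      apply Nat.choose_pos
      nlinarith
    exact_mod_cast this

/-- every 3-subset of `Top` lies in exactly one class -/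
private theorem ksp_final {s h k : ℕ} {S : Finset (Fin s × Fin h)} (hS : S ⊆ Top s h k)
    (hS3 : S.card = 3) (q₀ q₁ q₂ N : ℝ)
    (h0 : q₀ = ((Cls s h k 1).card : ℝ) / N) (h1 : q₁ = ((Cls s h k 2).card : ℝ) / N)
    (h2 : q₂ = ((Cls s h k 3).card : ℝ) / N) :
    q₀ * (if S ∈ Cls s h k (0 + 1) then ((Cls s h k (0 + 1)).card : ℝ)⁻¹ else 0) +
      q₁ * (if S ∈ Cls s h k (1 + 1) then ((Cls s h k (1 + 1)).card : ℝ)⁻¹ else 0) +
      q₂ * (if S ∈ Cls s h k (2 + 1) then ((Cls s h k (2 + 1)).card : ℝ)⁻¹ else 0) = N⁻¹ := by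
  have hmem : ∀ r, S ∈ Cls s h k r ↔ (S.image row).card = r := by
    intro r
    unfold Cls
    rw [Finset.mem_filter]
    exact ⟨fun hx => hx.2.2.2, fun hx => ⟨Finset.mem_univ _, hS, hS3, hx⟩⟩
  have hpos : ∀ r, S ∈ Cls s h k r → ((Cls s h k r).card : ℝ) ≠ 0 := by
    intro r hr
    exact_mod_cast (Finset.card_pos.2 ⟨S, hr⟩).ne'
  have hle : (S.image row).card ≤ 3 := hS3 ▸ Finset.card_image_le
  have hge : 1 ≤ (S.image row).card := by
    rw [Nat.one_le_iff_ne_zero, Finset.card_ne_zero, Finset.image_nonempty]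
    exact Finset.card_pos.1 (by omega)
  rcases (by omega : (S.image row).card = 1 ∨ (S.image row).card = 2 ∨
    (S.image row).card = 3) with hr | hr | hr
  · have e1 : S ∈ Cls s h k (0 + 1) := (hmem _).2 hr
    have e2 : S ∉ Cls s h k (1 + 1) := fun hx => by have := (hmem _).1 hx; omega
    have e3 : S ∉ Cls s h k (2 + 1) := fun hx => by have := (hmem _).1 hx; omega
    have e4 : ((Cls s h k 1).card : ℝ) ≠ 0 := hpos 1 e1
    rw [if_pos e1, if_neg e2, if_neg e3, h0, div_eq_mul_inv]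
    show ((Cls s h k 1).card : ℝ) * N⁻¹ * ((Cls s h k 1).card : ℝ)⁻¹ + q₁ * 0 + q₂ * 0 = N⁻¹
    rw [mul_zero, add_zero, mul_zero, add_zero, mul_right_comm, mul_inv_cancel₀ e4, one_mul]
  · have e1 : S ∈ Cls s h k (1 + 1) := (hmem _).2 hr
    have e2 : S ∉ Cls s h k (0 + 1) := fun hx => by have := (hmem _).1 hx; omega
    have e3 : S ∉ Cls s h k (2 + 1) := fun hx => by have := (hmem _).1 hx; omega
    have e4 : ((Cls s h k 2).card : ℝ) ≠ 0 := hpos 2 e1
    rw [if_pos e1, if_neg e2, if_neg e3, h1, div_eq_mul_inv]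
    show q₀ * 0 + ((Cls s h k 2).card : ℝ) * N⁻¹ * ((Cls s h k 2).card : ℝ)⁻¹ + q₂ * 0 = N⁻¹
    rw [mul_zero, zero_add, mul_zero, add_zero, mul_right_comm, mul_inv_cancel₀ e4, one_mul]
  · have e1 : S ∈ Cls s h k (2 + 1) := (hmem _).2 hr
    have e2 : S ∉ Cls s h k (0 + 1) := fun hx => by have := (hmem _).1 hx; omega
    have e3 : S ∉ Cls s h k (1 + 1) := fun hx => by have := (hmem _).1 hx; omega
    have e4 : ((Cls s h k 3).card : ℝ) ≠ 0 := hpos 3 e1
    rw [if_pos e1, if_neg e2, if_neg e3, h2, div_eq_mul_inv]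
    show q₀ * 0 + q₁ * 0 + ((Cls s h k 3).card : ℝ) * N⁻¹ * ((Cls s h k 3).card : ℝ)⁻¹ = N⁻¹
    rw [mul_zero, zero_add, mul_zero, zero_add, mul_right_comm, mul_inv_cancel₀ e4, one_mul]

private theorem ksp_Wr_le {s h k : ℕ} : Wr s h k ≤ sym (Top s h k) := fun _ hg => hg.1

theorem ksplit {s h k : ℕ} (hk : 1 ≤ k) (hks : k < s) (hh : 5 * s + 5 ≤ h) :
    ∃ K : GA (Fin s × Fin h), Net (Zf s h k ∪ Xf s h k) K 2 ∧
      AG s h k * ab (Top s h k) row * av (Xf s h k) * K *
        (av (Zf s h k) * av (Top s h k \ Zf s h k)) = av (Top s h k) := by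
  have hh1 : 1 ≤ h := by omega
  rw [AG_mul_ab hks hh1]
  set Z := Zf s h k with hZdef
  set X := Xf s h k with hXdef
  let z₁ : Fin s × Fin h := (⟨k, hks⟩, ⟨h - 3, by omega⟩)
  let z₂ : Fin s × Fin h := (⟨k, hks⟩, ⟨h - 2, by omega⟩)
  let z₃ : Fin s × Fin h := (⟨k, hks⟩, ⟨h - 1, by omega⟩)
  let u₀ : Fin s × Fin h := (⟨0, by omega⟩, ⟨3 * s + k, by omega⟩)
  have hz12 : z₁ ≠ z₂ := by
    intro hc
    have h1 := congrArg (fun v : Fin s × Fin h => v.2.val) hc
    simp only [z₁, z₂] at h1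
    omega
  have hz13 : z₁ ≠ z₃ := by
    intro hc
    have h1 := congrArg (fun v : Fin s × Fin h => v.2.val) hc
    simp only [z₁, z₃] at h1
    omega
  have hz23 : z₂ ≠ z₃ := by
    intro hc
    have h1 := congrArg (fun v : Fin s × Fin h => v.2.val) hc
    simp only [z₂, z₃] at h1
    omega
  have hZe : Z = {z₁, z₂, z₃} := by
    ext v
    simp only [hZdef, Zf, Finset.mem_filter, Finset.mem_univ, true_and, Finset.mem_insert,
      Finset.mem_singleton, z₁, z₂, z₃, Prod.ext_iff, Fin.ext_iff]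
    have := v.2.isLt
    omega
  have hZ3 : Z.card = 3 := by
    rw [hZe, Finset.card_eq_three]
    exact ⟨z₁, z₂, z₃, hz12, hz13, hz23, rfl⟩
  have hz1 : z₁ ∈ Z := by rw [hZe]; simp
  have hz2 : z₂ ∈ Z := by rw [hZe]; simp
  have hz3 : z₃ ∈ Z := by rw [hZe]; simp
  have hu0 : u₀ ∈ X := by
    exact Finset.mem_filter.2 ⟨Finset.mem_univ _, hk, rfl⟩
  have hdis : ∀ v, v ∈ Z → v ∉ X := by
    intro v hv hv'
    simp only [hZdef, Zf, Finset.mem_filter, Finset.mem_univ, true_and] at hv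
    simp only [hXdef, Xf, Finset.mem_filter, Finset.mem_univ, true_and] at hv'
    omega
  have hne : ∀ z ∈ Z, ∀ e ∈ X, z ≠ e := fun z hz e he h' => hdis z hz (h' ▸ he)
  have hZT : Z ⊆ Top s h k := by
    intro v hv
    simp only [hZdef, Zf, Finset.mem_filter, Finset.mem_univ, true_and] at hv
    simp only [Top, Finset.mem_filter, Finset.mem_univ, true_and]
    omega
  have hXT : X ⊆ Top s h k := by
    intro v hv
    simp only [hXdef, Xf, Finset.mem_filter, Finset.mem_univ, true_and] at hv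
    simp only [Top, Finset.mem_filter, Finset.mem_univ, true_and]
    omega
  have hZX0 : (Z ∩ X).card = 0 := by
    rw [Finset.card_eq_zero, ← Finset.disjoint_iff_inter_eq_empty, Finset.disjoint_left]
    exact hdis
  obtain ⟨hn1, hn2, hn3⟩ := ksp_numbers hk hks hh
  set N : ℝ := (((k + 1) * h).choose 3 : ℝ) with hN
  have hmemalg : ∀ K : GA (Fin s × Fin h), Net (Z ∪ X) K 2 →
      avg (Wr s h k) * av X * K ∈ alg (Top s h k) := by
    intro K hK
    refine Subalgebra.mul_mem _ (Subalgebra.mul_mem _ (avg_mem_alg ksp_Wr_le)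
      (alg_mono hXT (av_mem_alg X))) ?_
    exact alg_mono (Finset.union_subset hZT hXT) hK.mem_alg
  set φ : Finset (Fin s × Fin h) → ℕ → ℝ := fun S i =>
    if S ∈ Cls s h k (i + 1) then ((Cls s h k (i + 1)).card : ℝ)⁻¹ else 0 with hφ
  have key : ∀ (S T : Finset (Fin s × Fin h)) (i : ℕ), T ⊆ Z ∪ X → T.card = 3 → z₁ ∈ T →
      (T ∩ X).card = i → push T (avg (Wr s h k) * av X) S = φ S i := by
    intro S T i h1 h2 h3 h4
    exact ksp_key hks h1 h2 h3 hz1 h4 S
  have hcardN : ((Top s h k).card.choose Z.card : ℝ) = N := by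
    rw [hZ3, card_Top hks]
  -- general step: one lazy transposition
  have l1 : ∀ (S T : Finset (Fin s × Fin h)) (i : ℕ) (p : ℝ), T ⊆ Z ∪ X → T.card = 3 →
      z₁ ∈ T → z₂ ∈ T → u₀ ∉ T → (T ∩ X).card = i →
      push T (avg (Wr s h k) * av X * lz (z₂, u₀, p)) S = (1 - p) * φ S i + p * φ S (i + 1) := by
    intro S T i p h1 h2 h3 h4 h5 h6
    obtain ⟨s1, s2, s3, -⟩ := ksp_step h1 h4 h5 (hdis _ hz2) hu0
    rw [ksp_push_lz, key S T i h1 h2 h3 h6,
      key S _ (i + 1) s1 (by rw [Finset.card_map, h2]) (s3 _ hz12 h3) (by rw [s2, h6])]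
  by_cases hk1 : k = 1
  · -- only one explicit site
    have hC3 : ((Cls s h k 3).card : ℝ) = 0 := by
      rw [card_Cls3 hks, hk1]
      norm_num
    set q : ℝ := ((Cls s h k 2).card : ℝ) / N with hq
    have hq0 : 0 ≤ q := by positivity
    have hq1 : q ≤ 1 := by
      rw [hq, div_le_one hn3]
      have : (0 : ℝ) ≤ ((Cls s h k 1).card : ℝ) := Nat.cast_nonneg _
      linarith
    have hnet : Net (Z ∪ X) (lz (z₂, u₀, q)) 2 :=
      (Net.single (Finset.mem_union_left _ hz2) (Finset.mem_union_right _ hu0)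
        (hne _ hz2 _ hu0) hq0 hq1).mono (Finset.Subset.refl _) (by norm_num)
    refine ⟨lz (z₂, u₀, q), hnet, ?_⟩
    apply push_crit (hmemalg _ hnet) hZT
    intro S hS hS3
    rw [hZ3] at hS3
    rw [hcardN, l1 S Z 0 q Finset.subset_union_left hZ3 hz1 hz2 (fun h' => hdis _ h' hu0) hZX0]
    have hfin := ksp_final hS hS3 (1 - q) q 0 N (by
      rw [hq, eq_div_iff hn3.ne', sub_mul, div_mul_cancel₀ _ hn3.ne']
      linarith) hq (by rw [hC3, zero_div])
    rw [zero_mul, add_zero] at hfin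
    exact hfin
  · have hk2 : 2 ≤ k := by omega
    let u₁ : Fin s × Fin h := (⟨1, by omega⟩, ⟨3 * s + k, by omega⟩)
    have hu1 : u₁ ∈ X := by
      exact Finset.mem_filter.2 ⟨Finset.mem_univ _, hk2, rfl⟩
    have hu01 : u₀ ≠ u₁ := by
      intro hc
      have h1 := congrArg (fun v : Fin s × Fin h => v.1.val) hc
      simp only [u₀, u₁] at h1
      omega
    obtain ⟨p₁, p₂, a1, a2, a3, a4, c0, c1, c2⟩ := exists_quadratic
      (((Cls s h k 1).card : ℝ) / N) (((Cls s h k 2).card : ℝ) / N) (((Cls s h k 3).card : ℝ) / N)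
      (by positivity) (by positivity) (by positivity)
      (by rw [← add_div, ← add_div, hn2, div_self hn3.ne'])
      (by
        have e1 : 4 * (((Cls s h k 1).card : ℝ) / N) * (((Cls s h k 3).card : ℝ) / N) =
            (4 * ((Cls s h k 1).card : ℝ) * ((Cls s h k 3).card : ℝ)) / N ^ 2 := by
          field_simp
        rw [e1, div_pow]
        exact div_le_div_of_nonneg_right hn1 (by positivity))
    have hnet : Net (Z ∪ X) (lz (z₂, u₀, p₁) * lz (z₃, u₁, p₂)) (1 + 1) :=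
      Net.mul (Net.single (Finset.mem_union_left _ hz2) (Finset.mem_union_right _ hu0)
        (hne _ hz2 _ hu0) a1 a2)
        (Net.single (Finset.mem_union_left _ hz3) (Finset.mem_union_right _ hu1)
        (hne _ hz3 _ hu1) a3 a4)
    refine ⟨lz (z₂, u₀, p₁) * lz (z₃, u₁, p₂), hnet, ?_⟩
    apply push_crit (hmemalg _ hnet) hZT
    intro S hS hS3
    rw [hZ3] at hS3
    obtain ⟨s1, s2, s3, s4⟩ := ksp_step (T := Z) Finset.subset_union_left hz3
      (fun h' => hdis _ h' hu1) (hdis _ hz3) hu1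
    rw [hcardN, ← mul_assoc, ksp_push_lz,
      l1 S Z 0 p₁ Finset.subset_union_left hZ3 hz1 hz2 (fun h' => hdis _ h' hu0) hZX0,
      l1 S _ (0 + 1) p₁ s1 (by rw [Finset.card_map, hZ3]) (s3 _ hz13 hz1) (s3 _ hz23 hz2)
        (s4 _ hu01 (fun h' => hdis _ h' hu0)) (by rw [s2, hZX0])]
    have hexp : (1 - p₂) * ((1 - p₁) * φ S 0 + p₁ * φ S (0 + 1)) +
        p₂ * ((1 - p₁) * φ S (0 + 1) + p₁ * φ S (0 + 1 + 1)) =
        ((1 - p₁) * (1 - p₂)) * φ S 0 + (p₁ * (1 - p₂) + (1 - p₁) * p₂) * φ S 1 +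
          (p₁ * p₂) * φ S 2 := by
      simp only [zero_add]
      norm_num
      ring
    rw [hexp, c0, c1, c2]
    exact ksp_final hS hS3 _ _ _ N rfl rfl rfl

end LZS
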