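import Pool.Agent.LZS.Lay

/-!
# LZS.KSpA: row permutation times row shuffles = wreath group

PROOF. X = AG k * ab (Top k) row. `X * P l = X` for l ∈ Wr: write l = g b with g = layHom σ ∈ GG k (σ = the permutation of rows induced by l: for a row
b ≤ k all sites of row b go to one row σ b ≤ k (h ≥ 1, Wr condition; rows > k fixed)), b = g⁻¹ l ∈ blk (Top k) row. X * P g = AG * ab * P g = AG * P g * ab
(conjugation by g preserves blk (Top k) row: P_comm_avg) = X, X * P b = X (avg_mul_P). Hence X = X * avg Wr (mul_avg_eq), and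
X * avg Wr = avg Wr since GG k ≤ Wr, blk (Top k) row ≤ Wr (avg_mul_of_le twice).
-/

open Finset Equiv

noncomputable section

namespace LZS

theorem kspa_GG_le {s h k : ℕ} : GG s h k ≤ Wr s h k := by
  intro g hg
  obtain ⟨σ, hσ, hgv⟩ := mem_GG.1 hg
  refine ⟨fun v hv => ?_, fun v w => ?_⟩
  · have h1 : k < v.1.val := by
      by_contra hc
      exact hv (Finset.mem_filter.2 ⟨Finset.mem_univ _, by omega⟩)
    rw [hgv v, hσ v.1 h1]
  · rw [hgv v, hgv w]
    exact σ.injective.eq_iff.symm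

theorem kspa_blk_le {s h k : ℕ} : blk (Top s h k) row ≤ Wr s h k := by
  intro g hg
  refine ⟨hg.1, fun v w => ?_⟩
  have h1 : ∀ v, (g v).1 = v.1 := fun v => Fin.ext (hg.2 v)
  rw [h1 v, h1 w]

theorem kspa_conj {s h k : ℕ} {g : Perm (Fin s × Fin h)} (hg : g ∈ GG s h k) :
    ∀ x ∈ blk (Top s h k) row, g * x * g⁻¹ ∈ blk (Top s h k) row := by
  intro x hx
  obtain ⟨σ, hσ, hgv⟩ := mem_GG.1 hg
  refine ⟨fun v hv => ?_, fun v => ?_⟩
  · have h1 : g v = v := (kspa_GG_le hg).1 v hv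
    have h2 : g⁻¹ v = v := by rw [Perm.inv_eq_iff_eq, h1]
    rw [Perm.mul_apply, Perm.mul_apply, h2, hx.1 v hv, h1]
  · rw [Perm.mul_apply, Perm.mul_apply]
    have h1 : (x (g⁻¹ v)).1 = (g⁻¹ v).1 := Fin.ext (hx.2 (g⁻¹ v))
    have h2 : (g (x (g⁻¹ v))).1 = (g (g⁻¹ v)).1 := by
      rw [hgv, hgv, h1]
    have h3 : g (g⁻¹ v) = v := g.apply_symm_apply v
    rw [h3] at h2
    unfold row
    rw [h2]

theorem kspa_dec {s h k : ℕ} (hh : 1 ≤ h) {l : Perm (Fin s × Fin h)} (hl : l ∈ Wr s h k) :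
    ∃ g ∈ GG s h k, ∃ b ∈ blk (Top s h k) row, l = g * b := by
  let c0 : Fin h := ⟨0, hh⟩
  have hinj : Function.Injective (fun b : Fin s => (l (b, c0)).1) := by
    intro b b' hbb
    exact (hl.2 (b, c0) (b', c0)).2 hbb
  let σ : Perm (Fin s) := Equiv.ofBijective _ (Finite.injective_iff_bijective.1 hinj)
  have hσ : ∀ b, σ b = (l (b, c0)).1 := fun b => rfl
  have hfix : ∀ b : Fin s, k < b.val → σ b = b := by
    intro b hb
    have h1 : (b, c0) ∉ Top s h k := by
      intro h2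
      have h3 := (Finset.mem_filter.1 h2).2
      simp only at h3
      omega
    rw [hσ, hl.1 _ h1]
  have hinj2 : Function.Injective (fun v : Fin s × Fin h => (σ v.1, v.2)) := by
    intro v w hvw
    have hvw' : ((σ v.1, v.2) : Fin s × Fin h) = (σ w.1, w.2) := hvw
    have h1 : σ v.1 = σ w.1 := (Prod.mk.inj hvw').1
    have h2 : v.2 = w.2 := (Prod.mk.inj hvw').2
    exact Prod.ext (σ.injective h1) h2
  let g : Perm (Fin s × Fin h) := Equiv.ofBijective _ (Finite.injective_iff_bijective.1 hinj2)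
  have hgv : ∀ v, g v = (σ v.1, v.2) := fun v => rfl
  have hg : g ∈ GG s h k := mem_GG.2 ⟨σ, hfix, hgv⟩
  refine ⟨g, hg, g⁻¹ * l, ⟨fun v hv => ?_, fun v => ?_⟩, by group⟩
  · rw [Perm.mul_apply, hl.1 v hv, Perm.inv_eq_iff_eq]
    exact ((kspa_GG_le hg).1 v hv).symm
  · rw [Perm.mul_apply]
    have h1 : (l v).1 = σ v.1 := by
      rw [hσ]
      exact (hl.2 v (v.1, c0)).1 rfl
    have h2 : g⁻¹ (l v) = (v.1, (l v).2) := by
      rw [Perm.inv_eq_iff_eq, hgv]
      exact Prod.ext h1 rfl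
    rw [h2]
    rfl

theorem AG_mul_ab {s h k : ℕ} (hk : k < s) (hh : 1 ≤ h) :
    AG s h k * ab (Top s h k) row = avg (Wr s h k) := by
  have h1 : AG s h k * ab (Top s h k) row * avg (Wr s h k) = avg (Wr s h k) := by
    unfold AG ab
    rw [mul_assoc, avg_mul_of_le kspa_blk_le, avg_mul_of_le kspa_GG_le]
  have h2 : AG s h k * ab (Top s h k) row * avg (Wr s h k) =
      AG s h k * ab (Top s h k) row := by
    unfold AG ab
    apply mul_avg_eq
    intro l hl
    obtain ⟨g, hg, b, hb, rfl⟩ := kspa_dec hh hl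
    have h3 : avg (blk (Top s h k) row) * P g = P g * avg (blk (Top s h k) row) :=
      (P_comm_avg (kspa_conj hg)).symm
    rw [P_mul, ← mul_assoc, mul_assoc (avg (GG s h k)), h3, ← mul_assoc, avg_mul_P hg, mul_assoc,
      avg_mul_P hb]
  rw [← h2, h1]

end LZS
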