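import Pool.Agent.LZS.Defs

/-!
# LZS.Push: the image of a set under a random permutation

PROOF. `push` is linear in `Q`; `push T (P g) S = 1` iff `T.map g = S`. Everything else follows by writing
`Q = ∑ g, Q.coeff g • P g` (finite sum).  `push_mul_P`: reindex `g ↦ g * x`.
`push_avg_orbit`: if `S ∉ 𝒪` no `g ∈ H` maps `T` to `S` (h1); if `S ∈ 𝒪`, the number of `g ∈ H` with `g T = S`
does not depend on `S ∈ 𝒪` (compose with an element of `H` taking `S` to `S'`, exists by h2), and the sum over
`S ∈ 𝒪` of these numbers is `|H|`.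
`push_crit`: for `Q ∈ alg Y`, `Q = ∑_{g ∈ sym Y} c_g P g`. Put `E = av T * av (Y \ T)`; for `g, g' ∈ sym Y` with
`g T = g' T`, `g⁻¹ g' = a b` with `a ∈ sym T`, `b ∈ sym (Y \ T)`, hence `P g * E = P g' * E`. So
`Q * E = ∑_S (push T Q S) • E_S`, `E_S = P g * E` for any `g ∈ sym Y` with `g T = S` (S ⊆ Y, |S| = |T|), and the
same for `av Y` whose push is constant `1 / C(|Y|,|T|)` (by push_avg_orbit with H = sym Y); finally
`av Y * E = av Y` by `mul_av_av`.
-/

open Finset Equiv

noncomputable section

namespace LZS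

variable {V : Type} [Fintype V] [DecidableEq V]

/-- `push T Q S`: the `Q`-probability that `T` is mapped to `S` -/
def push (T : Finset V) (Q : GA V) (S : Finset V) : ℝ :=
  ∑ g : Perm V, if T.map g.toEmbedding = S then Q.coeff g else 0

theorem push_add (T : Finset V) (Q Q' : GA V) (S : Finset V) :
    push T (Q + Q') S = push T Q S + push T Q' S := by
  unfold push
  rw [← Finset.sum_add_distrib]
  refine Finset.sum_congr rfl fun g _ => ?_
  rw [MonoidAlgebra.coeff_add, Finsupp.add_apply]
  split_ifs
  · rfl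
  · rw [add_zero]

theorem push_smul (T : Finset V) (r : ℝ) (Q : GA V) (S : Finset V) :
    push T (r • Q) S = r * push T Q S := by
  unfold push
  rw [Finset.mul_sum]
  refine Finset.sum_congr rfl fun g _ => ?_
  rw [MonoidAlgebra.coeff_smul_apply, smul_eq_mul]
  split_ifs
  · rfl
  · rw [mul_zero]

private theorem push_Pc (s g : Perm V) : (P s).coeff g = if s = g then (1 : ℝ) else 0 := by
  unfold P
  rw [MonoidAlgebra.of_apply, MonoidAlgebra.coeff_single, Finsupp.single_apply]

theorem push_P (T : Finset V) (g : Perm V) (S : Finset V) :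
    push T (P g) S = if T.map g.toEmbedding = S then 1 else 0 := by
  unfold push
  rw [Finset.sum_eq_single g]
  · rw [push_Pc, if_pos rfl]
  · intro g' _ hne
    have h0 : ¬ g = g' := fun h => hne h.symm
    rw [push_Pc]
    simp [h0]
  · intro h
    exact absurd (Finset.mem_univ g) h

/-- right multiplication by a permutation moves the starting set -/
theorem push_mul_P (T : Finset V) (A : GA V) (x : Perm V) (S : Finset V) :
    push T (A * P x) S = push (T.map x.toEmbedding) A S := by
  unfold push
  rw [← Equiv.sum_comp (Equiv.mulRight x)]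
  refine Finset.sum_congr rfl fun g _ => ?_
  have h1 : (A * P x).coeff (g * x) = A.coeff g := by
    unfold P
    rw [MonoidAlgebra.of_apply, MonoidAlgebra.coeff_mul_single_apply, mul_one]
    congr 1
    group
  have h2 : T.map (g * x).toEmbedding = (T.map x.toEmbedding).map g.toEmbedding := by
    rw [Finset.map_map]
    rfl
  rw [Equiv.coe_mulRight, h1, h2]

omit [Fintype V] [DecidableEq V] in
private theorem push_map_mul (T : Finset V) (g x : Perm V) :
    T.map (g * x).toEmbedding = (T.map x.toEmbedding).map g.toEmbedding := by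
  rw [Finset.map_map]
  rfl

private theorem push_avg_eq (H : Subgroup (Perm V)) (T S : Finset V) :
    push T (avg H) S = ((elts H).card : ℝ)⁻¹ *
      (((elts H).filter (fun g => T.map g.toEmbedding = S)).card : ℝ) := by
  unfold avg
  rw [push_smul]
  congr 1
  have h1 : ∀ F : Finset (Perm V), push T (∑ g ∈ F, P g) S =
      ((F.filter (fun g => T.map g.toEmbedding = S)).card : ℝ) := by
    intro F
    induction F using Finset.induction_on with
    | empty =>
      rw [Finset.sum_empty, Finset.filter_empty, Finset.card_empty, Nat.cast_zero]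
      unfold push
      refine Finset.sum_eq_zero fun g _ => ?_
      simp
    | insert a F ha ih =>
      rw [Finset.sum_insert ha, push_add, ih, push_P, Finset.filter_insert]
      split_ifs with h
      · rw [Finset.card_insert_of_notMem (fun h' => ha (Finset.mem_filter.1 h').1)]
        push_cast
        ring
      · rw [zero_add]
  exact h1 _

/-- the average over a group acting transitively on the class `𝒪` of `T` -/
theorem push_avg_orbit (H : Subgroup (Perm V)) (T : Finset V) (𝒪 : Finset (Finset V))
    (h1 : ∀ g ∈ H, ∀ S ∈ 𝒪, S.map g.toEmbedding ∈ 𝒪) (hT : T ∈ 𝒪)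
    (h2 : ∀ S ∈ 𝒪, ∃ g ∈ H, T.map g.toEmbedding = S) (S : Finset V) :
    push T (avg H) S = if S ∈ 𝒪 then ((𝒪.card : ℝ))⁻¹ else 0 := by
  classical
  rw [push_avg_eq]
  by_cases hS : S ∈ 𝒪
  · rw [if_pos hS]
    have hconst : ∀ S' ∈ 𝒪, ((elts H).filter (fun g => T.map g.toEmbedding = S')).card =
        ((elts H).filter (fun g => T.map g.toEmbedding = T)).card := by
      intro S' hS'
      obtain ⟨g₀, hg₀, hg₀'⟩ := h2 S' hS'
      symm
      refine Finset.card_bij (fun g _ => g₀ * g) ?_ ?_ ?_
      · intro g hg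
        rw [Finset.mem_filter] at hg ⊢
        refine ⟨mem_elts.2 (H.mul_mem hg₀ (mem_elts.1 hg.1)), ?_⟩
        rw [push_map_mul, hg.2, hg₀']
      · intro a _ b _ hab
        exact mul_left_cancel hab
      · intro g hg
        rw [Finset.mem_filter] at hg
        refine ⟨g₀⁻¹ * g, ?_, by group⟩
        rw [Finset.mem_filter]
        refine ⟨mem_elts.2 (H.mul_mem (H.inv_mem hg₀) (mem_elts.1 hg.1)), ?_⟩
        rw [push_map_mul, hg.2, ← hg₀', ← push_map_mul, inv_mul_cancel]
        exact Finset.map_refl
    have hsum : (elts H).card = ∑ S' ∈ 𝒪, ((elts H).filter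
        (fun g => T.map g.toEmbedding = S')).card := by
      refine Finset.card_eq_sum_card_fiberwise (f := fun g : Perm V => T.map g.toEmbedding) ?_
      intro g hg
      exact h1 g (mem_elts.1 hg) T hT
    rw [Finset.sum_congr rfl hconst, Finset.sum_const, smul_eq_mul] at hsum
    rw [hconst S hS]
    have h3 : ((elts H).card : ℝ) = (𝒪.card : ℝ) *
        (((elts H).filter (fun g => T.map g.toEmbedding = T)).card : ℝ) := by
      rw [← Nat.cast_mul, ← hsum]
    have h4 : ((elts H).card : ℝ) ≠ 0 := by exact_mod_cast (elts_card_pos H).ne'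
    have h5 : (𝒪.card : ℝ) ≠ 0 := by
      intro h0
      rw [h0, zero_mul] at h3
      exact h4 h3
    field_simp
    linarith
  · rw [if_neg hS]
    have h0 : (elts H).filter (fun g => T.map g.toEmbedding = S) = ∅ := by
      rw [Finset.filter_eq_empty_iff]
      intro g hg h
      rw [← h] at hS
      exact hS (h1 g (mem_elts.1 hg) T hT)
    rw [h0, Finset.card_empty, Nat.cast_zero, mul_zero]

/-- two subsets of `Y` of the same size are related by a permutation supported in `Y` -/
theorem exists_sym_map {Y A B : Finset V} (hA : A ⊆ Y) (hB : B ⊆ Y) (h : A.card = B.card) :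
    ∃ g ∈ sym Y, A.map g.toEmbedding = B := by
  classical
  have hc : Fintype.card {y : {v // v ∈ Y} // y.1 ∈ A} = Fintype.card {y : {v // v ∈ Y} // y.1 ∈ B} := by
    have key : ∀ C : Finset V, C ⊆ Y → Fintype.card {y : {v // v ∈ Y} // y.1 ∈ C} = C.card := by
      intro C hC
      rw [← Fintype.card_coe C]
      refine Fintype.card_congr ⟨fun y => ⟨y.1.1, y.2⟩, fun c => ⟨⟨c.1, hC c.2⟩, c.2⟩, ?_, ?_⟩
      · intro y; rfl
      · intro c; rfl
    rw [key A hA, key B hB, h]
  let e : {y : {v // v ∈ Y} // y.1 ∈ A} ≃ {y : {v // v ∈ Y} // y.1 ∈ B} := Fintype.equivOfCardEq hc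
  let σ : Perm {v // v ∈ Y} := e.extendSubtype
  refine ⟨Perm.ofSubtype σ, ?_, ?_⟩
  · intro v hv
    exact Perm.ofSubtype_apply_of_not_mem σ hv
  · apply Finset.eq_of_subset_of_card_le
    · intro w hw
      obtain ⟨v, hv, rfl⟩ := Finset.mem_map.1 hw
      have h1 : Perm.ofSubtype σ v = (σ ⟨v, hA hv⟩).1 :=
        Perm.ofSubtype_apply_of_mem σ (hA hv)
      show Perm.ofSubtype σ v ∈ B
      rw [h1]
      exact e.extendSubtype_mem ⟨v, hA hv⟩ hv
    · rw [Finset.card_map, h]

/-- the same with all block sizes of `f` equal -/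
theorem exists_blk_map {Y A B : Finset V} {f : V → ℕ} (hA : A ⊆ Y) (hB : B ⊆ Y)
    (h : ∀ i, (A.filter (fun v => f v = i)).card = (B.filter (fun v => f v = i)).card) :
    ∃ g ∈ blk Y f, A.map g.toEmbedding = B := by
  classical
  have hex : ∀ i, ∃ g ∈ sym (Y.filter (fun v => f v = i)),
      (A.filter (fun v => f v = i)).map g.toEmbedding = B.filter (fun v => f v = i) := by
    intro i
    exact exists_sym_map (Finset.filter_subset_filter _ hA) (Finset.filter_subset_filter _ hB) (h i)
  choose G hG1 hG2 using hex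
  have hstab : ∀ (i : ℕ) (x : Perm V), x ∈ sym (Y.filter (fun v => f v = i)) → ∀ v, f v = i →
      f (x v) = i := by
    intro i x hx v hv
    by_cases hvY : v ∈ Y.filter (fun v => f v = i)
    · by_contra hc
      have h1 : x v ∉ Y.filter (fun v => f v = i) := fun h' => hc (Finset.mem_filter.1 h').2
      have h2 : x (x v) = x v := hx _ h1
      have h3 : x v = v := x.injective h2
      rw [h3] at hc
      exact hc hv
    · rw [hx v hvY, hv]
  let g : Perm V :=
    { toFun := fun v => G (f v) v
      invFun := fun v => (G (f v))⁻¹ v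
      left_inv := by
        intro v
        have h1 : f (G (f v) v) = f v := hstab (f v) _ (hG1 _) v rfl
        show (G (f (G (f v) v)))⁻¹ (G (f v) v) = v
        rw [h1]
        exact (G (f v)).symm_apply_apply v
      right_inv := by
        intro v
        have h1 : f ((G (f v))⁻¹ v) = f v :=
          hstab (f v) _ ((sym _).inv_mem (hG1 _)) v rfl
        show G (f ((G (f v))⁻¹ v)) ((G (f v))⁻¹ v) = v
        rw [h1]
        exact (G (f v)).apply_symm_apply v }
  have hg : ∀ v, g v = G (f v) v := fun v => rfl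
  have hfg : ∀ v, f (g v) = f v := fun v => hstab (f v) _ (hG1 _) v rfl
  refine ⟨g, ⟨?_, hfg⟩, ?_⟩
  · intro v hv
    exact hG1 (f v) v (fun h' => hv (Finset.mem_filter.1 h').1)
  · ext w
    constructor
    · intro hw
      obtain ⟨v, hv, rfl⟩ := Finset.mem_map.1 hw
      have h1 : G (f v) v ∈ (A.filter (fun u => f u = f v)).map (G (f v)).toEmbedding :=
        Finset.mem_map.2 ⟨v, Finset.mem_filter.2 ⟨hv, rfl⟩, rfl⟩
      rw [hG2] at h1
      exact (Finset.mem_filter.1 h1).1
    · intro hw
      have h1 : w ∈ (A.filter (fun u => f u = f w)).map (G (f w)).toEmbedding := by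
        rw [hG2]
        exact Finset.mem_filter.2 ⟨hw, rfl⟩
      obtain ⟨v, hv, hvw⟩ := Finset.mem_map.1 h1
      obtain ⟨hv1, hv2⟩ := Finset.mem_filter.1 hv
      refine Finset.mem_map.2 ⟨v, hv1, ?_⟩
      show G (f v) v = w
      rw [hv2]
      exact hvw

private theorem push_coeff_zero {Y : Finset V} {Q : GA V} (hQ : Q ∈ alg Y) :
    ∀ g, g ∉ sym Y → Q.coeff g = 0 := by
  classical
  let U : Subalgebra ℝ (GA V) :=
    { carrier := {Q | ∀ g, g ∉ sym Y → Q.coeff g = 0}
      mul_mem' := by
        intro a b ha hb g hg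
        have h1 : ∀ x : GA V, x = ∑ s : Perm V, x.coeff s • P s := by
          intro x
          refine MonoidAlgebra.ext (Finsupp.ext fun t => ?_)
          rw [MonoidAlgebra.coeff_sum, Finsupp.finsetSum_apply, Finset.sum_eq_single t]
          · rw [MonoidAlgebra.coeff_smul_apply, push_Pc, if_pos rfl, smul_eq_mul, mul_one]
          · intro s _ hne
            rw [MonoidAlgebra.coeff_smul_apply, push_Pc, if_neg hne, smul_zero]
          · intro h
            exact absurd (Finset.mem_univ t) h
        have h2 : (a * b).coeff g = ∑ s : Perm V, a.coeff s * b.coeff (s⁻¹ * g) := by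
          conv_lhs => rw [h1 a, Finset.sum_mul, MonoidAlgebra.coeff_sum, Finsupp.finsetSum_apply]
          refine Finset.sum_congr rfl fun s _ => ?_
          rw [smul_mul_assoc, MonoidAlgebra.coeff_smul_apply, smul_eq_mul]
          congr 1
          unfold P
          rw [MonoidAlgebra.of_apply, MonoidAlgebra.coeff_single_mul_apply, one_mul]
        rw [h2]
        refine Finset.sum_eq_zero fun s _ => ?_
        by_cases hs : s ∈ sym Y
        · rw [hb (s⁻¹ * g), mul_zero]
          intro h3
          apply hg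
          have := (sym Y).mul_mem hs h3
          rwa [mul_inv_cancel_left] at this
        · rw [ha s hs, zero_mul]
      add_mem' := by
        intro a b ha hb g hg
        rw [MonoidAlgebra.coeff_add, Finsupp.add_apply, ha g hg, hb g hg, add_zero]
      algebraMap_mem' := by
        intro r g hg
        rw [Algebra.algebraMap_eq_smul_one, MonoidAlgebra.coeff_smul_apply, ← P_one, push_Pc,
          if_neg, smul_zero]
        intro h
        apply hg
        rw [← h]
        exact (sym Y).one_mem }
  have h1 : alg Y ≤ U := by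
    refine Algebra.adjoin_le ?_
    rintro _ ⟨s, hs, rfl⟩ g hg
    rw [push_Pc, if_neg]
    intro h
    rw [h] at hs
    exact hg hs
  exact h1 hQ

private theorem push_expand (x : GA V) : x = ∑ s : Perm V, x.coeff s • P s := by
  refine MonoidAlgebra.ext (Finsupp.ext fun t => ?_)
  rw [MonoidAlgebra.coeff_sum, Finsupp.finsetSum_apply, Finset.sum_eq_single t]
  · rw [MonoidAlgebra.coeff_smul_apply, push_Pc, if_pos rfl, smul_eq_mul, mul_one]
  · intro s _ hne
    rw [MonoidAlgebra.coeff_smul_apply, push_Pc, if_neg hne, smul_zero]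
  · intro h
    exact absurd (Finset.mem_univ t) h

private theorem push_sep {Y T : Finset V} {g g' : Perm V} (hg : g ∈ sym Y)
    (hg' : g' ∈ sym Y) (h : T.map g.toEmbedding = T.map g'.toEmbedding) :
    P g * (av T * av (Y \ T)) = P g' * (av T * av (Y \ T)) := by
  set w : Perm V := g⁻¹ * g' with hw
  have hwY : w ∈ sym Y := (sym Y).mul_mem ((sym Y).inv_mem hg) hg'
  have hwT : ∀ v, v ∈ T → w v ∈ T := by
    intro v hv
    have h1 : g' v ∈ T.map g.toEmbedding := by
      rw [h]
      exact Finset.mem_map.2 ⟨v, hv, rfl⟩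
    obtain ⟨u, hu, hu'⟩ := Finset.mem_map.1 h1
    have h2 : w v = u := by
      rw [hw, Perm.mul_apply, Perm.inv_eq_iff_eq]
      exact hu'.symm
    rw [h2]
    exact hu
  obtain ⟨x, hx, hx1, hx2⟩ := exists_restrict hwT
  have hy : x⁻¹ * w ∈ sym (Y \ T) := by
    intro v hv
    by_cases hvT : v ∈ T
    · exact hx2 v hvT
    · have hvY : v ∉ Y := fun h' => hv (Finset.mem_sdiff.2 ⟨h', hvT⟩)
      rw [Perm.mul_apply, hwY v hvY]
      exact (sym T).inv_mem hx v hvT
  have h1 : P (x⁻¹ * w) * av T = av T * P (x⁻¹ * w) :=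
    alg_comm Finset.disjoint_sdiff.symm (P_mem_alg hy) (av_mem_alg T)
  have h2 : P w * (av T * av (Y \ T)) = av T * av (Y \ T) := by
    have e1 : w = x * (x⁻¹ * w) := by group
    conv_lhs => rw [e1]
    rw [P_mul, mul_assoc, ← mul_assoc (P (x⁻¹ * w)), h1, mul_assoc (av T),
      show P (x⁻¹ * w) * av (Y \ T) = av (Y \ T) from P_mul_avg hy, ← mul_assoc,
      show P x * av T = av T from P_mul_avg hx]
  have e2 : g' = g * w := by rw [hw]; group
  rw [e2, P_mul, mul_assoc, h2]

private theorem push_sum {Y T : Finset V} (hT : T ⊆ Y) (γ : Finset V → Perm V)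
    (hγ : ∀ S ∈ Y.powersetCard T.card, γ S ∈ sym Y ∧ T.map (γ S).toEmbedding = S)
    {Q : GA V} (hQ : Q ∈ alg Y) :
    Q * (av T * av (Y \ T)) = ∑ S ∈ Y.powersetCard T.card,
      push T Q S • (P (γ S) * (av T * av (Y \ T))) := by
  have h0 := push_coeff_zero hQ
  have hR : ∀ S ∈ Y.powersetCard T.card,
      push T Q S • (P (γ S) * (av T * av (Y \ T))) =
      ∑ g : Perm V, (if T.map g.toEmbedding = S then Q.coeff g else 0) •
        (P (γ S) * (av T * av (Y \ T))) := by
    intro S _
    unfold push
    rw [Finset.sum_smul]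
  rw [Finset.sum_congr rfl hR, Finset.sum_comm]
  conv_lhs => rw [push_expand Q, Finset.sum_mul]
  refine Finset.sum_congr rfl fun g _ => ?_
  by_cases hg : g ∈ sym Y
  · have hmem : T.map g.toEmbedding ∈ Y.powersetCard T.card := by
      rw [Finset.mem_powersetCard]
      refine ⟨?_, Finset.card_map _⟩
      intro w hw
      obtain ⟨v, hv, rfl⟩ := Finset.mem_map.1 hw
      by_contra hc
      have h2 : g (g v) = g v := hg _ hc
      have h3 : g v = v := g.injective h2
      apply hc
      show g v ∈ Y
      rw [h3]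
      exact hT hv
    rw [Finset.sum_eq_single (T.map g.toEmbedding)]
    · rw [if_pos rfl, smul_mul_assoc]
      congr 1
      obtain ⟨k1, k2⟩ := hγ _ hmem
      exact push_sep hg k1 k2.symm
    · intro S _ hne
      rw [if_neg (fun h => hne h.symm), zero_smul]
    · intro h
      exact absurd hmem h
  · rw [h0 g hg, zero_smul, zero_mul]
    symm
    refine Finset.sum_eq_zero fun S _ => ?_
    rw [ite_self, zero_smul]

/-- MAIN CRITERION: if the image of `T` under `Q` is uniform on the `|T|`-subsets of `Y`, then `Q`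
followed (on the right) by full shuffles of `T` and of `Y \ T` is the full shuffle of `Y` -/
theorem push_crit {Y T : Finset V} {Q : GA V} (hQ : Q ∈ alg Y) (hT : T ⊆ Y)
    (h : ∀ S : Finset V, S ⊆ Y → S.card = T.card →
      push T Q S = ((Y.card.choose T.card : ℝ))⁻¹) :
    Q * (av T * av (Y \ T)) = av Y := by
  classical
  have hex : ∀ S : Finset V, ∃ g : Perm V, S ∈ Y.powersetCard T.card →
      g ∈ sym Y ∧ T.map g.toEmbedding = S := by
    intro S
    by_cases hS : S ∈ Y.powersetCard T.card
    · obtain ⟨h1, h2⟩ := Finset.mem_powersetCard.1 hS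
      obtain ⟨g, hg1, hg2⟩ := exists_sym_map hT h1 h2.symm
      exact ⟨g, fun _ => ⟨hg1, hg2⟩⟩
    · exact ⟨1, fun h' => absurd h' hS⟩
  choose γ hγ using hex
  have hA := push_sum hT γ hγ hQ
  have hB := push_sum hT γ hγ (av_mem_alg Y)
  have hpush : ∀ S ∈ Y.powersetCard T.card, push T Q S = push T (av Y) S := by
    intro S hS
    obtain ⟨h1, h2⟩ := Finset.mem_powersetCard.1 hS
    rw [h S h1 h2]
    unfold av
    rw [push_avg_orbit (sym Y) T (Y.powersetCard T.card) ?_ ?_ ?_, if_pos hS,
      Finset.card_powersetCard]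
    · intro g hg S' hS'
      obtain ⟨h3, h4⟩ := Finset.mem_powersetCard.1 hS'
      rw [Finset.mem_powersetCard]
      refine ⟨?_, by rw [Finset.card_map, h4]⟩
      intro w hw
      obtain ⟨v, hv, rfl⟩ := Finset.mem_map.1 hw
      by_contra hc
      have h5 : g (g v) = g v := hg _ hc
      have h6 : g v = v := g.injective h5
      apply hc
      show g v ∈ Y
      rw [h6]
      exact h3 hv
    · exact Finset.mem_powersetCard.2 ⟨hT, rfl⟩
    · intro S' hS'
      exact ⟨γ S', (hγ S' hS').1, (hγ S' hS').2⟩
  rw [hA, Finset.sum_congr rfl (fun S hS => by rw [hpush S hS]), ← hB, ← mul_assoc, mul_av_av hT,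
    mul_av_av Finset.sdiff_subset]

end LZS
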