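import Pool.Agent.LZS.KSpA
import Pool.Agent.LZS.Push

/-!
# LZS.KSpB: the wreath group acts transitively on the classes of 3-subsets

PROOF. Invariance: g ∈ Wr maps Top to Top, preserves the cardinality and the number of rows met (v.1 = w.1 ↔ (g v).1 = (g w).1, so
(S.map g).image row and S.image row are in bijection). Transitivity: for |S| = 3 the function b ↦ |S ∩ row b| on {b ≤ k} takes the values
(3,0,..) if r = 1, (2,1,0,..) if r = 2, (1,1,1,0,...) if r = 3. So for S, T ∈ Cls r there is σ (fixing b > k) with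
|T ∩ row b| = |S ∩ row (σ b)|; then layHom σ T and S have the same row counts and `exists_blk_map` (f = row, Y = Top k) gives b ∈ blk with
b (layHom σ T) = S; g = b * layHom σ ∈ Wr. `push_avg_orbit` finishes.
-/

open Finset Equiv

noncomputable section

namespace LZS

private theorem card_image_le' {V : Type} {S : Finset V} {f f' : V → ℕ}
    (h : ∀ v ∈ S, ∀ w ∈ S, f v = f w → f' v = f' w) : (S.image f').card ≤ (S.image f).card := by
  classical
  let φ : ℕ → ℕ := fun y => if hy : ∃ v ∈ S, f v = y then f' hy.choose else 0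
  have h1 : S.image f' = (S.image f).image φ := by
    rw [Finset.image_image]
    apply Finset.image_congr
    intro v hv
    have hy : ∃ w ∈ S, f w = f v := ⟨v, hv, rfl⟩
    show f' v = φ (f v)
    simp only [φ]
    rw [dif_pos hy]
    exact h v hv _ hy.choose_spec.1 hy.choose_spec.2.symm
  rw [h1]
  exact Finset.card_image_le

private theorem Wr_top {s h k : ℕ} {g : Perm (Fin s × Fin h)} (hg : g ∈ Wr s h k)
    {v : Fin s × Fin h} (hv : v ∈ Top s h k) : g v ∈ Top s h k := by
  by_contra hc
  have h2 : g (g v) = g v := hg.1 _ hc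
  have h3 : g v = v := g.injective h2
  exact hc (h3.symm ▸ hv)

theorem Cls_inv {s h k r : ℕ} {g : Perm (Fin s × Fin h)} (hg : g ∈ Wr s h k)
    {S : Finset (Fin s × Fin h)} (hS : S ∈ Cls s h k r) : S.map g.toEmbedding ∈ Cls s h k r := by
  classical
  rw [Cls, Finset.mem_filter] at hS ⊢
  obtain ⟨-, a1, a2, a3⟩ := hS
  refine ⟨Finset.mem_univ _, ?_, ?_, ?_⟩
  · intro w hw
    obtain ⟨v, hv, rfl⟩ := Finset.mem_map.1 hw
    exact Wr_top hg (a1 hv)
  · rw [Finset.card_map, a2]
  · have h1 : (S.map g.toEmbedding).image row = S.image (fun v => row (g v)) := by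
      ext y
      simp only [Finset.mem_image, Finset.mem_map, Equiv.coe_toEmbedding, exists_exists_and_eq_and]
    rw [h1, ← a3]
    apply le_antisymm
    · apply card_image_le'
      intro v _ w _ hvw
      have h2 : v.1 = w.1 := Fin.ext hvw
      exact congrArg Fin.val ((hg.2 v w).1 h2)
    · apply card_image_le'
      intro v _ w _ hvw
      have h2 : (g v).1 = (g w).1 := Fin.ext hvw
      exact congrArg Fin.val ((hg.2 v w).2 h2)

private def cnt {s h : ℕ} (S : Finset (Fin s × Fin h)) (b : Fin s) : ℕ :=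
  (S.filter (fun v => v.1 = b)).card

private def low (s k : ℕ) : Finset (Fin s) := univ.filter (fun b => b.val ≤ k)

private def nj {s h : ℕ} (k : ℕ) (S : Finset (Fin s × Fin h)) (j : ℕ) : ℕ :=
  ((low s k).filter (fun b => cnt S b = j)).card

private theorem cnt_facts {s h k r : ℕ} {S : Finset (Fin s × Fin h)} (hS : S ∈ Cls s h k r) :
    (∀ b, cnt S b ≤ 3) ∧ nj k S 1 + 2 * nj k S 2 + 3 * nj k S 3 = 3 ∧
      nj k S 1 + nj k S 2 + nj k S 3 = r ∧
      nj k S 0 + nj k S 1 + nj k S 2 + nj k S 3 = (low s k).card := by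
  classical
  rw [Cls, Finset.mem_filter] at hS
  obtain ⟨-, a1, a2, a3⟩ := hS
  have hle : ∀ b, cnt S b ≤ 3 := fun b => a2 ▸ Finset.card_le_card (Finset.filter_subset _ _)
  have hmaps : ∀ b ∈ low s k, cnt S b ∈ range 4 := fun b _ =>
    Finset.mem_range.2 (Nat.lt_succ_of_le (hle b))
  refine ⟨hle, ?_, ?_, ?_⟩
  · have h1 : S.card = ∑ b ∈ low s k, cnt S b := by
      apply Finset.card_eq_sum_card_fiberwise
      intro v hv
      have := a1 hv
      rw [Top, Finset.mem_filter] at this
      exact Finset.mem_coe.2 (Finset.mem_filter.2 ⟨Finset.mem_univ _, this.2⟩)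
    have h2 := Finset.sum_fiberwise_of_maps_to hmaps (fun b => cnt S b)
    have h3 : ∀ j ∈ range 4, ∑ b ∈ (low s k).filter (fun b => cnt S b = j), cnt S b =
        nj k S j * j := by
      intro j _
      rw [Finset.sum_congr rfl (fun b hb => (Finset.mem_filter.1 hb).2), Finset.sum_const,
        smul_eq_mul, nj]
    rw [Finset.sum_congr rfl h3, ← h1, a2] at h2
    simp only [Finset.sum_range_succ, Finset.sum_range_zero] at h2
    omega
  · have h1 : S.image row = ((low s k).filter (fun b => 0 < cnt S b)).image Fin.val := by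
      ext y
      simp only [Finset.mem_image, Finset.mem_filter]
      constructor
      · rintro ⟨v, hv, rfl⟩
        have := a1 hv
        rw [Top, Finset.mem_filter] at this
        exact ⟨v.1, ⟨Finset.mem_filter.2 ⟨Finset.mem_univ _, this.2⟩,
          Finset.card_pos.2 ⟨v, Finset.mem_filter.2 ⟨hv, rfl⟩⟩⟩, rfl⟩
      · rintro ⟨b, ⟨_, hb⟩, rfl⟩
        obtain ⟨v, hv⟩ := Finset.card_pos.1 hb
        obtain ⟨hv1, hv2⟩ := Finset.mem_filter.1 hv
        exact ⟨v, hv1, by rw [row, hv2]⟩
    have h2 : ((low s k).filter (fun b => 0 < cnt S b)).card = r := by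
      rw [← a3, h1, Finset.card_image_of_injective _ Fin.val_injective]
    have h3 : (low s k).filter (fun b => 0 < cnt S b) =
        (low s k).filter (fun b => cnt S b = 1) ∪ (low s k).filter (fun b => cnt S b = 2) ∪
          (low s k).filter (fun b => cnt S b = 3) := by
      ext b
      simp only [Finset.mem_filter, Finset.mem_union]
      have := hle b
      constructor
      · rintro ⟨x, y⟩
        have h4 : cnt S b = 1 ∨ cnt S b = 2 ∨ cnt S b = 3 := by omega
        rcases h4 with h4 | h4 | h4
        · exact Or.inl (Or.inl ⟨x, h4⟩)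
        · exact Or.inl (Or.inr ⟨x, h4⟩)
        · exact Or.inr ⟨x, h4⟩
      · rintro ((⟨x, y⟩ | ⟨x, y⟩) | ⟨x, y⟩) <;> exact ⟨x, by omega⟩
    rw [h3, Finset.card_union_of_disjoint, Finset.card_union_of_disjoint] at h2
    · exact h2
    · rw [Finset.disjoint_filter]; intro b _ hb; omega
    · rw [Finset.disjoint_union_left, Finset.disjoint_filter, Finset.disjoint_filter]
      exact ⟨fun b _ hb => by omega, fun b _ hb => by omega⟩
  · have h2 := Finset.card_eq_sum_card_fiberwise (s := low s k) (t := range 4)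
      (f := fun b => cnt S b) (fun b hb => Finset.mem_coe.2 (hmaps b (Finset.mem_coe.1 hb)))
    simp only [Finset.sum_range_succ, Finset.sum_range_zero] at h2
    rw [h2]
    simp only [nj, zero_add]

private def Fc {s h : ℕ} (k : ℕ) (S : Finset (Fin s × Fin h)) (b : Fin s) : ℕ :=
  if b.val ≤ k then cnt S b else 4 + b.val

private theorem Fc_card {s h k r : ℕ} {S T : Finset (Fin s × Fin h)}
    (hS : S ∈ Cls s h k r) (hT : T ∈ Cls s h k r) (c : ℕ) :
    Fintype.card {b // Fc k T b = c} = Fintype.card {b // Fc k S b = c} := by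
  classical
  obtain ⟨s1, s2, s3, s4⟩ := cnt_facts hS
  obtain ⟨t1, t2, t3, t4⟩ := cnt_facts hT
  rw [Fintype.card_subtype, Fintype.card_subtype]
  by_cases hc : c ≤ 3
  · have key : ∀ S : Finset (Fin s × Fin h),
        (univ.filter (fun b => Fc k S b = c)).card = nj k S c := by
      intro S
      rw [nj]
      congr 1
      ext b
      simp only [Finset.mem_filter, Finset.mem_univ, true_and, low, Fc]
      by_cases hb : b.val ≤ k
      · simp [hb]
      · rw [if_neg hb]
        constructor
        · intro h; omega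
        · rintro ⟨h, -⟩; exact absurd h hb
    rw [key, key]
    have : c = 0 ∨ c = 1 ∨ c = 2 ∨ c = 3 := by omega
    rcases this with rfl | rfl | rfl | rfl <;> omega
  · have key : ∀ S : Finset (Fin s × Fin h), (∀ b, cnt S b ≤ 3) →
        univ.filter (fun b : Fin s => Fc k S b = c) = univ.filter (fun b => k < b.val ∧ 4 + b.val = c) := by
      intro S hS
      ext b
      simp only [Finset.mem_filter, Finset.mem_univ, true_and, Fc]
      have := hS b
      by_cases hb : b.val ≤ k
      · rw [if_pos hb]; constructor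
        · intro h; omega
        · intro h; omega
      · rw [if_neg hb]; constructor
        · intro h; exact ⟨by omega, h⟩
        · intro h; exact h.2
    rw [key S s1, key T t1]

theorem Cls_trans {s h k r : ℕ} (hk : k < s) {S T : Finset (Fin s × Fin h)}
    (hS : S ∈ Cls s h k r) (hT : T ∈ Cls s h k r) :
    ∃ g ∈ Wr s h k, T.map g.toEmbedding = S := by
  classical
  obtain ⟨s1, -⟩ := cnt_facts hS
  obtain ⟨t1, -⟩ := cnt_facts hT
  have hfe : ∀ c, Nonempty ({b // Fc k T b = c} ≃ {b // Fc k S b = c}) := fun c =>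
    Fintype.card_eq.1 (Fc_card hS hT c)
  let σ : Perm (Fin s) := Equiv.ofFiberEquiv (f := Fc k T) (g := Fc k S)
    (fun c => Classical.choice (hfe c))
  have hσ : ∀ b, Fc k S (σ b) = Fc k T b := fun b => Equiv.ofFiberEquiv_map _ b
  have hfix : ∀ b : Fin s, k < b.val → σ b = b := by
    intro b hb
    have h1 := hσ b
    rw [Fc, Fc, if_neg (by omega : ¬ b.val ≤ k)] at h1
    have := s1 (σ b)
    split_ifs at h1 with h2
    · omega
    · exact Fin.ext (by omega)
  have hlow : ∀ b : Fin s, b.val ≤ k → cnt S (σ b) = cnt T b := by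
    intro b hb
    have h1 := hσ b
    rw [Fc, Fc, if_pos hb] at h1
    have := t1 b
    split_ifs at h1 with h2
    · exact h1
    · omega
  let g₁ : Perm (Fin s × Fin h) := layHom s h σ
  have hg₁v : ∀ v, g₁ v = (σ v.1, v.2) := fun v => rfl
  have hg₁ : g₁ ∈ GG s h k := mem_GG.2 ⟨σ, hfix, hg₁v⟩
  have hg₁W : g₁ ∈ Wr s h k := kspa_GG_le hg₁
  have hT' := Cls_inv hg₁W hT
  have hTs : T.map g₁.toEmbedding ⊆ Top s h k := (Finset.mem_filter.1 hT').2.1
  have hSs : S ⊆ Top s h k := (Finset.mem_filter.1 hS).2.1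
  have hTsub : T ⊆ Top s h k := (Finset.mem_filter.1 hT).2.1
  have hai : ∀ x, σ (σ⁻¹ x) = x := σ.apply_symm_apply
  have hia : ∀ x, σ⁻¹ (σ x) = x := σ.symm_apply_apply
  obtain ⟨g₂, hg₂, hmap⟩ := exists_blk_map (f := row) hTs hSs (by
    intro i
    by_cases hi : ∃ b : Fin s, b.val = i ∧ b.val ≤ k
    · obtain ⟨b, rfl, hbk⟩ := hi
      have e1 : (S.filter (fun v => row v = b.val)).card = cnt S b := by
        rw [cnt]; congr 1; ext v
        simp only [Finset.mem_filter, row, Fin.val_inj]
      have hb' : (σ⁻¹ b).val ≤ k := by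
        by_contra hc
        have h1 := hfix (σ⁻¹ b) (by omega)
        rw [hai] at h1
        rw [← h1] at hc
        exact hc hbk
      have e2 : ((T.map g₁.toEmbedding).filter (fun v => row v = b.val)).card = cnt T (σ⁻¹ b) := by
        rw [Finset.filter_map, Finset.card_map, cnt]
        congr 1
        ext v
        simp only [Finset.mem_filter, Function.comp, Equiv.coe_toEmbedding, hg₁v, row, Fin.val_inj]
        constructor
        · rintro ⟨x, y⟩
          exact ⟨x, by rw [← y, hia]⟩
        · rintro ⟨x, y⟩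
          exact ⟨x, by rw [y, hai]⟩
      rw [e1, e2, ← hlow _ hb', hai]
    · push Not at hi
      have key : ∀ A : Finset (Fin s × Fin h), A ⊆ Top s h k →
          A.filter (fun v => row v = i) = ∅ := by
        intro A hA
        rw [Finset.filter_eq_empty_iff]
        intro v hv hvi
        have := hA hv
        rw [Top, Finset.mem_filter] at this
        have h3 := hi v.1 hvi
        omega
      rw [key _ hTs, key _ hSs])
  refine ⟨g₂ * g₁, (Wr s h k).mul_mem (kspa_blk_le hg₂) hg₁W, ?_⟩
  rw [← hmap, Finset.map_map]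
  rfl

theorem push_Wr {s h k r : ℕ} (hk : k < s) {T : Finset (Fin s × Fin h)}
    (hT : T ∈ Cls s h k r) (S : Finset (Fin s × Fin h)) :
    push T (avg (Wr s h k)) S = if S ∈ Cls s h k r then ((Cls s h k r).card : ℝ)⁻¹ else 0 :=
  push_avg_orbit (Wr s h k) T (Cls s h k r) (fun _ hg _ hS => Cls_inv hg hS) hT
    (fun _ hS => Cls_trans hk hS hT) S

end LZS
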