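import Pool.Agent.LZS.Geo

/-!
# LZS.Lay: facts on row permutations

PROOFS: `GG_mono` from `sym_mono`. `AG_comm_ab`: by `P_comm_avg` every `P g`, g = layHom σ, commutes with `ab (Act k) row`:
conjugation by layHom σ (σ fixes the rows > k) maps `blk (Act s h k) row` into itself: Act is invariant under layHom σ
(rows ≤ k are completely active), and g x g⁻¹ preserves rows because x does. Then sum over GG k.
`ab_col_mul_AG`: GG k ≤ blk univ col. `AG_comm`: for `BCom`: commute with each P g ⇒ with AG.
-/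

open Finset Equiv

noncomputable section

namespace LZS

theorem mem_GG {s h k : ℕ} {g : Perm (Fin s × Fin h)} :
    g ∈ GG s h k ↔ ∃ σ : Perm (Fin s), (∀ b : Fin s, k < b.val → σ b = b) ∧
      ∀ v, g v = (σ v.1, v.2) := by
  unfold GG
  rw [Subgroup.mem_map]
  constructor
  · rintro ⟨σ, hσ, rfl⟩
    refine ⟨σ, ?_, fun v => rfl⟩
    intro b hb
    apply hσ
    simp only [Finset.mem_filter, Finset.mem_univ, true_and]
    omega
  · rintro ⟨σ, hσ, hg⟩
    refine ⟨σ, ?_, ?_⟩
    · intro b hb
      apply hσ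
      simp only [Finset.mem_filter, Finset.mem_univ, true_and] at hb
      omega
    · ext v : 1
      exact (hg v).symm

theorem GG_mono {s h k k' : ℕ} (hk : k ≤ k') : GG s h k ≤ GG s h k' := by
  intro g hg
  rw [mem_GG] at hg ⊢
  obtain ⟨σ, h1, h2⟩ := hg
  exact ⟨σ, fun b hb => h1 b (lt_of_le_of_lt hk hb), h2⟩

theorem AG_mul_AG {s h k k' : ℕ} (hk : k ≤ k') : AG s h k' * AG s h k = AG s h k' :=
  mul_avg_of_le (GG_mono hk)

/-- row permutations of the rows `≤ k` are supported in these rows -/
private theorem GG_le_sym (s h k : ℕ) : GG s h k ≤ sym (Top s h k) := by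
  intro g hg
  rw [mem_GG] at hg
  obtain ⟨σ, h1, h2⟩ := hg
  intro v hv
  have h3 : k < v.1.val := by
    by_contra hc
    apply hv
    simp only [Top, Finset.mem_filter, Finset.mem_univ, true_and]
    omega
  rw [h2 v, h1 v.1 h3]

theorem AG_mem_alg (s h k : ℕ) : AG s h k ∈ alg (Top s h k) :=
  avg_mem_alg (GG_le_sym s h k)

/-- an element which commutes with every row permutation commutes with their average -/
private theorem avg_comm_of {s h : ℕ} {H : Subgroup (Perm (Fin s × Fin h))}
    {Q : GA (Fin s × Fin h)}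
    (hQ : ∀ g ∈ H, P g * Q = Q * P g) : avg H * Q = Q * avg H := by
  unfold avg
  rw [mul_smul_comm, smul_mul_assoc, Finset.mul_sum, Finset.sum_mul]
  congr 1
  exact Finset.sum_congr rfl fun g hg => hQ g (mem_elts.1 hg)

/-- conjugation with row permutations preserves block groups of invariant sets -/
private theorem conj_blk {s h k : ℕ} {Y : Finset (Fin s × Fin h)}
    (hY : ∀ v : Fin s × Fin h, v.1.val ≤ k → ∀ b : Fin s, b.val ≤ k → v ∈ Y → (b, v.2) ∈ Y)
    {g : Perm (Fin s × Fin h)} (hg : g ∈ GG s h k) {x : Perm (Fin s × Fin h)}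
    (hx : x ∈ blk Y row) : g * x * g⁻¹ ∈ blk Y row := by
  rw [mem_GG] at hg
  obtain ⟨σ, h1, h2⟩ := hg
  rw [mem_blk] at hx
  obtain ⟨hx1, hx2⟩ := hx
  -- σ preserves the rows `≤ k`
  have hσ : ∀ b : Fin s, b.val ≤ k → (σ b).val ≤ k := by
    intro b hb
    by_contra hc
    have h3 : σ (σ b) = σ b := h1 (σ b) (by omega)
    have h4 : σ b = b := σ.injective h3
    rw [h4] at hc
    exact hc hb
  have hgY : ∀ v, v ∈ Y → g v ∈ Y := by
    intro v hv
    rw [h2 v]
    by_cases hk : v.1.val ≤ k
    · exact hY v hk _ (hσ _ hk) hv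
    · rw [h1 v.1 (by omega)]
      exact hv
  rw [mem_blk]
  constructor
  · intro v hv
    have h3 : g⁻¹ v ∉ Y := by
      intro hc
      apply hv
      have := hgY _ hc
      simpa using this
    rw [Perm.mul_apply, Perm.mul_apply, hx1 _ h3]
    simp
  · intro v
    rw [Perm.mul_apply, Perm.mul_apply]
    have h3 := hx2 (g⁻¹ v)
    have h4 : (x (g⁻¹ v)).1 = (g⁻¹ v).1 := Fin.ext h3
    have h5 : g (g⁻¹ v) = v := g.apply_symm_apply v
    have h6 : (g (x (g⁻¹ v))).1 = (g (g⁻¹ v)).1 := by
      rw [h2 (x (g⁻¹ v)), h2 (g⁻¹ v)]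
      change σ (x (g⁻¹ v)).1 = σ (g⁻¹ v).1
      rw [h4]
    rw [h5] at h6
    unfold row
    rw [h6]

/-- row permutations of rows `≤ k` commute with independent row shuffles (k ≤ k') -/
theorem AG_comm_ab {s h k k' : ℕ} (hk : k ≤ k') :
    AG s h k * ab (Act s h k') row = ab (Act s h k') row * AG s h k := by
  unfold AG
  apply avg_comm_of
  intro g hg
  apply P_comm_avg
  intro x hx
  refine conj_blk (k := k) ?_ hg hx
  intro v hv b hb _
  simp only [Act, Finset.mem_filter, Finset.mem_univ, true_and]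
  left
  omega

theorem AG_comm_ab_top {s h k : ℕ} :
    AG s h k * ab (Top s h k) row = ab (Top s h k) row * AG s h k := by
  unfold AG
  apply avg_comm_of
  intro g hg
  apply P_comm_avg
  intro x hx
  refine conj_blk (k := k) ?_ hg hx
  intro v hv b hb _
  simp only [Top, Finset.mem_filter, Finset.mem_univ, true_and]
  exact hb

theorem AG_mul_av_top (s h k : ℕ) : AG s h k * av (Top s h k) = av (Top s h k) :=
  avg_mul_of_le (GG_le_sym s h k)

theorem ab_col_mul_AG (s h k : ℕ) :
    ab (univ : Finset (Fin s × Fin h)) col * AG s h k = ab univ col := by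
  apply mul_avg_of_le
  intro g hg
  rw [mem_GG] at hg
  obtain ⟨σ, _, h2⟩ := hg
  rw [mem_blk]
  refine ⟨fun v hv => absurd (Finset.mem_univ v) hv, fun v => ?_⟩
  rw [h2 v]
  rfl

theorem AG_zero (s h : ℕ) : AG s h 0 = 1 := by
  have h1 : ∀ g ∈ GG s h 0, g = 1 := by
    intro g hg
    rw [mem_GG] at hg
    obtain ⟨σ, h1, h2⟩ := hg
    have hσ : ∀ b, σ b = b := by
      intro b
      by_cases hb : 0 < b.val
      · exact h1 b hb
      · by_contra hc
        have h4 : 0 < (σ b).val := by
          by_contra h5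
          apply hc
          apply Fin.ext
          omega
        exact hc (σ.injective (h1 _ h4))
    ext v : 1
    rw [h2 v, hσ]
    rfl
  have h2 : AG s h 0 * 1 = 1 := by
    unfold AG
    apply avg_mul_eq
    intro g hg
    rw [h1 g hg, P_one, one_mul]
  rw [mul_one] at h2
  exact h2

/-- an element which commutes with every row permutation commutes with their average -/
theorem AG_comm_of {s h k : ℕ} {Q : GA (Fin s × Fin h)}
    (hQ : ∀ g ∈ GG s h k, P g * Q = Q * P g) : AG s h k * Q = Q * AG s h k :=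
  avg_comm_of hQ

end LZS
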