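import Pool.Agent.LZS.Rec

/-!
# LZS.Rows: replacing block shuffles by networks

PROOFS. `Net_ab`: induction on n: `ab_split` with i = n (last block); the rest has f < n. `rows_replace`: induction on n as well, peel the
block i = n: L = {v ∈ Y | f v = n}, H = {v ∈ Hb | f v = n}; av L = Qb * (av H * av (L \ H)) (SB). ab Y f = av L * ab Y' f, Y' = the other blocks, and
av H * av (L \ H) commutes with ab Y' f; av (L \ H) commutes with π (∈ alg Hb) and is absorbed by Y1 (L \ H ⊆ Y \ Hb, hY1, av_mul_av); av H is absorbed by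
ab Hb f * π = π (av_mul_ab). For the induction use the statement with fixed Y, Hb and partial block average
ab (Y.filter (f < n)) f * π * Y1 = Q * π * Y1, Net Y Q (∑ i ∈ range n, c i).
-/

open Finset Equiv

noncomputable section

namespace LZS

variable {V : Type} [Fintype V] [DecidableEq V]

private theorem ab_empty (f : V → ℕ) : ab (∅ : Finset V) f = 1 := by
  rw [ab_const (by simp), av_empty]

/-- cost of independent full shuffles of the blocks -/
theorem Net_ab (Y : Finset V) (f : V → ℕ) (n : ℕ) (hf : ∀ v ∈ Y, f v < n) (c : ℕ → ℕ)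
    (hc : ∀ i < n, UB (Y.filter (fun v => f v = i)).card (c i)) :
    Net Y (ab Y f) (∑ i ∈ range n, c i) := by
  induction n generalizing Y with
  | zero =>
    have hY : Y = ∅ := by
      apply Finset.eq_empty_of_forall_notMem
      intro v hv
      exact absurd (hf v hv) (Nat.not_lt_zero _)
    subst hY
    rw [ab_empty]
    simpa using Net.one (∅ : Finset V)
  | succ n ih =>
    rw [ab_split Y f n, Finset.sum_range_succ, add_comm]
    apply Net.mul
    · exact (hc n (Nat.lt_succ_self n) V _ rfl).mono (Finset.filter_subset _ _) le_rfl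
    · have h1 := ih (Y.filter (fun v => f v ≠ n)) (by
        intro v hv
        have h2 := hf v (Finset.mem_filter.1 hv).1
        have h3 := (Finset.mem_filter.1 hv).2
        omega) (by
        intro i hi
        have h2 : (Y.filter (fun v => f v ≠ n)).filter (fun v => f v = i) =
            Y.filter (fun v => f v = i) := by
          ext v
          simp only [Finset.mem_filter]
          constructor
          · rintro ⟨⟨h4, _⟩, h5⟩
            exact ⟨h4, h5⟩
          · rintro ⟨h4, h5⟩
            exact ⟨⟨h4, by omega⟩, h5⟩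
        rw [h2]
        exact hc i (by omega))
      exact h1.mono (Finset.filter_subset _ _) le_rfl

private theorem rows_aux (Y Hb : Finset V) (f : V → ℕ) (n : ℕ)
    (hHb : Hb ⊆ Y) (π Y1 : GA V) (hπ : π ∈ alg Hb) (hsh : ab Hb f * π = π)
    (hY1 : av (Y \ Hb) * Y1 = Y1) (c : ℕ → ℕ)
    (hc : ∀ i < n, SB (Y.filter (fun v => f v = i)).card (Hb.filter (fun v => f v = i)).card (c i)) :
    ∃ Q : GA V, Net Y Q (∑ i ∈ range n, c i) ∧
      ab (Y.filter (fun v => f v < n)) f * (π * Y1) = Q * (π * Y1) := by
  induction n with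
  | zero =>
    refine ⟨1, by simpa using Net.one Y, ?_⟩
    have h1 : Y.filter (fun v => f v < 0) = ∅ := by simp
    rw [h1, ab_empty]
  | succ m ih =>
    obtain ⟨Q, hQ, hQe⟩ := ih (fun i hi => hc i (by omega))
    set L := Y.filter (fun v => f v = m) with hL
    set H := Hb.filter (fun v => f v = m) with hH
    have hHL : H ⊆ L := by
      intro v hv
      rw [hH, Finset.mem_filter] at hv
      rw [hL, Finset.mem_filter]
      exact ⟨hHb hv.1, hv.2⟩
    obtain ⟨Qb, hQb, hQbe⟩ := hc m (Nat.lt_succ_self m) V L H rfl hHL rfl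
    have hsplit : ab (Y.filter (fun v => f v < m + 1)) f =
        av L * ab (Y.filter (fun v => f v < m)) f := by
      rw [ab_split _ f m]
      congr 2
      · rw [hL]
        ext v
        simp only [Finset.mem_filter]
        constructor
        · rintro ⟨⟨h1, _⟩, h2⟩
          exact ⟨h1, h2⟩
        · rintro ⟨h1, h2⟩
          exact ⟨⟨h1, by omega⟩, h2⟩
      · ext v
        simp only [Finset.mem_filter]
        constructor
        · rintro ⟨⟨h1, h3⟩, h2⟩
          exact ⟨h1, by omega⟩
        · rintro ⟨h1, h2⟩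
          exact ⟨⟨h1, by omega⟩, by omega⟩
    have hd1 : Disjoint H (Y.filter (fun v => f v < m)) := by
      rw [Finset.disjoint_left]
      intro v hv hv2
      rw [hH, Finset.mem_filter] at hv
      rw [Finset.mem_filter] at hv2
      omega
    have hd2 : Disjoint (L \ H) (Y.filter (fun v => f v < m)) := by
      rw [Finset.disjoint_left]
      intro v hv hv2
      rw [Finset.mem_sdiff, hL, Finset.mem_filter] at hv
      rw [Finset.mem_filter] at hv2
      omega
    have hd3 : Disjoint (L \ H) Hb := by
      rw [Finset.disjoint_left]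
      intro v hv hv2
      rw [Finset.mem_sdiff, hL, Finset.mem_filter] at hv
      apply hv.2
      rw [hH, Finset.mem_filter]
      exact ⟨hv2, hv.1.2⟩
    have hsub : L \ H ⊆ Y \ Hb := by
      intro v hv
      have h1 := Finset.disjoint_left.1 hd3 hv
      rw [Finset.mem_sdiff, hL, Finset.mem_filter] at hv
      exact Finset.mem_sdiff.2 ⟨hv.1.1, h1⟩
    -- commutations
    have e1 : av (L \ H) * ab (Y.filter (fun v => f v < m)) f =
        ab (Y.filter (fun v => f v < m)) f * av (L \ H) :=
      alg_comm hd2 (av_mem_alg _) (ab_mem_alg _ _)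
    have e2 : av H * ab (Y.filter (fun v => f v < m)) f =
        ab (Y.filter (fun v => f v < m)) f * av H :=
      alg_comm hd1 (av_mem_alg _) (ab_mem_alg _ _)
    have e3 : av (L \ H) * π = π * av (L \ H) := alg_comm hd3 (av_mem_alg _) hπ
    have e4 : av (L \ H) * Y1 = Y1 := by
      rw [← hY1, ← mul_assoc, av_mul_av hsub]
    have e5 : av H * π = π := by
      rw [← hsh, ← mul_assoc, av_mul_ab (Finset.filter_subset _ _)]
      intro a ha b hb
      rw [(Finset.mem_filter.1 ha).2, (Finset.mem_filter.1 hb).2]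
    refine ⟨Qb * Q, ?_, ?_⟩
    · rw [Finset.sum_range_succ, add_comm]
      exact Net.mul (hQb.mono (Finset.filter_subset _ _) le_rfl) hQ
    · set B := ab (Y.filter (fun v => f v < m)) f with hB
      calc ab (Y.filter (fun v => f v < m + 1)) f * (π * Y1)
          = (Qb * (av H * av (L \ H))) * B * (π * Y1) := by rw [hsplit, hQbe]
        _ = Qb * (av H * ((av (L \ H) * B) * (π * Y1))) := by simp only [mul_assoc]
        _ = Qb * (av H * (B * ((av (L \ H) * π) * Y1))) := by rw [e1]; simp only [mul_assoc]
        _ = Qb * (av H * (B * (π * (av (L \ H) * Y1)))) := by rw [e3]; simp only [mul_assoc]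
        _ = Qb * ((av H * B) * (π * Y1)) := by rw [e4]; simp only [mul_assoc]
        _ = Qb * (B * ((av H * π) * Y1)) := by rw [e2]; simp only [mul_assoc]
        _ = Qb * (B * (π * Y1)) := by rw [e5]
        _ = Qb * (Q * (π * Y1)) := by rw [hQe]
        _ = Qb * Q * (π * Y1) := by rw [mul_assoc]

theorem rows_replace (Y Hb : Finset V) (f : V → ℕ) (n : ℕ) (hf : ∀ v ∈ Y, f v < n)
    (hHb : Hb ⊆ Y) (π Y1 : GA V) (hπ : π ∈ alg Hb) (hsh : ab Hb f * π = π)
    (hY1 : av (Y \ Hb) * Y1 = Y1) (c : ℕ → ℕ)
    (hc : ∀ i < n, SB (Y.filter (fun v => f v = i)).card (Hb.filter (fun v => f v = i)).card (c i)) :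
    ∃ Q : GA V, Net Y Q (∑ i ∈ range n, c i) ∧ ab Y f * π * Y1 = Q * π * Y1 := by
  obtain ⟨Q, hQ, hQe⟩ := rows_aux Y Hb f n hHb π Y1 hπ hsh hY1 c hc
  refine ⟨Q, hQ, ?_⟩
  have h1 : Y.filter (fun v => f v < n) = Y := Finset.filter_true_of_mem hf
  rw [h1] at hQe
  rw [mul_assoc, hQe, mul_assoc]

end LZS
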