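import Pool.Agent.LZS.Defs

/-!
# LZS.Tr: transport of networks along bijections

PROOF. Let `V0, Y0, T0` be the given instance and `V, Y, T` any other with the same cardinalities. Choose
`e : V0' → V` ... : take a bijection `e : {v // v ∈ Y0} ≃ {v // v ∈ Y}` with `e(T0) = T`. It induces a group
homomorphism `φ : Perm {v // v ∈ Y0} →* Perm V`, `φ g = Perm.ofSubtype (e.permCongr g)` and the algebra map
`Φ = MonoidAlgebra.mapDomainRingHom ℝ φ` (or mapDomainAlgHom). Elements of `alg Y0` (in particular networks on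
`Y0`) come from `GA {v // v ∈ Y0}` via `Perm.ofSubtype`, which is injective with image `sym Y0`. Under these
maps `lz` goes to `lz`, `av` of a subset goes to `av` of its image (the subgroup `sym A'` is mapped bijectively
onto `sym (image)`). EASIER ROUTE: first reduce to an embedding-free statement: if `|V0| ≤ ...`; any route is
fine. (For `Y0 = univ` one only needs `e : V0 ≃ {v // v ∈ Y}`.)
-/

open Finset Equiv

noncomputable section

namespace LZS

section tr

variable {V0 V : Type} [Fintype V0] [DecidableEq V0] [Fintype V] [DecidableEq V] {Y : Finset V}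

/-- the embedding of `V0` -/
private def trI (e : V0 ≃ {v // v ∈ Y}) : V0 ↪ V := ⟨fun v => (e v).1, fun _ _ h =>
  e.injective (Subtype.ext h)⟩

/-- the transport of permutations -/
private def trF (e : V0 ≃ {v // v ∈ Y}) : Perm V0 →* Perm V where
  toFun g := Perm.ofSubtype (e.permCongr g)
  map_one' := by
    have h : e.permCongr (1 : Perm V0) = 1 := by
      ext x
      simp [Equiv.permCongr_apply]
    rw [h, map_one]
  map_mul' g g' := by
    have h : e.permCongr (g * g') = e.permCongr g * e.permCongr g' := by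
      ext x
      simp [Equiv.permCongr_apply]
    rw [h, map_mul]

private theorem trF_apply (e : V0 ≃ {v // v ∈ Y}) (g : Perm V0) (v : V0) :
    trF e g (trI e v) = trI e (g v) := by
  show Perm.ofSubtype (e.permCongr g) (e v).1 = (e (g v)).1
  rw [Perm.ofSubtype_apply_coe, Equiv.permCongr_apply, Equiv.symm_apply_apply]

private theorem trF_apply_notMem (e : V0 ≃ {v // v ∈ Y}) (g : Perm V0) {w : V} (hw : w ∉ Y) :
    trF e g w = w :=
  Perm.ofSubtype_apply_of_not_mem _ hw

private theorem tr_mem (e : V0 ≃ {v // v ∈ Y}) (v : V0) : trI e v ∈ Y := (e v).2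

private theorem tr_ex (e : V0 ≃ {v // v ∈ Y}) {w : V} (hw : w ∈ Y) : ∃ v, trI e v = w :=
  ⟨e.symm ⟨w, hw⟩, by
    show (e (e.symm ⟨w, hw⟩)).1 = w
    rw [Equiv.apply_symm_apply]⟩

/-- a permutation is determined by its values on `Y` -/
private theorem tr_eq (e : V0 ≃ {v // v ∈ Y}) {g : Perm V0} {x : Perm V} (hx : x ∈ sym Y)
    (h : ∀ v, x (trI e v) = trI e (g v)) : trF e g = x := by
  ext w
  by_cases hw : w ∈ Y
  · obtain ⟨v, rfl⟩ := tr_ex e hw
    rw [trF_apply, h]
  · rw [trF_apply_notMem e g hw, hx w hw]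

private theorem trF_swap (e : V0 ≃ {v // v ∈ Y}) (a b : V0) :
    trF e (swap a b) = swap (trI e a) (trI e b) := by
  refine tr_eq e (swap_mem_sym (tr_mem e a) (tr_mem e b)) fun v => ?_
  by_cases ha : v = a
  · subst ha
    rw [swap_apply_left, swap_apply_left]
  · by_cases hb : v = b
    · subst hb
      rw [swap_apply_right, swap_apply_right]
    · rw [swap_apply_of_ne_of_ne ha hb, swap_apply_of_ne_of_ne
        (fun h => ha ((trI e).injective h)) (fun h => hb ((trI e).injective h))]

private theorem tr_surj (e : V0 ≃ {v // v ∈ Y}) {A : Finset V0} {x : Perm V}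
    (hx : x ∈ sym (A.map (trI e))) : ∃ g ∈ sym A, trF e g = x := by
  have hY : A.map (trI e) ⊆ Y := by
    intro w hw
    obtain ⟨v, _, rfl⟩ := Finset.mem_map.1 hw
    exact tr_mem e v
  have hxY : x ∈ sym Y := sym_mono hY hx
  have hst : ∀ (y : Perm V), y ∈ sym Y → ∀ w, w ∈ Y → y w ∈ Y := by
    intro y hy w hw
    by_contra hc
    have h2 : y (y w) = y w := hy _ hc
    have h3 : y w = w := y.injective h2
    rw [h3] at hc
    exact hc hw
  let g : Perm V0 :=
    { toFun := fun v => e.symm ⟨x (trI e v), hst x hxY _ (tr_mem e v)⟩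
      invFun := fun v => e.symm ⟨x⁻¹ (trI e v), hst _ ((sym Y).inv_mem hxY) _ (tr_mem e v)⟩
      left_inv := by
        intro v
        rw [Equiv.symm_apply_eq]
        apply Subtype.ext
        show x⁻¹ (e (e.symm ⟨x (trI e v), _⟩)).1 = (e v).1
        rw [Equiv.apply_symm_apply]
        exact x.symm_apply_apply _
      right_inv := by
        intro v
        rw [Equiv.symm_apply_eq]
        apply Subtype.ext
        show x (e (e.symm ⟨x⁻¹ (trI e v), _⟩)).1 = (e v).1
        rw [Equiv.apply_symm_apply]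
        exact x.apply_symm_apply _ }
  have hg : ∀ v, trI e (g v) = x (trI e v) := by
    intro v
    show (e (e.symm ⟨x (trI e v), _⟩)).1 = x (trI e v)
    rw [Equiv.apply_symm_apply]
  refine ⟨g, ?_, tr_eq e hxY fun v => (hg v).symm⟩
  intro v hv
  apply (trI e).injective
  rw [hg]
  refine hx _ fun h => hv ?_
  obtain ⟨u, hu, hu'⟩ := Finset.mem_map.1 h
  rwa [← (trI e).injective hu']

private theorem trF_mem (e : V0 ≃ {v // v ∈ Y}) {A : Finset V0} {g : Perm V0} (hg : g ∈ sym A) :
    trF e g ∈ sym (A.map (trI e)) := by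
  intro w hw
  by_cases hY : w ∈ Y
  · obtain ⟨v, rfl⟩ := tr_ex e hY
    rw [trF_apply, hg v (fun h => hw (Finset.mem_map.2 ⟨v, h, rfl⟩))]
  · exact trF_apply_notMem e g hY

/-- the transport of the group algebra -/
private def trA (e : V0 ≃ {v // v ∈ Y}) : GA V0 →ₐ[ℝ] GA V :=
  MonoidAlgebra.lift ℝ (GA V) (Perm V0) ((MonoidAlgebra.of ℝ (Perm V)).comp (trF e))

private theorem trA_P (e : V0 ≃ {v // v ∈ Y}) (g : Perm V0) : trA e (P g) = P (trF e g) := by
  unfold trA P
  rw [MonoidAlgebra.lift_of]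
  rfl

private theorem trA_lz (e : V0 ≃ {v // v ∈ Y}) (x : V0 × V0 × ℝ) :
    trA e (lz x) = lz (trI e x.1, trI e x.2.1, x.2.2) := by
  unfold lz
  rw [map_add, map_smul, map_smul, map_one, trA_P, trF_swap]

private theorem trA_av (e : V0 ≃ {v // v ∈ Y}) (A : Finset V0) :
    trA e (av A) = av (A.map (trI e)) := by
  have h1 : av (A.map (trI e)) * trA e (av A) = trA e (av A) := by
    refine avg_mul_eq fun x hx => ?_
    obtain ⟨g, hg, rfl⟩ := tr_surj e hx
    rw [← trA_P, ← map_mul]
    congr 1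
    exact P_mul_avg hg
  have h2 : av (A.map (trI e)) * trA e (av A) = av (A.map (trI e)) := by
    unfold av
    conv_lhs => rw [show trA e (avg (sym A)) =
      ((elts (sym A)).card : ℝ)⁻¹ • ∑ g ∈ elts (sym A), P (trF e g) by
        unfold avg
        rw [map_smul, map_sum]
        simp only [trA_P]]
    rw [mul_smul_comm, Finset.mul_sum, Finset.sum_congr rfl (fun g hg =>
      avg_mul_P (trF_mem e (mem_elts.1 hg))), Finset.sum_const, ← Nat.cast_smul_eq_nsmul ℝ,
      smul_smul, inv_mul_cancel₀, one_smul]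
    exact_mod_cast (elts_card_pos (sym A)).ne'
  rw [← h1, h2]

private theorem tr_net (e : V0 ≃ {v // v ∈ Y}) {Q : GA V0} {c : ℕ}
    (h : Net (univ : Finset V0) Q c) : Net Y (trA e Q) c := by
  obtain ⟨l, h1, h2, h3⟩ := h
  refine ⟨l.map (fun x => (trI e x.1, trI e x.2.1, x.2.2)), by simpa using h1, ?_, ?_⟩
  · intro x hx
    obtain ⟨y, hy, rfl⟩ := List.mem_map.1 hx
    obtain ⟨_, _, h6, h7⟩ := h2 y hy
    exact ⟨tr_mem e _, tr_mem e _, fun h => h6 ((trI e).injective h), h7⟩
  · rw [← h3, map_list_prod, List.map_map, List.map_map]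
    congr 1
    refine List.map_congr_left fun x _ => ?_
    exact (trA_lz e x).symm

private theorem tr_univ (e : V0 ≃ {v // v ∈ Y}) : (univ : Finset V0).map (trI e) = Y := by
  ext w
  constructor
  · intro hw
    obtain ⟨v, _, rfl⟩ := Finset.mem_map.1 hw
    exact tr_mem e v
  · intro hw
    obtain ⟨v, rfl⟩ := tr_ex e hw
    exact Finset.mem_map.2 ⟨v, Finset.mem_univ _, rfl⟩

end tr

/-- one instance of a shuffle of a full type gives `UB` -/
theorem UB_of {V0 : Type} [Fintype V0] [DecidableEq V0] {c : ℕ}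
    (h : Net (univ : Finset V0) (av (univ : Finset V0)) c) : UB (Fintype.card V0) c := by
  intro V _ _ Y hY
  have e : V0 ≃ {v // v ∈ Y} := Fintype.equivOfCardEq (by rw [Fintype.card_coe, hY])
  have h1 := tr_net e h
  rwa [trA_av, tr_univ] at h1

/-- one instance of a spreading network on a full type gives `SB` -/
theorem SB_of {V0 : Type} [Fintype V0] [DecidableEq V0] {c : ℕ} (T0 : Finset V0) (Q0 : GA V0)
    (h : Net (univ : Finset V0) Q0 c)
    (hQ : Q0 * (av T0 * av (univ \ T0)) = av (univ : Finset V0)) :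
    SB (Fintype.card V0) T0.card c := by
  classical
  intro V _ _ Y T hY hTY hT
  have hc1 : Fintype.card {v // v ∈ T0} = Fintype.card {y : {v // v ∈ Y} // y.1 ∈ T} := by
    rw [Fintype.card_coe, ← hT, ← Fintype.card_coe T]
    refine Fintype.card_congr ⟨fun c => ⟨⟨c.1, hTY c.2⟩, c.2⟩, fun y => ⟨y.1.1, y.2⟩, ?_, ?_⟩
    · intro c; rfl
    · intro y; rfl
  have hc2 : Fintype.card {v : V0 // ¬ v ∈ T0} = Fintype.card {y : {v // v ∈ Y} // ¬ y.1 ∈ T} := by
    rw [Fintype.card_subtype_compl, Fintype.card_subtype_compl, ← hc1, Fintype.card_coe,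
      Fintype.card_coe, hY]
  let e1 : {v // v ∈ T0} ≃ {y : {v // v ∈ Y} // y.1 ∈ T} := Fintype.equivOfCardEq hc1
  let e2 : {v : V0 // ¬ v ∈ T0} ≃ {y : {v // v ∈ Y} // ¬ y.1 ∈ T} := Fintype.equivOfCardEq hc2
  let e : V0 ≃ {v // v ∈ Y} := (Equiv.sumCompl (fun v : V0 => v ∈ T0)).symm.trans
    ((Equiv.sumCongr e1 e2).trans (Equiv.sumCompl (fun y : {v // v ∈ Y} => y.1 ∈ T)))
  have he : ∀ v, v ∈ T0 → trI e v ∈ T := by
    intro v hv
    have h1 : e v = (e1 ⟨v, hv⟩).1 := by
      simp [e, Equiv.sumCompl_symm_apply_of_pos hv]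
    show (e v).1 ∈ T
    rw [h1]
    exact (e1 ⟨v, hv⟩).2
  have hmap : T0.map (trI e) = T := by
    apply Finset.eq_of_subset_of_card_le
    · intro w hw
      obtain ⟨v, hv, rfl⟩ := Finset.mem_map.1 hw
      exact he v hv
    · rw [Finset.card_map, hT]
  have hmap2 : (univ \ T0).map (trI e) = Y \ T := by
    rw [Finset.map_sdiff, tr_univ, hmap]
  refine ⟨trA e Q0, tr_net e h, ?_⟩
  have h1 := congrArg (trA e) hQ
  rw [map_mul, map_mul, trA_av, trA_av, trA_av, tr_univ, hmap, hmap2] at h1
  exact h1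

end LZS
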