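import Pool.Agent.LZS.Stage
import Pool.Agent.LZS.Rows
import Pool.Agent.LZS.Tr

/-!
# LZS.Layered: the layered inequality

PROOF. `stage` with k = s-1: Act = univ, π on Hub (s-1). Row b of Hub (s-1) has s-1+2b sites: {i < 3(b-1)} ∪ last three (b ≥ 1) ∪ {3s+b < i ≤ 3s+s-1}:
3(b-1)+3+(s-1-b) = s-1+2b for b ≥ 1, and s-1 for b = 0. |Tf (s-1)| = 3(s-1). `rows_replace` with Y = univ, f = row, n = s:
ab univ row * π * Y1 = Q * π * Y1, Y1 = av T * av (univ \ T). Q_tot = ab univ col * Q * π:
Q_tot * Y1 = ab univ col * AG (s-1) * ab univ row * π * Y1 (ab_col_mul_AG) = ab univ col * av univ = av univ (ab_mul_av).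
Net_ab for the columns: every column has s sites: cost h * cU. Total: ∑ cS + h cU + (s-1) 100 s^4. `SB_of` with V0 = Fin s × Fin h.
-/

open Finset Equiv

noncomputable section

namespace LZS

private theorem lay_cardRow {s h i : ℕ} (hi : i < s) (p : ℕ → Prop) [DecidablePred p] :
    (univ.filter (fun v : Fin s × Fin h => v.1.val = i ∧ p v.2.val)).card =
      ((range h).filter p).card := by
  refine Finset.card_bij (fun v _ => v.2.val) ?_ ?_ ?_
  · intro v hv
    have h1 := (Finset.mem_filter.1 hv).2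
    exact Finset.mem_filter.2 ⟨Finset.mem_range.2 v.2.isLt, h1.2⟩
  · intro v hv w hw hvw
    have h1 := (Finset.mem_filter.1 hv).2
    have h2 := (Finset.mem_filter.1 hw).2
    have h3 : v.1 = w.1 := Fin.ext (h1.1.trans h2.1.symm)
    have h4 : v.2 = w.2 := Fin.ext hvw
    exact Prod.ext h3 h4
  · intro c hc
    have h1 := Finset.mem_filter.1 hc
    exact ⟨(⟨i, hi⟩, ⟨c, Finset.mem_range.1 h1.1⟩),
      Finset.mem_filter.2 ⟨Finset.mem_univ _, rfl, h1.2⟩, rfl⟩

private theorem lay_cardCol {s h i : ℕ} (hi : i < h) :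
    (univ.filter (fun v : Fin s × Fin h => v.2.val = i)).card = s := by
  have h0 : (univ : Finset (Fin s)).card = s := by simp
  refine Eq.trans ?_ h0
  refine Finset.card_bij (fun v _ => v.1) ?_ ?_ ?_
  · intro v _; exact Finset.mem_univ _
  · intro v hv w hw hvw
    have h1 := (Finset.mem_filter.1 hv).2
    have h2 := (Finset.mem_filter.1 hw).2
    exact Prod.ext hvw (Fin.ext (h1.trans h2.symm))
  · intro b _
    exact ⟨(b, ⟨i, hi⟩), Finset.mem_filter.2 ⟨Finset.mem_univ _, rfl⟩, rfl⟩

private theorem lay_row {s h i : ℕ} (hi : i < s) :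
    (univ.filter (fun v : Fin s × Fin h => row v = i)).card = h := by
  have h1 := lay_cardRow (s := s) (h := h) hi (fun _ => True)
  simp only [and_true] at h1
  rw [show (univ.filter (fun v : Fin s × Fin h => row v = i)) =
    univ.filter (fun v : Fin s × Fin h => v.1.val = i) from rfl, h1]
  simp

private theorem lay_hub {s h i : ℕ} (hs : 2 ≤ s) (hh : 5 * s + 5 ≤ h) (hi : i < s) :
    ((Hub s h (s - 1)).filter (fun v : Fin s × Fin h => row v = i)).card = s - 1 + 2 * i := by
  have h1 : (Hub s h (s - 1)).filter (fun v : Fin s × Fin h => row v = i) =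
      univ.filter (fun v : Fin s × Fin h => v.1.val = i ∧
        (v.2.val < 3 * (i - 1) ∨ (1 ≤ i ∧ h ≤ v.2.val + 3) ∨
          (3 * s + i < v.2.val ∧ v.2.val ≤ 4 * s - 1))) := by
    ext v
    simp only [Hub, row, Finset.mem_filter, Finset.mem_univ, true_and]
    constructor
    · rintro ⟨hv, rfl⟩
      refine ⟨rfl, ?_⟩
      rcases hv with hv | hv | hv
      · left
        have : min (s - 1) (v.1.val - 1) ≤ v.1.val - 1 := min_le_right _ _
        omega
      · right; left; exact ⟨hv.1, hv.2.2⟩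
      · right; right; omega
    · rintro ⟨rfl, hv⟩
      refine ⟨?_, rfl⟩
      rcases hv with hv | hv | hv
      · left
        have : min (s - 1) (v.1.val - 1) = v.1.val - 1 := min_eq_right (by omega)
        omega
      · right; left; exact ⟨hv.1, by omega, hv.2⟩
      · right; right; omega
  rw [h1, lay_cardRow hi (fun c => c < 3 * (i - 1) ∨ (1 ≤ i ∧ h ≤ c + 3) ∨
          (3 * s + i < c ∧ c ≤ 4 * s - 1))]
  have h2 : (range h).filter (fun c => c < 3 * (i - 1) ∨ (1 ≤ i ∧ h ≤ c + 3) ∨
          (3 * s + i < c ∧ c ≤ 4 * s - 1)) =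
      (range (3 * (i - 1)) ∪ Ico (if 1 ≤ i then h - 3 else h) h) ∪ Ioc (3 * s + i) (4 * s - 1) := by
    ext c
    simp only [Finset.mem_filter, Finset.mem_union, Finset.mem_range, Finset.mem_Ico,
      Finset.mem_Ioc]
    split_ifs <;> omega
  rw [h2, Finset.card_union_of_disjoint, Finset.card_union_of_disjoint]
  · rw [Finset.card_range, Nat.card_Ico, Nat.card_Ioc]
    split_ifs <;> omega
  · rw [Finset.disjoint_left]
    intro c hc hc'
    rw [Finset.mem_range] at hc
    rw [Finset.mem_Ico] at hc'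
    split_ifs at hc' <;> omega
  · rw [Finset.disjoint_left]
    intro c hc hc'
    rw [Finset.mem_union, Finset.mem_range, Finset.mem_Ico] at hc
    rw [Finset.mem_Ioc] at hc'
    split_ifs at hc <;> omega

private theorem lay_Tf {s h : ℕ} (hs : 2 ≤ s) (hh : 5 * s + 5 ≤ h) :
    (Tf s h (s - 1)).card = 3 * (s - 1) := by
  have h1 : Tf s h (s - 1) =
      (univ.filter (fun a : Fin s => 1 ≤ a.val)) ×ˢ (univ.filter (fun b : Fin h => h ≤ b.val + 3)) := by
    ext v
    simp only [Tf, Finset.mem_filter, Finset.mem_univ, true_and, Finset.mem_product]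
    have := v.1.isLt
    constructor
    · rintro ⟨a, _, b⟩; exact ⟨a, b⟩
    · rintro ⟨a, b⟩; exact ⟨a, by omega, b⟩
  have h2 : (univ.filter (fun a : Fin s => 1 ≤ a.val)).card = s - 1 := by
    have h3 : (univ.filter (fun a : Fin s => 1 ≤ a.val)).card = (Ico 1 s).card := by
      refine Finset.card_bij (fun v _ => v.val) ?_ ?_ ?_
      · intro v hv
        exact Finset.mem_Ico.2 ⟨(Finset.mem_filter.1 hv).2, v.isLt⟩
      · intro v _ w _ hvw; exact Fin.ext hvw
      · intro c hc
        rw [Finset.mem_Ico] at hc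
        exact ⟨⟨c, hc.2⟩, Finset.mem_filter.2 ⟨Finset.mem_univ _, hc.1⟩, rfl⟩
    rw [h3, Nat.card_Ico]
  have h3 : (univ.filter (fun b : Fin h => h ≤ b.val + 3)).card = 3 := by
    have h4 : (univ.filter (fun b : Fin h => h ≤ b.val + 3)).card = (Ico (h - 3) h).card := by
      refine Finset.card_bij (fun v _ => v.val) ?_ ?_ ?_
      · intro v hv
        have h5 := (Finset.mem_filter.1 hv).2
        exact Finset.mem_Ico.2 ⟨by omega, v.isLt⟩
      · intro v _ w _ hvw; exact Fin.ext hvw
      · intro c hc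
        rw [Finset.mem_Ico] at hc
        exact ⟨⟨c, hc.2⟩, Finset.mem_filter.2 ⟨Finset.mem_univ _, by simp only; omega⟩, rfl⟩
    rw [h4, Nat.card_Ico]
    omega
  rw [h1, Finset.card_product, h2, h3, mul_comm]

theorem layered {s h cU : ℕ} (hs : 2 ≤ s) (hh : 5 * s + 5 ≤ h) (hU : UB s cU) (cS : ℕ → ℕ)
    (hS : ∀ b < s, SB h (s - 1 + 2 * b) (cS b)) :
    SB (s * h) (3 * (s - 1)) ((∑ b ∈ range s, cS b) + h * cU + 100 * s ^ 5) := by
  obtain ⟨π, hnet, hsh, hst⟩ := stage hs hh (s - 1) (by omega)
  have hAct : Act s h (s - 1) = univ := by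
    ext v
    simp only [Act, Finset.mem_filter, Finset.mem_univ, true_and, iff_true]
    left
    have := v.1.isLt
    omega
  rw [hAct] at hst
  have hTH : Tf s h (s - 1) ⊆ Hub s h (s - 1) := by
    intro v hv
    simp only [Tf, Hub, Finset.mem_filter, Finset.mem_univ, true_and] at hv ⊢
    right; left; exact hv
  set T := Tf s h (s - 1) with hT
  set Hb := Hub s h (s - 1) with hHb
  set Y1 : GA (Fin s × Fin h) := av T * av (univ \ T) with hY1def
  have hY1 : av (univ \ Hb) * Y1 = Y1 := by
    have hd : Disjoint (univ \ Hb) T := by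
      rw [Finset.disjoint_left]
      intro v hv hv'
      exact (Finset.mem_sdiff.1 hv).2 (hTH hv')
    rw [hY1def, ← mul_assoc, av_comm hd, mul_assoc, av_mul_av]
    exact Finset.sdiff_subset_sdiff (Finset.Subset.refl _) hTH
  obtain ⟨Q, hQnet, hQeq⟩ := rows_replace (univ : Finset (Fin s × Fin h)) Hb row s
    (fun v _ => v.1.isLt) (Finset.subset_univ _) π Y1 hnet.mem_alg hsh hY1 cS (by
      intro i hi
      have h1 := hS i hi
      have h2 : (univ.filter (fun v : Fin s × Fin h => row v = i)).card = h := lay_row hi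
      have h3 : (Hb.filter (fun v : Fin s × Fin h => row v = i)).card = s - 1 + 2 * i :=
        lay_hub hs hh hi
      rw [h2, h3]
      exact h1)
  have hcol : Net (univ : Finset (Fin s × Fin h)) (ab (univ : Finset (Fin s × Fin h)) col)
      (∑ _i ∈ range h, cU) := by
    refine Net_ab univ col h (fun v _ => v.2.isLt) (fun _ => cU) ?_
    intro i hi
    have h2 : (univ.filter (fun v : Fin s × Fin h => col v = i)).card = s := lay_cardCol hi
    rw [h2]
    exact hU
  rw [Finset.sum_const, Finset.card_range, smul_eq_mul] at hcol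
  have hcard : Fintype.card (Fin s × Fin h) = s * h := by simp
  have hTcard : T.card = 3 * (s - 1) := lay_Tf hs hh
  rw [← hcard, ← hTcard]
  refine SB_of T (ab univ col * Q * π) ?_ ?_
  · have h1 := (hcol.mul hQnet).mul (hnet.mono (Finset.subset_univ _) le_rfl)
    refine h1.mono (Finset.Subset.refl _) ?_
    have h2 : (s - 1) * (100 * s ^ 4) ≤ 100 * s ^ 5 := by
      have h3 : (s - 1) * (100 * s ^ 4) ≤ s * (100 * s ^ 4) := Nat.mul_le_mul_right _ (by omega)
      calc (s - 1) * (100 * s ^ 4) ≤ s * (100 * s ^ 4) := h3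
        _ = 100 * s ^ 5 := by ring
    omega
  · have h1 : ab univ col * Q * π * Y1 = ab univ col * (Q * π * Y1) := by
      simp only [mul_assoc]
    rw [← hY1def, h1, ← hQeq]
    have h2 : ab (univ : Finset (Fin s × Fin h)) col * (ab univ row * π * Y1) =
        ab univ col * (AG s h (s - 1) * ab univ row * π * Y1) := by
      conv_lhs => rw [← ab_col_mul_AG s h (s - 1)]
      simp only [mul_assoc]
    rw [h2, hst]
    exact ab_mul_av (Finset.subset_univ _)

end LZS
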