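import Pool.Agent.LZS.Defs

/-!
# LZS.Star: definitions of the problem and the bridge

PROOF of `star_of_UB`. UB n c for V = Fin n, Y = univ: list l with (l.map lz).prod = av univ. (i) `prodLaw l g = ((l.map lz).prod).coeff g` by
induction on l (coeff of (1-p)•Q + p•(P (swap a b) * Q) at g is (1-p) Q.coeff g + p Q.coeff (swap a b * g)). (ii) (av univ).coeff g = 1/n!.
(iii) replace (a,b,p), a,b ≠ 0 by (0,a,1), (0,b,p), (0,a,1): lz (0,a,1) * lz (0,b,p) * lz (0,a,1) = lz (a,b,p) as swap 0 a * swap 0 b * swap 0 a = swap a b.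
If a = 0 keep (0,b,p); if b = 0: (0,a,p) (swap symmetric).
-/

open Finset Equiv

noncomputable section

namespace LZS

/-- the law of the product `T₁ T₂ ⋯ T_ℓ` of independent lazy transpositions: `prodLaw L g` is the
probability that the product equals `g` -/
def prodLaw {n : ℕ} : List (Fin n × Fin n × ℝ) → Perm (Fin n) → ℝ
  | [], g => if g = 1 then 1 else 0
  | e :: L, g => (1 - e.2.2) * prodLaw L g + e.2.2 * prodLaw L (swap e.1 e.2.1 * g)

/-- a transposition shuffle of `n` elements: independent lazy transpositions whose product is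
exactly uniform -/
def IsShuffle (n : ℕ) (L : List (Fin n × Fin n × ℝ)) : Prop :=
  (∀ e ∈ L, e.1 ≠ e.2.1 ∧ 0 ≤ e.2.2 ∧ e.2.2 ≤ 1) ∧
    ∀ g : Perm (Fin n), prodLaw L g = 1 / (n.factorial : ℝ)

/-- all transpositions are star transpositions `(1, b)` (the centre is `0 : Fin n`) -/
def IsStar (n : ℕ) (L : List (Fin n × Fin n × ℝ)) : Prop := ∀ e ∈ L, (e.1 : ℕ) = 0

theorem P_mul_coeff {V : Type} (s : Perm V) (Q : GA V) (g : Perm V) :
    (P s * Q).coeff g = Q.coeff (s⁻¹ * g) := by
  unfold P
  rw [MonoidAlgebra.of_apply, MonoidAlgebra.coeff_single_mul_apply, one_mul]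

theorem P_coeff {V : Type} [DecidableEq V] [Fintype V] (s g : Perm V) :
    (P s).coeff g = if s = g then 1 else 0 := by
  unfold P
  rw [MonoidAlgebra.of_apply, MonoidAlgebra.coeff_single, Finsupp.single_apply]

theorem prodLaw_eq {n : ℕ} (L : List (Fin n × Fin n × ℝ)) (g : Perm (Fin n)) :
    prodLaw L g = ((L.map lz).prod).coeff g := by
  induction L generalizing g with
  | nil =>
    rw [List.map_nil, List.prod_nil, ← P_one, P_coeff, prodLaw]
    by_cases h : g = 1
    · simp [h]
    · rw [if_neg h, if_neg (fun h' => h h'.symm)]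
  | cons e L ih =>
    rw [List.map_cons, List.prod_cons, prodLaw, ih, ih, lz, add_mul, smul_mul_assoc,
      smul_mul_assoc, one_mul, MonoidAlgebra.coeff_add, Finsupp.add_apply,
      MonoidAlgebra.coeff_smul_apply, MonoidAlgebra.coeff_smul_apply, P_mul_coeff, swap_inv,
      smul_eq_mul, smul_eq_mul]

theorem av_univ_coeff {n : ℕ} (g : Perm (Fin n)) :
    (av (univ : Finset (Fin n))).coeff g = 1 / (n.factorial : ℝ) := by
  have h1 : elts (sym (univ : Finset (Fin n))) = univ := by
    ext x
    rw [mem_elts]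
    simp [mem_sym]
  unfold av avg
  rw [h1, MonoidAlgebra.coeff_smul_apply, MonoidAlgebra.coeff_sum, Finsupp.finsetSum_apply,
    Finset.sum_congr rfl (fun x _ => P_coeff x g), Finset.sum_ite_eq' univ g,
    if_pos (mem_univ g), Finset.card_univ, Fintype.card_perm, Fintype.card_fin, smul_eq_mul,
    mul_one, one_div]

theorem shuffle_of_UB {n c : ℕ} (hn : 2 ≤ n) (h : UB n c) :
    ∃ L : List (Fin n × Fin n × ℝ), IsShuffle n L ∧ L.length ≤ c := by
  obtain ⟨l, h1, h2, h3⟩ := h (Fin n) univ (by simp)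
  refine ⟨l, ⟨fun e he => (h2 e he).2.2, fun g => ?_⟩, h1⟩
  rw [prodLaw_eq, h3, av_univ_coeff]

/-- conjugating by `(0 a)` -/
theorem lz_conj {V : Type} [DecidableEq V] {o a b : V} (hoa : o ≠ a) (hob : o ≠ b)
    (hab : a ≠ b) (p : ℝ) : lz (o, a, 1) * lz (o, b, p) * lz (o, a, 1) = lz (a, b, p) := by
  have h1 : lz (o, a, 1) = P (swap o a) := by
    simp [lz]
  have h2 : swap o a * swap o b * swap o a = swap a b := by
    have h := swap_mul_swap_mul_swap (x := b) (y := o) (z := a) hob.symm hab.symm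
    rw [swap_comm b o] at h
    exact h
  rw [h1, lz, lz, mul_add, add_mul, mul_smul_comm, smul_mul_assoc, mul_smul_comm, smul_mul_assoc,
    mul_one, ← P_mul, ← P_mul, ← P_mul, swap_mul_self, P_one, h2]

theorem star_of_list {n : ℕ} (o : Fin n) (l : List (Fin n × Fin n × ℝ))
    (hl : ∀ e ∈ l, e.1 ≠ e.2.1 ∧ 0 ≤ e.2.2 ∧ e.2.2 ≤ 1) :
    ∃ L : List (Fin n × Fin n × ℝ), (∀ e ∈ L, e.1 ≠ e.2.1 ∧ 0 ≤ e.2.2 ∧ e.2.2 ≤ 1) ∧
      (∀ e ∈ L, e.1 = o) ∧ L.length ≤ 3 * l.length ∧ (L.map lz).prod = (l.map lz).prod := by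
  induction l with
  | nil => exact ⟨[], by simp, by simp, by simp, rfl⟩
  | cons x l ih =>
    obtain ⟨L, h1, h2, h3, h4⟩ := ih (fun e he => hl e (List.mem_cons_of_mem _ he))
    obtain ⟨a, b, p⟩ := x
    obtain ⟨hab, hp0, hp1⟩ := hl (a, b, p) (List.mem_cons_self ..)
    simp only at hab hp0 hp1
    by_cases hao : a = o
    · subst hao
      refine ⟨(a, b, p) :: L, ?_, ?_, ?_, ?_⟩
      · intro e he
        rcases List.mem_cons.1 he with rfl | he
        · exact ⟨hab, hp0, hp1⟩
        · exact h1 e he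
      · intro e he
        rcases List.mem_cons.1 he with rfl | he
        · rfl
        · exact h2 e he
      · simp only [List.length_cons]; omega
      · simp only [List.map_cons, List.prod_cons, h4]
    by_cases hbo : b = o
    · subst hbo
      refine ⟨(b, a, p) :: L, ?_, ?_, ?_, ?_⟩
      · intro e he
        rcases List.mem_cons.1 he with rfl | he
        · exact ⟨hab.symm, hp0, hp1⟩
        · exact h1 e he
      · intro e he
        rcases List.mem_cons.1 he with rfl | he
        · rfl
        · exact h2 e he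
      · simp only [List.length_cons]; omega
      · simp only [List.map_cons, List.prod_cons, h4]
        congr 1
        simp only [lz, swap_comm]
    · have hoa : o ≠ a := fun h => hao h.symm
      have hob : o ≠ b := fun h => hbo h.symm
      refine ⟨(o, a, 1) :: (o, b, p) :: (o, a, 1) :: L, ?_, ?_, ?_, ?_⟩
      · intro e he
        rcases List.mem_cons.1 he with rfl | he
        · exact ⟨hoa, zero_le_one, le_rfl⟩
        rcases List.mem_cons.1 he with rfl | he
        · exact ⟨hob, hp0, hp1⟩
        rcases List.mem_cons.1 he with rfl | he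
        · exact ⟨hoa, zero_le_one, le_rfl⟩
        · exact h1 e he
      · intro e he
        rcases List.mem_cons.1 he with rfl | he
        · rfl
        rcases List.mem_cons.1 he with rfl | he
        · rfl
        rcases List.mem_cons.1 he with rfl | he
        · rfl
        · exact h2 e he
      · simp only [List.length_cons]; omega
      · simp only [List.map_cons, List.prod_cons, h4]
        rw [← lz_conj hoa hob hab p, mul_assoc, mul_assoc]

theorem star_of_UB {n c : ℕ} (hn : 2 ≤ n) (h : UB n c) :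
    ∃ L : List (Fin n × Fin n × ℝ), IsShuffle n L ∧ IsStar n L ∧ L.length ≤ 3 * c := by
  obtain ⟨l, h1, h2, h3⟩ := h (Fin n) univ (by simp)
  obtain ⟨L, h4, h5, h6, h7⟩ :=
    star_of_list (⟨0, by omega⟩ : Fin n) l (fun e he => (h2 e he).2.2)
  refine ⟨L, ⟨h4, fun g => ?_⟩, fun e he => ?_, by omega⟩
  · rw [prodLaw_eq, h7, h3, av_univ_coeff]
  · rw [h5 e he]

end LZS
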