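import Pool.Agent.LZS.Layered
import Pool.Agent.LZS.Ana
import Pool.Agent.LZS.Star

/-!
# LZS.Main: U(n) = o(n^2), and the same for star transpositions

PROOF. U n := sInf {c | UB n c}, S n t := sInf {c | SB n t c}; both sets are nonempty (UB_sq, SB_triv), so Nat.sInf_mem gives UB n (U n), SB n t (S n t);
the inequalities h0..h5 of `ana` are SB_zero, SB_one, SB_add, UB_rec, SB_succ, layered.
-/

open Finset Equiv

noncomputable section

namespace LZS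

/-- least length of a shuffle of `n` elements (algebraic form) -/
def Uc (n : ℕ) : ℕ := sInf {c | UB n c}

/-- least length of a network spreading `t` tokens -/
def Sc (n t : ℕ) : ℕ := sInf {c | SB n t c}

theorem Uc_spec (n : ℕ) : UB n (Uc n) := Nat.sInf_mem (s := {c | UB n c}) ⟨_, UB_sq n⟩

theorem Sc_spec (n t : ℕ) : SB n t (Sc n t) := Nat.sInf_mem (s := {c | SB n t c}) ⟨_, SB_triv n t⟩

theorem Uc_le {n c : ℕ} (h : UB n c) : Uc n ≤ c := Nat.sInf_le h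

theorem Sc_le {n t c : ℕ} (h : SB n t c) : Sc n t ≤ c := Nat.sInf_le h

theorem Uc_little_o : ∀ ε : ℝ, 0 < ε → ∃ N : ℕ, ∀ n, N ≤ n → (Uc n : ℝ) ≤ ε * (n : ℝ) ^ 2 := by
  apply ana Sc Uc
  · intro n
    exact Nat.le_zero.1 (Sc_le (SB_zero n))
  · intro n
    exact Sc_le (SB_one n)
  · intro n a b hab
    exact Sc_le (SB_add hab (Sc_spec n a) (Sc_spec (n - a) b))
  · intro n t ht
    exact Uc_le (UB_rec ht (Uc_spec t) (Uc_spec (n - t)) (Sc_spec n t))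
  · intro n t ht
    exact Sc_le (SB_succ ht (Uc_spec t) (Sc_spec n t))
  · intro s h hs hh
    exact Sc_le (layered hs hh (Uc_spec s) (fun b => Sc h (s - 1 + 2 * b))
      (fun b _ => Sc_spec h (s - 1 + 2 * b)))

theorem UB_little_o : ∀ ε : ℝ, 0 < ε → ∃ N : ℕ, ∀ n, N ≤ n → ∃ c : ℕ, UB n c ∧
    (c : ℝ) ≤ ε * (n : ℝ) ^ 2 := by
  intro ε hε
  obtain ⟨N, hN⟩ := Uc_little_o ε hε
  exact ⟨N, fun n hn => ⟨Uc n, Uc_spec n, hN n hn⟩⟩

theorem star_little_o : ∀ ε : ℝ, 0 < ε → ∃ N : ℕ, ∀ n, N ≤ n →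
    ∃ L : List (Fin n × Fin n × ℝ), IsShuffle n L ∧ IsStar n L ∧
      (L.length : ℝ) ≤ ε * (n : ℝ) ^ 2 := by
  intro ε hε
  obtain ⟨N, hN⟩ := UB_little_o (ε / 3) (by positivity)
  refine ⟨max N 2, fun n hn => ?_⟩
  obtain ⟨c, hc, hce⟩ := hN n ((le_max_left _ _).trans hn)
  obtain ⟨L, h1, h2, h3⟩ := star_of_UB ((le_max_right _ _).trans hn) hc
  refine ⟨L, h1, h2, ?_⟩
  have h4 : (L.length : ℝ) ≤ 3 * (c : ℝ) := by exact_mod_cast h3
  have h5 : (3 : ℝ) * (ε / 3 * (n : ℝ) ^ 2) = ε * (n : ℝ) ^ 2 := by ring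
  linarith

end LZS
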