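import Mathlib
import Pool.Agent.LZS.Main

/-!
# Star transposition shuffles of length o(n^2)

`LZS.prodLaw`, `LZS.IsShuffle`, `LZS.IsStar` are in `Pool/Agent/LZS/Star.lean`.
-/

open Filter Topology

namespace Pool.Agent.Results.MP_89e859_co.StarShuffleLittleO

/-- the least length of a shuffle of `n` elements by lazy star transpositions -/
noncomputable def starLength (n : ℕ) : ℕ :=
  sInf {l | ∃ L : List (Fin n × Fin n × ℝ), LZS.IsShuffle n L ∧ LZS.IsStar n L ∧ L.length = l}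

/-- the least length of a shuffle of `n` elements by lazy transpositions -/
noncomputable def shuffleLength (n : ℕ) : ℕ :=
  sInf {l | ∃ L : List (Fin n × Fin n × ℝ), LZS.IsShuffle n L ∧ L.length = l}

theorem result :
    (∀ n : ℕ, 2 ≤ n → ∃ L : List (Fin n × Fin n × ℝ), LZS.IsShuffle n L ∧ LZS.IsStar n L) ∧
    Tendsto (fun n : ℕ => (starLength n : ℝ) / (n : ℝ) ^ 2) atTop (𝓝 0) ∧
    Tendsto (fun n : ℕ => (shuffleLength n : ℝ) / (n : ℝ) ^ 2) atTop (𝓝 0) := by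
  have key : ∀ ε : ℝ, 0 < ε → ∃ N : ℕ, ∀ n, N ≤ n → (starLength n : ℝ) ≤ ε * (n : ℝ) ^ 2 ∧
      shuffleLength n ≤ starLength n := by
    intro ε hε
    obtain ⟨N, hN⟩ := LZS.star_little_o ε hε
    refine ⟨N, fun n hn => ?_⟩
    obtain ⟨L, h1, h2, h3⟩ := hN n hn
    have h4 : starLength n ≤ L.length := Nat.sInf_le ⟨L, h1, h2, rfl⟩
    have h5 : (starLength n : ℝ) ≤ (L.length : ℝ) := by exact_mod_cast h4
    refine ⟨h5.trans h3, ?_⟩
    obtain ⟨L', h1', h2', h3'⟩ := Nat.sInf_mem (s := {l | ∃ L : List (Fin n × Fin n × ℝ),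
      LZS.IsShuffle n L ∧ LZS.IsStar n L ∧ L.length = l}) ⟨_, L, h1, h2, rfl⟩
    exact Nat.sInf_le ⟨L', h1', h3'⟩
  have lim : ∀ f : ℕ → ℕ, (∀ ε : ℝ, 0 < ε → ∃ N : ℕ, ∀ n, N ≤ n →
      (f n : ℝ) ≤ ε * (n : ℝ) ^ 2) →
      Tendsto (fun n : ℕ => (f n : ℝ) / (n : ℝ) ^ 2) atTop (𝓝 0) := by
    intro f hf
    rw [Metric.tendsto_atTop]
    intro ε hε
    obtain ⟨N, hN⟩ := hf (ε / 2) (by positivity)
    refine ⟨max N 1, fun n hn => ?_⟩
    have h1 := hN n ((le_max_left _ _).trans hn)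
    have h2 : (0 : ℝ) < (n : ℝ) ^ 2 := by
      have : 1 ≤ n := (le_max_right _ _).trans hn
      positivity
    rw [Real.dist_eq, sub_zero, abs_of_nonneg (by positivity), div_lt_iff₀ h2]
    nlinarith
  refine ⟨fun n hn => ?_, lim _ fun ε hε => ?_, lim _ fun ε hε => ?_⟩
  · obtain ⟨L, h1, h2, -⟩ := LZS.star_of_UB hn (LZS.UB_sq n)
    exact ⟨L, h1, h2⟩
  · obtain ⟨N, hN⟩ := key ε hε
    exact ⟨N, fun n hn => (hN n hn).1⟩
  · obtain ⟨N, hN⟩ := key ε hε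
    refine ⟨N, fun n hn => ?_⟩
    have h1 : (shuffleLength n : ℝ) ≤ (starLength n : ℝ) := by exact_mod_cast (hN n hn).2
    exact h1.trans (hN n hn).1

end Pool.Agent.Results.MP_89e859_co.StarShuffleLittleO
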