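import Pool.Agent.LZS.Core
import Pool.Agent.LZS.BCom
import Pool.Agent.LZS.Rows

/-!
# LZS.Stage: induction on the stages

PROOF. k = 0: π = 1, Tf 0 = ∅, AG 0 = 1, Hub 0 = ∅: ab (Act 0) row * (av ∅ * av (Act 0)) = av (Act 0) (ab_mul_av).
Step k-1 → k (1 ≤ k < s). π₁ for k-1. Y1 = av (Tf (k-1)) * av (Act (k-1) \ Tf (k-1)). E = Ef k ∪ Xf k ⊆ Act (k-1) \ Hub (k-1), |E| ≤ 3 s.
`extr_all` with Y = Act (k-1), Hb = Hub (k-1), f = row, csh = 9 s^3 (each row of Hub has ≤ 3 s sites: UB_sq + ab_split, module Rows: `Net_ab`):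
ab (Act (k-1)) row * π₁ * Y1 = ab (Act (k-1) \ E) row * (Ex * π₁) * Y1.
Note hY1: av (Act (k-1) \ Hub (k-1)) * Y1 = Y1 since Tf (k-1) ⊆ Hub (k-1). Core: B = av X * Q * av X.
π = ab (Hub k) row * B * Ex * π₁. T = Tf k = Tf (k-1) ∪ Zf k, Act k = Act (k-1) ∪ Zf k, Act (k-1) = Act k \ Zf k.
Compute (G = AG k, G' = AG (k-1), R = ab (Act k) row, R2 = ab (Act (k-1) \ E) row, Y = av T * av (Act k \ T), Zz = av (Zf k)):
R * ab (Hub k) row = R (mul_ab_ab); Y = Y1 * Zz * Y (Act k \ T = Act (k-1) \ Tf (k-1)); R = R * R2; R2 commutes with B (disjoint supports: B lives on X ∪ Z ∪ E);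
G = G * G'; G' commutes with R (AG_comm_ab) and with B (B_comm):
G R π Y = G R B Ex π₁ Y1 Zz Y = G R R2 B Ex π₁ Y1 Zz Y = G R B R2 Ex π₁ Y1 Zz Y = G R B ab(Act (k-1)) row π₁ Y1 Zz Y
 = G G' R B ab(..) π₁ Y1 Zz Y = G R B (G' ab(..) π₁ Y1) Zz Y = G R B av (Act (k-1)) Zz Y = av (Act k) * Y = av (Act k).
Net: Hub k = Hub (k-1) ∪ Ef k ∪ Xf k ∪ Zf k. Cost per stage: 9 s^3 + (2 s^2 + 12 s + 11) + 3 s (9 s^3 + 1) ≤ 100 s^4.
-/

open Finset Equiv

noncomputable section

namespace LZS

/-- every row of the hub set has at most `3 s` sites -/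
private theorem hub_row_card {s h k : ℕ} (hk : k < s) (i : ℕ) :
    ((Hub s h k).filter (fun v => row v = i)).card ≤ 3 * s := by
  classical
  have h1 : ((Hub s h k).filter (fun v => row v = i)).card ≤
      (range (3 * min k (i - 1)) ∪ ((if 1 ≤ i ∧ i ≤ k then Ico (h - 3) h else ∅) ∪
        Ioc (3 * s + i) (3 * s + k))).card := by
    apply Finset.card_le_card_of_injOn (fun v => v.2.val)
    · intro v hv
      have h2 := v.2.isLt
      rw [Finset.mem_coe, Finset.mem_filter, Hub, Finset.mem_filter] at hv
      obtain ⟨⟨-, hv⟩, hr⟩ := hv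
      simp only [row] at hr
      rw [Finset.mem_coe, Finset.mem_union, Finset.mem_union, Finset.mem_range, Finset.mem_Ioc]
      beta_reduce
      rcases hv with hv | hv | hv
      · left; rw [← hr]; exact hv
      · right; left
        rw [if_pos (by omega), Finset.mem_Ico]
        omega
      · right; right; omega
    · intro v hv w hw hvw
      have hr := (Finset.mem_filter.1 (Finset.mem_coe.1 hv)).2
      have hr' := (Finset.mem_filter.1 (Finset.mem_coe.1 hw)).2
      simp only [row] at hr hr'
      exact Prod.ext (Fin.ext (by omega)) (Fin.ext hvw)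
  refine h1.trans ((Finset.card_union_le _ _).trans ?_)
  have h3 := Finset.card_union_le (if 1 ≤ i ∧ i ≤ k then Ico (h - 3) h else ∅)
    (Ioc (3 * s + i) (3 * s + k))
  rw [Finset.card_range]
  rw [Nat.card_Ioc] at h3
  by_cases hik : 1 ≤ i ∧ i ≤ k
  · rw [if_pos hik] at h3 ⊢
    rw [Nat.card_Ico] at h3
    omega
  · rw [if_neg hik] at h3 ⊢
    rw [Finset.card_empty] at h3
    omega

private theorem Net_hub {s h k : ℕ} (hk : k < s) :
    Net (Hub s h k) (ab (Hub s h k) row) (9 * s ^ 3) := by
  have h1 := Net_ab (Hub s h k) row s (fun v _ => v.1.isLt) (fun _ => 9 * s ^ 2) (by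
    intro i _
    refine UB_mono (UB_sq _) ?_
    calc ((Hub s h k).filter (fun v => row v = i)).card ^ 2 ≤ (3 * s) ^ 2 :=
          Nat.pow_le_pow_left (hub_row_card hk i) 2
      _ = 9 * s ^ 2 := by ring)
  refine h1.mono (le_refl _) ?_
  rw [Finset.sum_const, Finset.card_range, smul_eq_mul]
  exact le_of_eq (by ring)

private theorem E_card {s h k : ℕ} (hk : k + 1 < s) (hh : 5 * s + 5 ≤ h) :
    (Ef s h (k + 1) ∪ Xf s h (k + 1)).card ≤ 3 * s := by
  classical
  let g : Fin s × Fin 3 → Fin s × Fin h := fun p =>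
    (p.1, if k + 1 < p.1.val then ⟨3 * k + p.2.val, by have := p.2.isLt; omega⟩
      else ⟨3 * s + (k + 1), by omega⟩)
  have h1 : Ef s h (k + 1) ∪ Xf s h (k + 1) ⊆ univ.image g := by
    intro v hv
    rw [Finset.mem_image]
    rcases Finset.mem_union.1 hv with hv | hv
    · simp only [Ef, Finset.mem_filter, Finset.mem_univ, true_and] at hv
      refine ⟨(v.1, ⟨v.2.val - 3 * k, by omega⟩), Finset.mem_univ _, ?_⟩
      simp only [g]
      rw [if_pos hv.1]
      refine Prod.ext rfl (Fin.ext ?_)
      simp only []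
      omega
    · simp only [Xf, Finset.mem_filter, Finset.mem_univ, true_and] at hv
      refine ⟨(v.1, 0), Finset.mem_univ _, ?_⟩
      simp only [g]
      rw [if_neg (by omega)]
      refine Prod.ext rfl (Fin.ext ?_)
      simp only []
      omega
  refine (Finset.card_le_card h1).trans (Finset.card_image_le.trans ?_)
  rw [Finset.card_univ, Fintype.card_prod, Fintype.card_fin, Fintype.card_fin]
  omega

theorem stage {s h : ℕ} (hs : 2 ≤ s) (hh : 5 * s + 5 ≤ h) (k : ℕ) (hk : k < s) :
    ∃ π : GA (Fin s × Fin h), Net (Hub s h k) π (k * (100 * s ^ 4)) ∧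
      ab (Hub s h k) row * π = π ∧
      AG s h k * ab (Act s h k) row * π *
        (av (Tf s h k) * av (Act s h k \ Tf s h k)) = av (Act s h k) := by
  induction k with
  | zero =>
    have hH : Hub s h 0 = ∅ := by
      rw [Finset.eq_empty_iff_forall_notMem]
      intro v hv
      simp only [Hub, Finset.mem_filter, Finset.mem_univ, true_and] at hv
      omega
    have hT : Tf s h 0 = ∅ := by
      rw [Finset.eq_empty_iff_forall_notMem]
      intro v hv
      simp only [Tf, Finset.mem_filter, Finset.mem_univ, true_and] at hv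
      omega
    refine ⟨1, (Net.one _).mono (le_refl _) (Nat.zero_le _), ?_, ?_⟩
    · rw [hH, ab_const (by simp), av_empty, mul_one]
    · rw [hT, av_empty, one_mul, AG_zero, one_mul, mul_one, Finset.sdiff_empty,
        ab_mul_av (le_refl _)]
  | succ k ih =>
    obtain ⟨π₁, hN1, hsh1, hE1⟩ := ih (by omega)
    obtain ⟨Q, hQalg, hBnet, hcore⟩ := core (s := s) (h := h) (k := k + 1) (by omega) hk hh
    have hBcomm := B_comm (s := s) (h := h) (k := k + 1) (by omega) hQalg
    rw [Nat.add_sub_cancel] at hBcomm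
    set X := Xf s h (k + 1) with hX
    set Z := Zf s h (k + 1) with hZ
    set F := Ef s h (k + 1) with hF
    set B := av X * Q * av X with hB
    set A' := Act s h k with hA'
    set A := Act s h (k + 1) with hA
    set T' := Tf s h k with hT'
    set T := Tf s h (k + 1) with hT
    set H' := Hub s h k with hH'
    set H := Hub s h (k + 1) with hH
    have hEsub : F ∪ X ⊆ A' \ H' := by
      intro v hv
      have h2 := v.1.isLt
      simp only [hF, hX, hA', hH', Ef, Xf, Act, Hub, Finset.mem_union, Finset.mem_sdiff,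
        Finset.mem_filter, Finset.mem_univ, true_and] at hv ⊢
      omega
    have hHA' : H' ⊆ A' := by
      intro v hv
      have h2 := v.1.isLt
      simp only [hA', hH', Act, Hub, Finset.mem_filter, Finset.mem_univ, true_and] at hv ⊢
      omega
    have hHA : H ⊆ A := by
      intro v hv
      have h2 := v.1.isLt
      simp only [hA, hH, Act, Hub, Finset.mem_filter, Finset.mem_univ, true_and] at hv ⊢
      omega
    have hTH' : T' ⊆ H' := by
      intro v hv
      simp only [hT', hH', Tf, Hub, Finset.mem_filter, Finset.mem_univ, true_and] at hv ⊢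
      omega
    have hTA' : T' ⊆ A' := hTH'.trans hHA'
    have hA'Z : A \ Z = A' := by
      ext v
      simp only [hA, hZ, hA', Act, Zf, Finset.mem_sdiff, Finset.mem_filter, Finset.mem_univ,
        true_and]
      omega
    have hTT : T = T' ∪ Z := by
      ext v
      simp only [hT, hT', hZ, Tf, Zf, Finset.mem_union, Finset.mem_filter, Finset.mem_univ,
        true_and]
      omega
    have hAT : A \ T = A' \ T' := by
      ext v
      simp only [hA, hA', hT, hT', Act, Tf, Finset.mem_sdiff, Finset.mem_filter,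
        Finset.mem_univ, true_and]
      omega
    -- the right factor of the previous stage
    have hY1 : av (A' \ H') * (av T' * av (A' \ T')) = av T' * av (A' \ T') := by
      have hd : Disjoint (A' \ H') T' := by
        rw [Finset.disjoint_left]
        intro v hv hv'
        exact (Finset.mem_sdiff.1 hv).2 (hTH' hv')
      rw [← mul_assoc, av_comm hd, mul_assoc,
        av_mul_av (Finset.sdiff_subset_sdiff (le_refl _) hTH')]
    obtain ⟨Ex, hNEx, hExe, -⟩ := extr_all A' H' (F ∪ X) row hHA' hEsub π₁
      (av T' * av (A' \ T')) hN1.mem_alg hsh1 hY1 (9 * s ^ 3) (Net_hub (by omega))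
    refine ⟨ab H row * (B * (Ex * π₁)), ?_, ?_, ?_⟩
    · -- cost
      have s1 : X ∪ Z ∪ F ⊆ H := by
        intro v hv
        have h2 := v.1.isLt
        simp only [hX, hZ, hF, hH, Xf, Zf, Ef, Hub, Finset.mem_union, Finset.mem_filter,
          Finset.mem_univ, true_and] at hv ⊢
        omega
      have s2 : H' ∪ (F ∪ X) ⊆ H := by
        intro v hv
        have h2 := v.1.isLt
        simp only [hX, hH', hF, hH, Xf, Ef, Hub, Finset.mem_union, Finset.mem_filter,
          Finset.mem_univ, true_and] at hv ⊢
        omega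
      have n1 : Net H (ab H row) (9 * s ^ 3) := Net_hub hk
      have n2 := hBnet.mono s1 le_rfl
      have n3 := hNEx.mono s2 le_rfl
      have n4 := hN1.mono (Finset.subset_union_left.trans s2) le_rfl
      refine (n1.mul (n2.mul (n3.mul n4))).mono (le_refl _) ?_
      have e1 : (F ∪ X).card ≤ 3 * s := E_card hk hh
      have e2 : (F ∪ X).card * (9 * s ^ 3 + 1) ≤ 3 * s * (9 * s ^ 3 + 1) :=
        Nat.mul_le_mul_right _ e1
      have p0 : 1 ≤ s := by omega
      have p1 : s ≤ s ^ 4 := by
        calc s = s ^ 1 := (pow_one s).symm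
          _ ≤ s ^ 4 := Nat.pow_le_pow_right p0 (by norm_num)
      have p2 : s ^ 2 ≤ s ^ 4 := Nat.pow_le_pow_right p0 (by norm_num)
      have p3 : s ^ 3 ≤ s ^ 4 := Nat.pow_le_pow_right p0 (by norm_num)
      have p4 : 3 * s * (9 * s ^ 3 + 1) = 27 * s ^ 4 + 3 * s := by ring
      have p5 : 1 ≤ s ^ 4 := Nat.one_le_pow _ _ p0
      have p6 : (k + 1) * (100 * s ^ 4) = k * (100 * s ^ 4) + 100 * s ^ 4 := by ring
      rw [p6]
      omega
    · rw [← mul_assoc, ab_mul_ab (le_refl _)]
    · -- the identity
      have hZT : Z ⊆ T := by rw [hTT]; exact Finset.subset_union_right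
      have hT'T : T' ⊆ T := by rw [hTT]; exact Finset.subset_union_left
      have hTA : T ⊆ A := by
        intro v hv
        simp only [hA, hT, Act, Tf, Finset.mem_filter, Finset.mem_univ, true_and] at hv ⊢
        omega
      set Y := av T * av (A \ T) with hY
      have f2 : av T' * av (A' \ T') * (av Z * Y) = Y := by
        have g1 : av Z * Y = Y := by rw [hY, ← mul_assoc, av_mul_av hZT]
        have g2 : av (A \ T) * Y = Y := by
          rw [hY, ← mul_assoc, av_comm Finset.sdiff_disjoint, mul_assoc, av_mul_av (le_refl _)]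
        have g3 : av T' * Y = Y := by rw [hY, ← mul_assoc, av_mul_av hT'T]
        rw [g1, ← hAT, mul_assoc, g2, g3]
      have f1 : ab A row * ab H row = ab A row := mul_ab_ab hHA
      have f3 : ab A row * ab (A' \ (F ∪ X)) row = ab A row := by
        apply mul_ab_ab
        rw [← hA'Z]
        exact Finset.sdiff_subset.trans Finset.sdiff_subset
      have f4 : ab (A' \ (F ∪ X)) row * B = B * ab (A' \ (F ∪ X)) row := by
        refine alg_comm (Y := A' \ (F ∪ X)) (Y' := X ∪ Z ∪ F) ?_ (ab_mem_alg _ _) hBnet.mem_alg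
        rw [Finset.disjoint_left]
        intro v hv hv'
        have h1 := Finset.mem_sdiff.1 hv
        rw [← hA'Z] at h1
        rcases Finset.mem_union.1 hv' with h2 | h2
        · rcases Finset.mem_union.1 h2 with h3 | h3
          · exact h1.2 (Finset.mem_union_right _ h3)
          · exact (Finset.mem_sdiff.1 h1.1).2 h3
        · exact h1.2 (Finset.mem_union_left _ h2)
      have f5 : AG s h (k + 1) * AG s h k = AG s h (k + 1) := AG_mul_AG (Nat.le_succ k)
      have f6 : AG s h k * ab A row = ab A row * AG s h k := AG_comm_ab (Nat.le_succ k)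
      have f10 : AG s h (k + 1) * ab A row * B * (av A' * av Z) = av A := by
        rw [← hA'Z]; exact hcore
      have f11 : av A * Y = av A := by
        rw [hY, ← mul_assoc, mul_av_av hTA, mul_av_av Finset.sdiff_subset]
      calc AG s h (k + 1) * ab A row * (ab H row * (B * (Ex * π₁))) * Y
          = AG s h (k + 1) * (ab A row * ab H row) * B * (Ex * π₁) * Y := by
            simp only [mul_assoc]
        _ = AG s h (k + 1) * ab A row * B * (Ex * π₁) *
              (av T' * av (A' \ T') * (av Z * Y)) := by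
            rw [f1, f2]
        _ = AG s h (k + 1) * (ab A row * ab (A' \ (F ∪ X)) row) * B * (Ex * π₁) *
              (av T' * av (A' \ T') * (av Z * Y)) := by rw [f3]
        _ = AG s h (k + 1) * ab A row * (ab (A' \ (F ∪ X)) row * B) * (Ex * π₁) *
              (av T' * av (A' \ T') * (av Z * Y)) := by simp only [mul_assoc]
        _ = AG s h (k + 1) * ab A row * B *
              (ab (A' \ (F ∪ X)) row * (Ex * π₁) * (av T' * av (A' \ T'))) * (av Z * Y) := by
            rw [f4]; simp only [mul_assoc]
        _ = (AG s h (k + 1) * AG s h k) * ab A row * B *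
              (ab A' row * π₁ * (av T' * av (A' \ T'))) * (av Z * Y) := by
            rw [← hExe, f5]
        _ = AG s h (k + 1) * (AG s h k * ab A row) * B *
              (ab A' row * π₁ * (av T' * av (A' \ T'))) * (av Z * Y) := by
            simp only [mul_assoc]
        _ = AG s h (k + 1) * ab A row * (AG s h k * B) *
              (ab A' row * π₁ * (av T' * av (A' \ T'))) * (av Z * Y) := by
            rw [f6]; simp only [mul_assoc]
        _ = AG s h (k + 1) * ab A row * B *
              (AG s h k * ab A' row * π₁ * (av T' * av (A' \ T'))) * (av Z * Y) := by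
            rw [hBcomm]; simp only [mul_assoc]
        _ = AG s h (k + 1) * ab A row * B * (av A' * av Z) * Y := by
            rw [hE1]; simp only [mul_assoc]
        _ = av A := by rw [f10, f11]

end LZS
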